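import Pool.Agent.DBP.DefsP
import Pool.Agent.DBK.Acyc

/-! # DBP: closed walks through a vertex

`acy_through`: in a closed walk in `insert y C` the vertex `y` occurs (otherwise it is in `C`); cut it at consecutive
visits of `y`. A convenient invariant, for a walk from `b` to `c` in `insert y C`: either `b, c ∈ C` and there is a walk in `C`, or
the walk passes through `y`; together with: every walk from `y` to `y` contains a cycle as in the conclusion
(`Relation.TransGen.head_induction_on`).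
`path_avoid`: every vertex from which a step is made is not `u`, and the last vertex is `p ≠ u`.
`acy_two`: by contradiction, `acy_through` gives a cycle `y, a, ..., p, y`. If `p ≠ u`, the path from `a` to `p` avoids `u`, so the
cycle is in `insert y (C \ {u})`, a contradiction. If `p = u` it avoids `v`.
-/

namespace Pool.Agent.DBP

open Finset Pool.Agent.DBK
open scoped Classical

variable {V : Type*} {A : V → V → Prop}

private theorem acyT_split {C : Set V} {y : V} {b c : V}
    (h : Relation.TransGen (fun b c => b ∈ insert y C ∧ c ∈ insert y C ∧ A b c) b c) :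
    Relation.TransGen (fun b c => b ∈ C ∧ c ∈ C ∧ A b c) b c ∨
      (Relation.ReflTransGen (fun b c => b ∈ insert y C ∧ c ∈ insert y C ∧ A b c) b y ∧
        Relation.ReflTransGen (fun b c => b ∈ insert y C ∧ c ∈ insert y C ∧ A b c) y c) := by
  induction h with
  | @single c h1 =>
    by_cases hb : b = y
    · subst hb
      exact Or.inr ⟨Relation.ReflTransGen.refl, Relation.ReflTransGen.single h1⟩
    · by_cases hc : c = y
      · subst hc
        exact Or.inr ⟨Relation.ReflTransGen.single h1, Relation.ReflTransGen.refl⟩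
      · exact Or.inl (Relation.TransGen.single ⟨Set.mem_of_mem_insert_of_ne h1.1 hb,
          Set.mem_of_mem_insert_of_ne h1.2.1 hc, h1.2.2⟩)
  | @tail c d h1 h2 ih =>
    rcases ih with ih | ⟨ih1, ih2⟩
    · by_cases hd : d = y
      · subst hd
        refine Or.inr ⟨?_, Relation.ReflTransGen.refl⟩
        exact (h1.tail h2).to_reflTransGen
      · have hcC : c ∈ C := by
          obtain ⟨e, _, he⟩ := Relation.TransGen.tail'_iff.1 ih
          exact he.2.1
        exact Or.inl (ih.tail ⟨hcC, Set.mem_of_mem_insert_of_ne h2.2.1 hd, h2.2.2⟩)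
    · exact Or.inr ⟨ih1, ih2.tail h2⟩

private theorem acyT_first {C : Set V} {y : V} {b : V}
    (h : Relation.TransGen (fun b c => b ∈ insert y C ∧ c ∈ insert y C ∧ A b c) b y) :
    b ∈ C → ∃ p ∈ C, Relation.ReflTransGen (fun b c => b ∈ C ∧ c ∈ C ∧ A b c) b p ∧ A p y := by
  induction h using Relation.TransGen.head_induction_on with
  | @single b h1 =>
    intro hb
    exact ⟨b, hb, Relation.ReflTransGen.refl, h1.2.2⟩
  | @head b b' h1 _ ih =>
    intro hb
    by_cases hy : b' = y
    · subst hy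
      exact ⟨b, hb, Relation.ReflTransGen.refl, h1.2.2⟩
    · have hb' : b' ∈ C := Set.mem_of_mem_insert_of_ne h1.2.1 hy
      obtain ⟨p, hp, h2, h3⟩ := ih hb'
      exact ⟨p, hp, Relation.ReflTransGen.head ⟨hb, hb', h1.2.2⟩ h2, h3⟩

theorem acy_through {C : Set V} {y : V} (hC : AcyclicOn A C) (hl : ¬ A y y)
    (h : ¬ AcyclicOn A (insert y C)) :
    ∃ a ∈ C, ∃ p ∈ C, A y a ∧ Relation.ReflTransGen (fun b c => b ∈ C ∧ c ∈ C ∧ A b c) a p ∧
      A p y := by
  unfold AcyclicOn at h
  push Not at h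
  obtain ⟨v, hv⟩ := h
  have hyy : Relation.TransGen (fun b c => b ∈ insert y C ∧ c ∈ insert y C ∧ A b c) y y := by
    rcases acyT_split hv with h1 | ⟨h1, h2⟩
    · exact absurd h1 (hC v)
    · by_cases hvy : v = y
      · rw [hvy] at hv
        exact hv
      · rcases Relation.reflTransGen_iff_eq_or_transGen.1 h1 with h3 | h3
        · exact absurd h3.symm hvy
        · exact Relation.TransGen.trans_right h2 h3
  obtain ⟨a, ha, ha'⟩ := Relation.TransGen.head'_iff.1 hyy
  have hay : a ≠ y := by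
    rintro rfl
    exact hl ha.2.2
  have haC : a ∈ C := Set.mem_of_mem_insert_of_ne ha.2.1 hay
  rcases Relation.reflTransGen_iff_eq_or_transGen.1 ha' with h3 | h3
  · exact absurd h3.symm hay
  · obtain ⟨p, hp, h4, h5⟩ := acyT_first h3 haC
    exact ⟨a, haC, p, hp, ha.2.2, h4, h5⟩

theorem path_avoid {C : Set V} {u : V} (hu : ∀ c ∈ C, ¬ A u c) {a p : V} (hp : p ≠ u)
    (h : Relation.ReflTransGen (fun b c => b ∈ C ∧ c ∈ C ∧ A b c) a p) :
    a ≠ u ∧ Relation.ReflTransGen (fun b c => b ∈ C \ {u} ∧ c ∈ C \ {u} ∧ A b c) a p := by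
  induction h using Relation.ReflTransGen.head_induction_on with
  | refl => exact ⟨hp, Relation.ReflTransGen.refl⟩
  | @head a b h1 _ ih =>
    have hau : a ≠ u := by
      rintro rfl
      exact hu b h1.2.1 h1.2.2
    exact ⟨hau, Relation.ReflTransGen.head ⟨⟨h1.1, hau⟩, ⟨h1.2.1, ih.1⟩, h1.2.2⟩ ih.2⟩

private theorem acyT_cycle {D : Set V} {y a p : V} (ha : a ∈ D) (hp : p ∈ D) (h1 : A y a)
    (h2 : Relation.ReflTransGen (fun b c => b ∈ D ∧ c ∈ D ∧ A b c) a p) (h3 : A p y) :
    ¬ AcyclicOn A (insert y D) := by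
  intro h
  refine h y ?_
  have h4 : Relation.ReflTransGen (fun b c => b ∈ insert y D ∧ c ∈ insert y D ∧ A b c) a p :=
    Relation.ReflTransGen.mono (fun b c hbc => ⟨Set.mem_insert_of_mem _ hbc.1,
      Set.mem_insert_of_mem _ hbc.2.1, hbc.2.2⟩) _ _ h2
  have h5 : Relation.TransGen (fun b c => b ∈ insert y D ∧ c ∈ insert y D ∧ A b c) y p :=
    Relation.TransGen.head' ⟨Set.mem_insert _ _, Set.mem_insert_of_mem _ ha, h1⟩ h4
  exact h5.tail ⟨Set.mem_insert_of_mem _ hp, Set.mem_insert _ _, h3⟩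

/-- If both `u` and `v` have no out-neighbour in `C`, and `y` can be added to `C \ {u}` and to
`C \ {v}`, then it can be added to `C`. -/
theorem acy_two {C : Set V} {y u v : V} (huv : u ≠ v) (hC : AcyclicOn A C)
    (hl : ¬ A y y) (hsu : ∀ c ∈ C, ¬ A u c) (hsv : ∀ c ∈ C, ¬ A v c)
    (h1 : AcyclicOn A (insert y (C \ {u}))) (h2 : AcyclicOn A (insert y (C \ {v}))) :
    AcyclicOn A (insert y C) := by
  by_contra hcon
  obtain ⟨a, ha, p, hp, h3, h4, h5⟩ := acy_through hC hl hcon
  by_cases hpu : p = u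
  · have hpv : p ≠ v := fun h => huv (hpu ▸ h)
    obtain ⟨h6, h7⟩ := path_avoid hsv hpv h4
    exact acyT_cycle (D := C \ {v}) ⟨ha, h6⟩ ⟨hp, hpv⟩ h3 h7 h5 h2
  · obtain ⟨h6, h7⟩ := path_avoid hsu hpu h4
    exact acyT_cycle (D := C \ {u}) ⟨ha, h6⟩ ⟨hp, hpu⟩ h3 h7 h5 h1

end Pool.Agent.DBP
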