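import Pool.Agent.DBP.PcP
import Pool.Agent.DBK.Average

/-! # DBP: sums over all states

`sum_nu`: sum `pairP` over all ordered pairs `i ≠ j`; the ordered pairs with exactly one clean part are `2 nb s (m - nb s)` (see
`Pool/Agent/DBK/Average.lean`), so `2 ∑ nu ≤ ∑ 2 nb s (m - nb s) ≤ 2 m ∑ nb s`.
`sum_nd`: fix `i`. The map `(s, z) ↦ (sw s i z, s.1)`, for `s ∈ O` clean at `i` and `z ∈ T A s i`, is an involution of the set of such pairs (`hS.swap`,
`sw (sw s i z) i s.1 = s`, `s.1 ∈ T A (sw s i z) i`), so `∑_s ∑_z nb (sw s i z) = ∑_s ∑_z nb s = ∑_s 3 nb s` over the states clean at `i` (`cln_card`). Sum over `i`.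
-/

namespace Pool.Agent.DBP

open Finset Pool.Agent.DBK
open scoped Classical

variable {V : Type*} [Fintype V] {m : ℕ} {A : V → V → Prop}


/-- The number of unclean parts. -/
noncomputable def nb (A : V → V → Prop) (s : St V m) : ℕ :=
  (univ.filter (fun j => ¬ Cln A s j)).card

/-- The number of ordered unjoined pairs of clean parts. -/
noncomputable def nu (A : V → V → Prop) (s : St V m) : ℕ :=
  ((univ : Finset (Fin m × Fin m)).filter (fun p => p.1 ≠ p.2 ∧ Cln A s p.1 ∧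
      Cln A s p.2 ∧ ¬ Jnd A s p.1 p.2)).card

/-- The sum of the numbers of unclean parts over all swaps. -/
noncomputable def nd (A : V → V → Prop) (s : St V m) : ℕ :=
  ∑ i ∈ univ.filter (fun i => Cln A s i), ∑ z ∈ T A s i, nb A (sw s i z)

private theorem avA_swap {α ι : Type*} [Fintype ι] (O : Finset α) (Q : ι → Prop)
    (R : α → ι → Prop) (i1 : DecidablePred Q) (i2 : ∀ s, DecidablePred (fun p => Q p ∧ R s p))
    (i3 : ∀ p, DecidablePred (fun s => R s p)) :
    ∑ s ∈ O, (@Finset.filter ι (fun p => Q p ∧ R s p) (i2 s) univ).card =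
      ∑ p ∈ @Finset.filter ι Q i1 univ, (@Finset.filter α (fun s => R s p) (i3 p) O).card := by
  refine Eq.trans ?_ ((average_swap O Q R).trans ?_)
  · exact Finset.sum_congr rfl (fun s _ => congrArg Finset.card
      (by ext x; simp only [Finset.mem_filter]))
  · refine Finset.sum_congr (by ext x; simp only [Finset.mem_filter]) (fun p _ => ?_)
    exact congrArg Finset.card (by ext x; simp only [Finset.mem_filter])

private theorem avA_1 {ι : Type*} [Fintype ι] (C : ι → Prop)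
    (i1 : DecidablePred (fun p : ι × ι => p.1 ≠ p.2 ∧ (C p.1 ∧ ¬ C p.2)))
    (i2 : DecidablePred C) (i3 : DecidablePred (fun j => ¬ C j)) :
    (@Finset.filter (ι × ι) (fun p => p.1 ≠ p.2 ∧ (C p.1 ∧ ¬ C p.2)) i1 univ).card =
      (@Finset.filter ι C i2 univ).card * (@Finset.filter ι (fun j => ¬ C j) i3 univ).card := by
  refine Eq.trans ?_ ((average_one C).trans ?_)
  · exact congrArg Finset.card (by ext x; simp only [Finset.mem_filter])
  · exact congrArg₂ (· * ·) (congrArg Finset.card (by ext x; simp only [Finset.mem_filter]))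
      (congrArg Finset.card (by ext x; simp only [Finset.mem_filter]))

private theorem avA_2 {ι : Type*} [Fintype ι] (C : ι → Prop)
    (i1 : DecidablePred (fun p : ι × ι => p.1 ≠ p.2 ∧ (¬ C p.1 ∧ C p.2)))
    (i2 : DecidablePred C) (i3 : DecidablePred (fun j => ¬ C j)) :
    (@Finset.filter (ι × ι) (fun p => p.1 ≠ p.2 ∧ (¬ C p.1 ∧ C p.2)) i1 univ).card =
      (@Finset.filter ι C i2 univ).card * (@Finset.filter ι (fun j => ¬ C j) i3 univ).card := by
  refine Eq.trans ?_ ((average_two C).trans ?_)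
  · exact congrArg Finset.card (by ext x; simp only [Finset.mem_filter])
  · exact congrArg₂ (· * ·) (congrArg Finset.card (by ext x; simp only [Finset.mem_filter]))
      (congrArg Finset.card (by ext x; simp only [Finset.mem_filter]))

theorem sum_nu {O : Finset (St V m)} (hS : SysP A m O) :
    ∑ s ∈ O, nu A s ≤ m * ∑ s ∈ O, nb A s := by
  have h1 : ∑ s ∈ O, nu A s =
      ∑ p ∈ (univ : Finset (Fin m × Fin m)).filter (fun p => p.1 ≠ p.2),
      (O.filter (fun s => Cln A s p.1 ∧ Cln A s p.2 ∧ ¬ Jnd A s p.1 p.2)).card := by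
    exact avA_swap (ι := Fin m × Fin m) O (fun p => p.1 ≠ p.2)
      (fun s p => Cln A s p.1 ∧ Cln A s p.2 ∧ ¬ Jnd A s p.1 p.2) _ _ _
  have h2 : ∑ s ∈ O, ((univ : Finset (Fin m × Fin m)).filter (fun p => p.1 ≠ p.2 ∧
      (Cln A s p.1 ∧ ¬ Cln A s p.2))).card =
      ∑ p ∈ (univ : Finset (Fin m × Fin m)).filter (fun p => p.1 ≠ p.2),
      (O.filter (fun s => Cln A s p.1 ∧ ¬ Cln A s p.2)).card := by
    exact avA_swap (ι := Fin m × Fin m) O (fun p => p.1 ≠ p.2)
      (fun s p => Cln A s p.1 ∧ ¬ Cln A s p.2) _ _ _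
  have h3 : ∑ s ∈ O, ((univ : Finset (Fin m × Fin m)).filter (fun p => p.1 ≠ p.2 ∧
      (¬ Cln A s p.1 ∧ Cln A s p.2))).card =
      ∑ p ∈ (univ : Finset (Fin m × Fin m)).filter (fun p => p.1 ≠ p.2),
      (O.filter (fun s => ¬ Cln A s p.1 ∧ Cln A s p.2)).card := by
    exact avA_swap (ι := Fin m × Fin m) O (fun p => p.1 ≠ p.2)
      (fun s p => ¬ Cln A s p.1 ∧ Cln A s p.2) _ _ _
  have h4 : 2 * ∑ p ∈ (univ : Finset (Fin m × Fin m)).filter (fun p => p.1 ≠ p.2),
      (O.filter (fun s => Cln A s p.1 ∧ Cln A s p.2 ∧ ¬ Jnd A s p.1 p.2)).card ≤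
      ∑ p ∈ (univ : Finset (Fin m × Fin m)).filter (fun p => p.1 ≠ p.2),
        (O.filter (fun s => Cln A s p.1 ∧ ¬ Cln A s p.2)).card +
      ∑ p ∈ (univ : Finset (Fin m × Fin m)).filter (fun p => p.1 ≠ p.2),
        (O.filter (fun s => ¬ Cln A s p.1 ∧ Cln A s p.2)).card := by
    rw [Finset.mul_sum, ← Finset.sum_add_distrib]
    refine Finset.sum_le_sum (fun p hp => ?_)
    exact pairP hS (Finset.mem_filter.mp hp).2
  rw [← h1, ← h2, ← h3] at h4
  have hle : ∀ s : St V m, (univ.filter (fun j => Cln A s j)).card ≤ m := by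
    intro s
    refine (Finset.card_le_univ _).trans ?_
    rw [Fintype.card_fin]
  have h5 : ∀ s ∈ O, ((univ : Finset (Fin m × Fin m)).filter
      (fun p => p.1 ≠ p.2 ∧ (Cln A s p.1 ∧ ¬ Cln A s p.2))).card ≤ m * nb A s := by
    intro s _
    refine le_trans (le_of_eq ?_) (Nat.mul_le_mul_right (nb A s) (hle s))
    exact avA_1 (ι := Fin m) (fun j => Cln A s j) _ _ _
  have h6 : ∀ s ∈ O, ((univ : Finset (Fin m × Fin m)).filter
      (fun p => p.1 ≠ p.2 ∧ (¬ Cln A s p.1 ∧ Cln A s p.2))).card ≤ m * nb A s := by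
    intro s _
    refine le_trans (le_of_eq ?_) (Nat.mul_le_mul_right (nb A s) (hle s))
    exact avA_2 (ι := Fin m) (fun j => Cln A s j) _ _ _
  have h7 := Finset.sum_le_sum h5
  have h8 := Finset.sum_le_sum h6
  rw [← Finset.mul_sum] at h7 h8
  omega

private theorem avA_inv {O : Finset (St V m)} (hS : SysP A m O) {i : Fin m} {s : St V m}
    (hs : s ∈ O) (hc : Cln A s i) {z : V} (hz : z ∈ T A s i) :
    s.1 ∈ T A (sw s i z) i ∧ sw (sw s i z) i s.1 = s := by
  have hn := hS.norm s hs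
  have hzP : z ∈ P s i := (Finset.mem_filter.1 hz).1
  have hzn : z ≠ s.1 := by
    have := (Finset.mem_filter.1 hzP).2
    exact this.1
  refine ⟨?_, ?_⟩
  · refine Finset.mem_filter.2 ⟨?_, ?_⟩
    · rw [P_sw_self hn hzP]
      exact Finset.mem_insert_self _ _
    · rw [vB_sw_fst]
      exact cln_bic hS.loop hn hc z (Finset.mem_insert_of_mem hz) s.1
        (Finset.mem_insert_self _ _) hzn
  · have h1 : place (sw s i z) i = place s i := place_sw hn (Finset.mem_insert_of_mem hzP)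
    have h2 := sw_token hn i
    rw [sw] at h2 ⊢
    rw [h1]
    exact h2

private theorem avA_one {O : Finset (St V m)} (hS : SysP A m O) (i : Fin m) :
    ∑ s ∈ O.filter (fun s => Cln A s i), ∑ z ∈ T A s i, nb A (sw s i z) =
      ∑ s ∈ O.filter (fun s => Cln A s i), ∑ z ∈ T A s i, nb A s := by
  rw [Finset.sum_sigma', Finset.sum_sigma']
  refine Finset.sum_bij' (fun x _ => (⟨sw x.1 i x.2, x.1.1⟩ : Sigma fun _ : St V m => V))
    (fun x _ => (⟨sw x.1 i x.2, x.1.1⟩ : Sigma fun _ : St V m => V)) ?_ ?_ ?_ ?_ ?_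
  · rintro ⟨s, z⟩ hx
    simp only [Finset.mem_sigma, Finset.mem_filter] at hx ⊢
    obtain ⟨⟨hs, hc⟩, hz⟩ := hx
    exact ⟨hS.swap s hs i hc z hz, (avA_inv hS hs hc hz).1⟩
  · rintro ⟨s, z⟩ hx
    simp only [Finset.mem_sigma, Finset.mem_filter] at hx ⊢
    obtain ⟨⟨hs, hc⟩, hz⟩ := hx
    exact ⟨hS.swap s hs i hc z hz, (avA_inv hS hs hc hz).1⟩
  · rintro ⟨s, z⟩ hx
    simp only [Finset.mem_sigma, Finset.mem_filter] at hx
    obtain ⟨⟨hs, hc⟩, hz⟩ := hx
    simp only [(avA_inv hS hs hc hz).2]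
    rfl
  · rintro ⟨s, z⟩ hx
    simp only [Finset.mem_sigma, Finset.mem_filter] at hx
    obtain ⟨⟨hs, hc⟩, hz⟩ := hx
    simp only [(avA_inv hS hs hc hz).2]
    rfl
  · rintro ⟨s, z⟩ hx
    rfl

theorem sum_nd {O : Finset (St V m)} (hS : SysP A m O) :
    ∑ s ∈ O, nd A s ≤ 3 * m * ∑ s ∈ O, nb A s := by
  have h1 : ∑ s ∈ O, nd A s = ∑ i : Fin m, ∑ s ∈ O.filter (fun s => Cln A s i),
      ∑ z ∈ T A s i, nb A (sw s i z) := by
    unfold nd
    simp_rw [Finset.sum_filter]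
    rw [Finset.sum_comm]
  rw [h1]
  have h2 : ∀ i : Fin m, ∑ s ∈ O.filter (fun s => Cln A s i),
      ∑ z ∈ T A s i, nb A (sw s i z) ≤ 3 * ∑ s ∈ O, nb A s := by
    intro i
    rw [avA_one hS i, Finset.mul_sum]
    have h3 : ∑ s ∈ O.filter (fun s => Cln A s i), ∑ z ∈ T A s i, nb A s =
        ∑ s ∈ O.filter (fun s => Cln A s i), 3 * nb A s := by
      refine Finset.sum_congr rfl (fun s hs => ?_)
      obtain ⟨hs, hc⟩ := Finset.mem_filter.1 hs
      rw [Finset.sum_const, cln_card hS.loop (hS.norm s hs) hc, smul_eq_mul]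
    rw [h3]
    exact Finset.sum_le_sum_of_subset (Finset.filter_subset _ _)
  calc ∑ i : Fin m, ∑ s ∈ O.filter (fun s => Cln A s i), ∑ z ∈ T A s i, nb A (sw s i z)
      ≤ ∑ _i : Fin m, 3 * ∑ s ∈ O, nb A s := Finset.sum_le_sum (fun i _ => h2 i)
    _ = 3 * m * ∑ s ∈ O, nb A s := by
      rw [Finset.sum_const, Finset.card_univ, Fintype.card_fin, smul_eq_mul]
      ring

end Pool.Agent.DBP
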