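import Pool.Agent.DBP.AvA

/-! # DBP: the choice of the state

Otherwise sum over `O`: `(465 m + 1) |O| ≤ 3 m ∑ nb + 6 ∑ nu + 2 ∑ nd ≤ (3 + 6 + 6) m ∑ nb ≤ 465 m |O|`.
-/

namespace Pool.Agent.DBP

open Finset Pool.Agent.DBK
open scoped Classical

variable {V : Type*} [Fintype V] {m : ℕ} {A : V → V → Prop}


theorem select {O : Finset (St V m)} (hS : SysP A m O) (hO : O.Nonempty)
    (havg : ∑ s ∈ O, nb A s ≤ 31 * O.card) :
    ∃ s ∈ O, 3 * m * nb A s + 6 * nu A s + 2 * nd A s ≤ 465 * m := by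
  by_contra hcon
  push Not at hcon
  have h1 := Finset.sum_lt_sum_of_nonempty hO hcon
  rw [Finset.sum_const, smul_eq_mul, Finset.sum_add_distrib, Finset.sum_add_distrib,
    ← Finset.mul_sum, ← Finset.mul_sum, ← Finset.mul_sum] at h1
  have h2 := sum_nu hS
  have h3 := sum_nd hS
  have h4 := Nat.mul_le_mul_left (15 * m) havg
  have h5 : 3 * m * ∑ s ∈ O, nb A s + 6 * ∑ s ∈ O, nu A s + 2 * ∑ s ∈ O, nd A s ≤
      15 * m * ∑ s ∈ O, nb A s := by
    have : 15 * m * ∑ s ∈ O, nb A s = 3 * m * (∑ s ∈ O, nb A s) + 6 * (m * ∑ s ∈ O, nb A s) +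
        2 * (3 * m * ∑ s ∈ O, nb A s) := by ring
    omega
  have h6 : 15 * m * (31 * O.card) = O.card * (465 * m) := by ring
  omega

end Pool.Agent.DBP
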