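import Pool.Agent.DBP.CyA

/-! # DBP: thick cycles with a chord

Let `w1 i = w (i % (b+1))` (length `b + 1`) and `w2 i = w (b + i % (N-b+1))` (length `N - b + 1`, from `w b` to `w N = w 0`); both are
cycles (`cy_mk`), and both are shorter. If one of them is `Bid`, then `w 0`, `w b` is a digon, which is consecutive on the other one, so the other one is
`Bid` too (`not_dirF`), and `Bid A w`. Otherwise both are directed. Say `DirF A w1` (the other case is the same for the reversed relation):
`w 0 → w 1 → ... → w b → w 0`. Then `w2` is not `DirF A` (it would give `w 0 → w b`, a consecutive digon of `w1`), so it is reversed: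
`w (N-1) → ... → w b`, `w 0 → w (N-1)`. `w 1` has a second out-neighbour `w c` on the cycle (`hO`), `w c ≠ w 2`; `w c` is not on `w1`
(`DirF A w1`), so `b < c < N`. The cycle `w c, w (c+1), ..., w N = w 0, w 1` (length `N - c + 2 < N`, closed by the arc between `w 1` and `w c`) contains
`w 0` with two out-neighbours `w 1`, `w (N-1)` on it; so it is not directed (in either direction), and it is not `Bid` because `w 0`, `w 1` is not a
digon. This contradicts `IH`.
-/

namespace Pool.Agent.DBP

open Finset Pool.Agent.DBK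
open scoped Classical

variable {V : Type*} {A : V → V → Prop}

private theorem chA_cy1 {A : V → V → Prop} {L : Finset V} {N : ℕ} {w : ℕ → V} (hC : Cy A L N w)
    {b : ℕ} (hb : 2 ≤ b) (hb' : b + 2 ≤ N) (hch : A (w 0) (w b) ∨ A (w b) (w 0)) :
    Cy A L (b + 1) (fun i => w (i % (b + 1))) := by
  refine cy_mk (u := w) (by omega) (fun i j hi hj h => hC.inj i j (by omega) (by omega) h)
    (fun i _ => hC.mem i) (fun i _ => hC.adj i) ?_
  rw [Nat.add_sub_cancel]
  exact hch.symm

private theorem chA_wN {A : V → V → Prop} {L : Finset V} {N : ℕ} {w : ℕ → V} (hC : Cy A L N w) :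
    w N = w 0 := by
  have := hC.per 0
  rwa [Nat.zero_add] at this

private theorem chA_wN1 {A : V → V → Prop} {L : Finset V} {N : ℕ} {w : ℕ → V} (hC : Cy A L N w) :
    w (N + 1) = w 1 := by
  have := hC.per 1
  rwa [Nat.add_comm 1 N] at this

private theorem chA_cy2 {A : V → V → Prop} {L : Finset V} {N : ℕ} {w : ℕ → V} (hC : Cy A L N w)
    {b : ℕ} (hb : 2 ≤ b) (hb' : b + 2 ≤ N) (hch : A (w 0) (w b) ∨ A (w b) (w 0)) :
    Cy A L (N - b + 1) (fun i => w (b + i % (N - b + 1))) := by
  refine cy_mk (u := fun i => w (b + i)) (by omega) ?_ (fun i _ => hC.mem _)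
    (fun i _ => hC.adj _) ?_
  · intro i j hi hj h
    have h1 : w (b + i) = w (b + j) := h
    rw [cy_eq_iff hC] at h1
    have e : ∀ k, k < N - b + 1 → (b + k) % N = if b + k = N then 0 else b + k := by
      intro k hk
      split_ifs with h2
      · rw [h2, Nat.mod_self]
      · exact Nat.mod_eq_of_lt (by omega)
    rw [e i hi, e j hj] at h1
    split_ifs at h1 <;> omega
  · have h1 : b + (N - b + 1 - 1) = N := by omega
    change A (w (b + (N - b + 1 - 1))) (w (b + 0)) ∨ A (w (b + 0)) (w (b + (N - b + 1 - 1)))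
    rw [h1, chA_wN hC, Nat.add_zero]
    exact hch

private theorem chA_core {A : V → V → Prop} {L : Finset V} {N : ℕ}
    (IH : ∀ N' < N, ∀ w', Cy A L N' w' → DirF A w' ∨ DirF (fun a b => A b a) w' ∨ Bid A w')
    {w : ℕ → V} (hC : Cy A L N w) (hO : ∀ i j, A (w i) (w j) → ∃ k, A (w i) (w k) ∧ w k ≠ w j)
    {b : ℕ} (hb : 2 ≤ b) (hb' : b + 2 ≤ N)
    (hd1 : DirF A (fun i => w (i % (b + 1))))
    (hd2 : DirF A (fun i => w (b + i % (N - b + 1))) ∨
      DirF (fun a c => A c a) (fun i => w (b + i % (N - b + 1)))) : False := by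
  have e1 : ∀ i, i ≤ b → w (i % (b + 1)) = w i := by
    intro i hi
    rw [Nat.mod_eq_of_lt (by omega)]
  have e1' : w ((b + 1) % (b + 1)) = w 0 := by rw [Nat.mod_self]
  have e2 : ∀ i, i ≤ N - b → w (b + i % (N - b + 1)) = w (b + i) := by
    intro i hi
    rw [Nat.mod_eq_of_lt (by omega)]
  have e2' : w (b + (N - b + 1) % (N - b + 1)) = w b := by rw [Nat.mod_self, Nat.add_zero]
  -- the arc `w b → w 0`
  have hb0 : A (w b) (w 0) := by
    have := hd1.1 b
    simp only [e1 b le_rfl, e1'] at this
    exact this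
  have h01 : A (w 0) (w 1) := by
    have := hd1.1 0
    simp only [e1 0 (Nat.zero_le _), Nat.zero_add, e1 1 (by omega)] at this
    exact this
  have h12 : A (w 1) (w 2) := by
    have := hd1.1 1
    simp only [e1 1 (by omega), e1 2 hb] at this
    exact this
  have hcy1 := chA_cy1 hC hb hb' (Or.inr hb0)
  have hn10 : ¬ A (w 1) (w 0) := by
    intro h
    refine (not_dirF hcy1 (i := 0) ?_ ?_).1 hd1
    · simp only [e1 0 (Nat.zero_le _), Nat.zero_add, e1 1 (by omega)]
      exact h01
    · simp only [e1 0 (Nat.zero_le _), Nat.zero_add, e1 1 (by omega)]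
      exact h
  have hn0b : ¬ A (w 0) (w b) := by
    intro h
    refine (not_dirF hcy1 (i := b) ?_ ?_).1 hd1
    · simp only [e1 b le_rfl, e1']
      exact hb0
    · simp only [e1 b le_rfl, e1']
      exact h
  -- the second cycle is reversed
  have hN : w N = w 0 := chA_wN hC
  have hr : A (w 0) (w (N - 1)) := by
    rcases hd2 with h | h
    · exfalso
      have h1 := h.1 (N - b)
      simp only [e2 (N - b) le_rfl, e2'] at h1
      rw [Nat.add_sub_cancel' (by omega : b ≤ N), hN] at h1
      exact hn0b h1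
    · have h1 := h.1 (N - b - 1)
      simp only at h1
      rw [e2 (N - b - 1) (by omega), show N - b - 1 + 1 = N - b by omega, e2 (N - b) le_rfl,
        show b + (N - b) = N by omega, show b + (N - b - 1) = N - 1 by omega, hN] at h1
      exact h1
  -- the second out-neighbour of `w 1`
  obtain ⟨k, hk1, hk2⟩ := hO 1 2 h12
  set c := k % N with hc
  have hNpos : 0 < N := by omega
  have hcN : c < N := Nat.mod_lt _ hNpos
  have hwc : w k = w c := by rw [cy_eq_iff hC, hc, Nat.mod_mod]
  rw [hwc] at hk1 hk2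
  have hbc : b < c := by
    by_contra hcb
    push Not at hcb
    have h1 := hd1.2 1 c
    simp only [e1 1 (by omega), e1 c hcb] at h1
    have h2 := h1 hk1
    rw [show (1 + 1) % (b + 1) = 2 by rw [Nat.mod_eq_of_lt (by omega)]] at h2
    exact hk2 h2
  -- the third cycle
  have hcy3 : Cy A L (N - c + 2) (fun i => w (c + i % (N - c + 2))) := by
    refine cy_mk (u := fun i => w (c + i)) (by omega) ?_ (fun i _ => hC.mem _)
      (fun i _ => hC.adj _) ?_
    · intro i j hi hj h
      have h1 : w (c + i) = w (c + j) := h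
      rw [cy_eq_iff hC] at h1
      have e : ∀ k, k < N - c + 2 → (c + k) % N = if c + k < N then c + k else c + k - N := by
        intro k hk
        split_ifs with h2
        · exact Nat.mod_eq_of_lt h2
        · rw [Nat.mod_eq_sub_mod (by omega), Nat.mod_eq_of_lt (by omega)]
      rw [e i hi, e j hj] at h1
      split_ifs at h1 <;> omega
    · have h1 : c + (N - c + 2 - 1) = N + 1 := by omega
      change A (w (c + (N - c + 2 - 1))) (w (c + 0)) ∨ A (w (c + 0)) (w (c + (N - c + 2 - 1)))
      rw [h1, chA_wN1 hC, Nat.add_zero]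
      exact Or.inl hk1
  have e3 : ∀ i, i ≤ N - c + 1 → w (c + i % (N - c + 2)) = w (c + i) := by
    intro i hi
    rw [Nat.mod_eq_of_lt (by omega)]
  have f0 : w (c + (N - c)) = w 0 := by rw [show c + (N - c) = N by omega, hN]
  have f1 : w (c + (N - c + 1)) = w 1 := by
    rw [show c + (N - c + 1) = N + 1 by omega, chA_wN1 hC]
  have f2 : w (c + (N - c - 1)) = w (N - 1) := by rw [show c + (N - c - 1) = N - 1 by omega]
  rcases IH (N - c + 2) (by omega) _ hcy3 with h | h | h
  · have h1 := h.2 (N - c) (N - c - 1)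
    simp only [e3 (N - c) (by omega), e3 (N - c - 1) (by omega), e3 (N - c + 1) le_rfl, f0, f1,
      f2] at h1
    have h2 := h1 hr
    rw [cy_eq_iff hC, Nat.mod_eq_of_lt (by omega), Nat.mod_eq_of_lt (by omega)] at h2
    omega
  · have h1 := h.1 (N - c)
    simp only [e3 (N - c) (by omega), e3 (N - c + 1) le_rfl, f0, f1] at h1
    exact hn10 h1
  · have h1 := (h (N - c)).2
    simp only [e3 (N - c) (by omega), e3 (N - c + 1) le_rfl, f0, f1] at h1
    exact hn10 h1

theorem chA {L : Finset V} {N : ℕ} (hl : ∀ v, ¬ A v v)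
    (IH : ∀ N' < N, ∀ w', Cy A L N' w' → DirF A w' ∨ DirF (fun a b => A b a) w' ∨ Bid A w')
    {w : ℕ → V} (hC : Cy A L N w) (hO : ∀ i j, A (w i) (w j) → ∃ k, A (w i) (w k) ∧ w k ≠ w j)
    (hI : ∀ i j, A (w j) (w i) → ∃ k, A (w k) (w i) ∧ w k ≠ w j) {b : ℕ} (hb : 2 ≤ b)
    (hb' : b + 2 ≤ N) (hch : A (w 0) (w b) ∨ A (w b) (w 0)) : Bid A w := by
  have hcy1 := chA_cy1 hC hb hb' hch
  have hcy2 := chA_cy2 hC hb hb' hch
  have e1 : ∀ i, i ≤ b → w (i % (b + 1)) = w i := by
    intro i hi
    rw [Nat.mod_eq_of_lt (by omega)]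
  have e1' : w ((b + 1) % (b + 1)) = w 0 := by rw [Nat.mod_self]
  have e2 : ∀ i, i ≤ N - b → w (b + i % (N - b + 1)) = w (b + i) := by
    intro i hi
    rw [Nat.mod_eq_of_lt (by omega)]
  have e2' : w (b + (N - b + 1) % (N - b + 1)) = w b := by rw [Nat.mod_self, Nat.add_zero]
  have hN : w N = w 0 := chA_wN hC
  have e20 : w (b + (N - b) % (N - b + 1)) = w 0 := by
    rw [e2 (N - b) le_rfl, show b + (N - b) = N by omega, hN]
  -- both `Bid`
  have hboth : Bid A (fun i => w (i % (b + 1))) → Bid A (fun i => w (b + i % (N - b + 1))) →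
      Bid A w := by
    intro h1 h2 i
    have hNpos : 0 < N := by omega
    have hr : i % N < N := Nat.mod_lt _ hNpos
    have g1 : w i = w (i % N) := by rw [cy_eq_iff hC, Nat.mod_mod]
    have g2 : w (i + 1) = w (i % N + 1) := by
      rw [cy_eq_iff hC, Nat.mod_add_mod]
    rw [g1, g2]
    by_cases hrb : i % N < b
    · have h3 := h1 (i % N)
      simp only [e1 (i % N) (by omega), e1 (i % N + 1) (by omega)] at h3
      exact h3
    · have h3 := h2 (i % N - b)
      simp only at h3
      rw [e2 (i % N - b) (by omega), e2 (i % N - b + 1) (by omega),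
        show b + (i % N - b) = i % N by omega,
        show b + (i % N - b + 1) = i % N + 1 by omega] at h3
      exact h3
  have hn2 : (A (w b) (w 0) ∧ A (w 0) (w b)) →
      ¬ DirF A (fun i => w (b + i % (N - b + 1))) ∧
      ¬ DirF (fun a c => A c a) (fun i => w (b + i % (N - b + 1))) := by
    intro h
    refine not_dirF hcy2 (i := N - b) ?_ ?_
    · simp only [e20, e2']
      exact h.2
    · simp only [e20, e2']
      exact h.1
  have hn1 : (A (w b) (w 0) ∧ A (w 0) (w b)) →
      ¬ DirF A (fun i => w (i % (b + 1))) ∧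
      ¬ DirF (fun a c => A c a) (fun i => w (i % (b + 1))) := by
    intro h
    refine not_dirF hcy1 (i := b) ?_ ?_
    · simp only [e1 b le_rfl, e1']
      exact h.1
    · simp only [e1 b le_rfl, e1']
      exact h.2
  rcases IH (b + 1) (by omega) _ hcy1 with h1 | h1 | h1
  · rcases IH (N - b + 1) (by omega) _ hcy2 with h2 | h2 | h2
    · exact (chA_core IH hC hO hb hb' h1 (Or.inl h2)).elim
    · exact (chA_core IH hC hO hb hb' h1 (Or.inr h2)).elim
    · exfalso
      have h3 := h2 (N - b)
      simp only [e20, e2'] at h3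
      exact (hn1 ⟨h3.2, h3.1⟩).1 h1
  · have IH' : ∀ N' < N, ∀ w', Cy (fun a c => A c a) L N' w' → DirF (fun a c => A c a) w' ∨
        DirF (fun a b => (fun a c => A c a) b a) w' ∨ Bid (fun a c => A c a) w' := by
      intro N' hN' w' hw'
      rcases IH N' hN' w' (cy_flip hw') with h | h | h
      · exact Or.inr (Or.inl h)
      · exact Or.inl h
      · exact Or.inr (Or.inr (fun i => ⟨(h i).2, (h i).1⟩))
    rcases IH (N - b + 1) (by omega) _ hcy2 with h2 | h2 | h2
    · exact (chA_core IH' (cy_flip hC) hI hb hb' h1 (Or.inr h2)).elim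
    · exact (chA_core IH' (cy_flip hC) hI hb hb' h1 (Or.inl h2)).elim
    · exfalso
      have h3 := h2 (N - b)
      simp only [e20, e2'] at h3
      exact (hn1 ⟨h3.2, h3.1⟩).2 h1
  · have h3 := h1 b
    simp only [e1 b le_rfl, e1'] at h3
    rcases IH (N - b + 1) (by omega) _ hcy2 with h2 | h2 | h2
    · exact absurd h2 (hn2 h3).1
    · exact absurd h2 (hn2 h3).2
    · exact hboth h1 h2

end Pool.Agent.DBP
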