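import Pool.Agent.DBP.CyA

/-! # DBP: thick cycles without chords

On the cycle, `w (i+1)` is adjacent only to `w i` and `w (i+2)` (`hnc`, `cy_eq_iff`). By `hO`: if `A (w (i+1)) (w i)` or
`A (w (i+1)) (w (i+2))` then both hold; by `hI` the same for in-arcs. There is `e` with `A (w (e+1)) (w (e+2))` and `A (w (e+1)) (w e)` (look at the arc
between `w 1` and `w 2`). So `N` is odd (`hp`). By induction on `t`: `w (e+1+2t)` has out-arcs to both neighbours (its neighbour `w (e+2+2t)` has an
in-arc from it, so it has both in-arcs, so `w (e+3+2t)` has an out-arc to it, so both). Since `N` is odd, every residue is of the form `e + 1 + 2t` modulo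
`N`; so every vertex has out-arcs to both neighbours, which is `Bid A w`.
-/

namespace Pool.Agent.DBP

open Finset Pool.Agent.DBK
open scoped Classical

variable {V : Type*} {A : V → V → Prop}


theorem chB {L : Finset V} {N : ℕ} {w : ℕ → V} (hC : Cy A L N w)
    (hO : ∀ i j, A (w i) (w j) → ∃ k, A (w i) (w k) ∧ w k ≠ w j)
    (hI : ∀ i j, A (w j) (w i) → ∃ k, A (w k) (w i) ∧ w k ≠ w j)
    (hnc : ∀ i j, A (w i) (w j) → w j = w (i + 1) ∨ w i = w (j + 1))
    (hp : ∀ e, A (w (e + 1)) (w (e + 2)) → A (w (e + 1)) (w e) → Odd N) : Bid A w := by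
  have hN3 : 3 ≤ N := hC.N3
  have hsucc : ∀ i k, w (i + 1) = w (k + 1) → w k = w i := by
    intro i k h
    have h2 : (i + 1) % N = (k + 1) % N := (cy_eq_iff hC _ _).1 h
    have h3 : i % N = k % N := Nat.ModEq.add_right_cancel' 1 h2
    exact (cy_eq_iff hC _ _).2 h3.symm
  have F1 : ∀ i, A (w (i + 1)) (w i) → A (w (i + 1)) (w (i + 2)) := by
    intro i h
    obtain ⟨k, hk, hne⟩ := hO (i + 1) i h
    rcases hnc (i + 1) k hk with h1 | h1
    · rw [h1] at hk
      exact hk
    · exact absurd (hsucc i k h1) hne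
  have F2 : ∀ i, A (w (i + 1)) (w (i + 2)) → A (w (i + 1)) (w i) := by
    intro i h
    obtain ⟨k, hk, hne⟩ := hO (i + 1) (i + 2) h
    rcases hnc (i + 1) k hk with h1 | h1
    · exact absurd h1 hne
    · rw [hsucc i k h1] at hk
      exact hk
  have F3 : ∀ i, A (w i) (w (i + 1)) → A (w (i + 2)) (w (i + 1)) := by
    intro i h
    obtain ⟨k, hk, hne⟩ := hI (i + 1) i h
    rcases hnc k (i + 1) hk with h1 | h1
    · exact absurd (hsucc i k h1) hne
    · rw [h1] at hk
      exact hk
  have hstep : ∀ e, A (w (e + 1)) (w (e + 2)) ∧ A (w (e + 1)) (w e) →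
      A (w (e + 2 + 1)) (w (e + 2 + 2)) ∧ A (w (e + 2 + 1)) (w (e + 2)) := by
    intro e h
    have h1 : A (w (e + 1 + 2)) (w (e + 1 + 1)) := F3 (e + 1) h.1
    have h2 : A (w (e + 2 + 1)) (w (e + 2)) := h1
    exact ⟨F1 (e + 2) h2, h2⟩
  have hex : ∃ e, A (w (e + 1)) (w (e + 2)) ∧ A (w (e + 1)) (w e) := by
    rcases hC.adj 1 with h | h
    · exact ⟨0, h, F2 0 h⟩
    · exact ⟨1, F1 1 h, h⟩
  obtain ⟨e, he⟩ := hex
  have hodd : Odd N := hp e he.1 he.2
  have hall : ∀ t, A (w (e + 2 * t + 1)) (w (e + 2 * t + 2)) ∧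
      A (w (e + 2 * t + 1)) (w (e + 2 * t)) := by
    intro t
    induction t with
    | zero => exact he
    | succ t ih => exact hstep _ ih
  have hN : ∀ i c, w (i + c * N) = w i := fun i c =>
    (cy_eq_iff hC _ _).2 (Nat.add_mul_mod_self_right _ _ _)
  have hfin : ∀ i, A (w (i + 1)) (w (i + 2)) ∧ A (w (i + 1)) (w i) := by
    intro i
    have hc : ∃ c t, i + c * N = e + 2 * t := by
      obtain ⟨q, hq⟩ := hodd
      have hle : ∀ c, e ≤ c → e ≤ i + c * N := by
        intro c hc
        have := Nat.le_mul_of_pos_right c (show 0 < N by omega)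
        omega
      have h0 := hle e le_rfl
      rcases Nat.even_or_odd (i + e * N - e) with h | h
      · obtain ⟨t, ht⟩ := h
        exact ⟨e, t, by omega⟩
      · obtain ⟨t, ht⟩ := h
        refine ⟨e + 1, t + q + 1, ?_⟩
        have : (e + 1) * N = e * N + N := by ring
        omega
    obtain ⟨c, t, hct⟩ := hc
    have h1 := hall t
    rw [← hct] at h1
    have e1 : i + c * N + 1 = (i + 1) + c * N := by ring
    have e2 : i + c * N + 2 = (i + 2) + c * N := by ring
    rw [e1, e2, hN, hN, hN] at h1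
    exact h1
  intro i
  refine ⟨?_, (hfin i).2⟩
  have h1 := (hfin (i + N - 1)).1
  have e1 : i + N - 1 + 1 = i + N := by omega
  have e2 : i + N - 1 + 2 = (i + 1) + N := by omega
  rw [e1, e2, hC.per, hC.per] at h1
  exact h1

end Pool.Agent.DBP
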