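import Pool.Agent.DBP.FwdA
import Pool.Agent.DBK.Brooks3

/-! # DBP: closed sets of tokens are bicliques of order four

`R` is not `Col A 3`: otherwise, with `y ∈ R`, `G \ R ⊆ G.erase y` is `Col A 3` (`h.tok`, `tok_col`) and there is no arc from `R` to
`G \ R`, so `G` would be `Col A 3` (`col_union`). `R.erase y ⊆ G.erase y` is `Col A 3` for `y ∈ R`. `outd A y R = outd A y G = 3`. The in-degrees in `R`
are at least three (`ind_ge`) and their sum is the sum of the out-degrees `3 |R|`, so they are three. So `Crit3 A R`, and `brooks3` applies. `W = R`: `R ⊆ L0 ⊆ W`; if `y ∈ W` is not in `R` then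
`R ⊆ G.erase y`, which is `Col A 3`, a contradiction.
-/

namespace Pool.Agent.DBP

open Finset Pool.Agent.DBK
open scoped Classical

variable {V : Type*} {A : V → V → Prop}


private theorem cc_sum (R : Finset V) : ∑ y ∈ R, ind A y R = ∑ y ∈ R, outd A y R := by
  unfold ind outd
  simp_rw [Finset.card_filter]
  rw [Finset.sum_comm]

theorem closed_club {G W L0 R : Finset V} (h : Loc A G W L0) (hR : R ⊆ L0) (hne : R.Nonempty)
    (hcl : ∀ u ∈ R, ∀ v ∈ G, A u v → v ∈ R) :
    R.card = 4 ∧ (∀ u ∈ R, ∀ v ∈ R, u ≠ v → A u v) ∧ W = R := by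
  have hRW : R ⊆ W := hR.trans h.L0W
  have hRG : R ⊆ G := hRW.trans h.WG
  have hout : ∀ y ∈ R, outd A y R = 3 := by
    intro y hy
    rw [← h.out3 y (hR hy)]
    unfold outd
    congr 1
    ext v
    rw [Finset.mem_filter, Finset.mem_filter]
    constructor
    · rintro ⟨h1, h2⟩
      exact ⟨hRG h1, h2⟩
    · rintro ⟨h1, h2⟩
      exact ⟨hcl y hy v h1 h2, h2⟩
  have hcr : ∀ y ∈ W, Col A 3 (G.erase y) := by
    intro y hy
    obtain ⟨φ, hφ⟩ := h.tok y hy
    exact tok_col hφ
  have hnc : ¬ Col A 3 R := by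
    intro hc
    obtain ⟨y, hy⟩ := hne
    apply h.nc
    have h1 : Col A 3 (G \ R) := by
      refine col_mono (hcr y (hRW hy)) ?_
      intro v hv
      rw [Finset.mem_sdiff] at hv
      rw [Finset.mem_erase]
      refine ⟨?_, hv.1⟩
      rintro rfl
      exact hv.2 hy
    have h2 : Col A 3 ((G \ R) ∪ R) := by
      refine col_union h1 hc Finset.sdiff_disjoint ?_
      intro u hu v hv huv
      rw [Finset.mem_sdiff] at hv
      exact hv.2 (hcl u hu v hv.1 huv)
    rwa [Finset.sdiff_union_of_subset hRG] at h2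
  have hcrR : ∀ y ∈ R, Col A 3 (R.erase y) := by
    intro y hy
    exact col_mono (hcr y (hRW hy)) (Finset.erase_subset_erase y hRG)
  have hin : ∀ y ∈ R, 3 ≤ ind A y R := by
    intro y hy
    have h1 := ind_ge (Finset.notMem_erase y R) (h.loop y) (hcrR y hy)
      (by rw [Finset.insert_erase hy]; exact hnc)
    refine h1.trans ?_
    unfold ind
    exact Finset.card_le_card (Finset.filter_subset_filter _ (Finset.erase_subset _ _))
  have hin3 : ∀ y ∈ R, ind A y R = 3 := by
    have hs : ∑ y ∈ R, ind A y R = ∑ y ∈ R, 3 := by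
      rw [cc_sum]
      exact Finset.sum_congr rfl hout
    have h2 := (Finset.sum_eq_sum_iff_of_le (fun y hy => hin y hy)).1 hs.symm
    intro y hy
    exact (h2 y hy).symm
  have hC : Crit3 A R := ⟨h.loop, hout, hin3, hnc, hcrR⟩
  obtain ⟨h4, hb⟩ := brooks3 hC
  refine ⟨h4, hb, ?_⟩
  refine subset_antisymm ?_ hRW
  intro y hy
  by_contra hyR
  apply hnc
  refine col_mono (hcr y hy) ?_
  intro v hv
  rw [Finset.mem_erase]
  refine ⟨?_, hRG hv⟩
  rintro rfl
  exact hyR hv

end Pool.Agent.DBP
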