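import Pool.Agent.DBP.FwdA

/-! # DBP: counting colourings and backward moves

The map `F f = Function.update (Function.update f y (f y')) y' 0` sends `cols A (G.erase y)` to
`cols A (G.erase y')` (`fwd_move`) and is injective on it (`f y = 0`, and `f y'` is the new value at `y`). This gives `cnt_le`. If the
cardinalities are equal, it is onto (`Finset.surj_on_of_inj_on_of_card_le`): the normalised version `f'` of `φ` is `F f`, and
`Function.update φ y' (φ y)` agrees with `f` on `G.erase y`.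
-/

namespace Pool.Agent.DBP

open Finset Pool.Agent.DBK
open scoped Classical

variable {V : Type*} [Fintype V] {A : V → V → Prop}

theorem mem_cols {S : Finset V} {f : V → Fin 3} : f ∈ cols A S ↔
    (∀ v, v ∉ S → f v = 0) ∧ ∀ i, AcyclicOn A {v | v ∈ S ∧ f v = i} := by
  unfold cols
  rw [Finset.mem_filter]
  exact ⟨fun h => h.2, fun h => ⟨Finset.mem_univ _, h⟩⟩

theorem cols_nat {S : Finset V} {f : V → Fin 3} (h : f ∈ cols A S) (i : ℕ) :
    AcyclicOn A {v | v ∈ S ∧ (f v : ℕ) = i} := by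
  by_cases hi : i < 3
  · refine acy_mono ((mem_cols.1 h).2 ⟨i, hi⟩) ?_
    intro v hv
    exact ⟨hv.1, Fin.ext hv.2⟩
  · refine acy_mono (acy_empty (A := A)) ?_
    intro v hv
    exact absurd (hv.2 ▸ (f v).isLt) hi

/-- the normalised version of a colouring -/
theorem cols_norm {S : Finset V} {φ : V → ℕ} (h1 : ∀ v ∈ S, φ v < 3)
    (h2 : ∀ i, AcyclicOn A {v | v ∈ S ∧ φ v = i}) :
    ∃ f ∈ cols A S, ∀ v ∈ S, ((f v : Fin 3) : ℕ) = φ v := by
  have hval : ∀ v ∈ S, (((if v ∈ S then ⟨φ v % 3, Nat.mod_lt _ (by norm_num)⟩ else 0 : Fin 3)) : ℕ)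
      = φ v := by
    intro v hv
    rw [if_pos hv]
    exact Nat.mod_eq_of_lt (h1 v hv)
  refine ⟨fun v => if v ∈ S then ⟨φ v % 3, Nat.mod_lt _ (by norm_num)⟩ else 0, ?_, hval⟩
  rw [mem_cols]
  refine ⟨fun v hv => if_neg hv, fun i => ?_⟩
  refine acy_mono (h2 (i : ℕ)) ?_
  intro v hv
  refine ⟨hv.1, ?_⟩
  rw [← hval v hv.1]
  exact congrArg Fin.val hv.2

theorem cols_pos {S : Finset V} : 0 < (cols A S).card ↔ Col A 3 S := by
  rw [Finset.card_pos]
  constructor
  · rintro ⟨f, hf⟩
    exact ⟨fun v => (f v : ℕ), fun v _ => (f v).isLt, fun i => cols_nat hf i⟩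
  · rintro ⟨φ, h1, h2⟩
    obtain ⟨f, hf, _⟩ := cols_norm h1 h2
    exact ⟨f, hf⟩

theorem tok_of_cols {G : Finset V} {y : V} (hy : y ∈ G) {φ : V → Fin 3}
    (h : φ ∈ cols A (G.erase y)) : Tok A G y (fun v => (φ v : ℕ)) := by
  refine ⟨hy, fun v _ _ => (φ v).isLt, fun i => ?_⟩
  refine acy_mono (cols_nat h i) ?_
  intro v hv
  exact ⟨Finset.mem_erase.2 ⟨hv.2.1, hv.1⟩, hv.2.2⟩

theorem cols_of_tok {G : Finset V} {y : V} {φ : V → ℕ} (h : Tok A G y φ) :
    ∃ f ∈ cols A (G.erase y), ∀ v ∈ G.erase y, ((f v : Fin 3) : ℕ) = φ v := by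
  refine cols_norm (fun v hv => h.2.1 v (Finset.mem_of_mem_erase hv) (Finset.ne_of_mem_erase hv))
    (fun i => ?_)
  refine acy_mono (h.2.2 i) ?_
  intro v hv
  exact ⟨Finset.mem_of_mem_erase hv.1, Finset.ne_of_mem_erase hv.1, hv.2⟩

omit [Fintype V] in
theorem tok_congr {G : Finset V} {y : V} {φ ψ : V → ℕ} (h : Tok A G y φ)
    (e : ∀ v ∈ G, v ≠ y → ψ v = φ v) : Tok A G y ψ := by
  refine ⟨h.1, fun v hv hvy => by rw [e v hv hvy]; exact h.2.1 v hv hvy, fun i => ?_⟩
  refine acy_mono (h.2.2 i) ?_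
  intro v hv
  exact ⟨hv.1, hv.2.1, by rw [← e v hv.1 hv.2.1]; exact hv.2.2⟩

/-- the move on normalised colourings -/
noncomputable def mv (y y' : V) (f : V → Fin 3) : V → Fin 3 :=
  Function.update (Function.update f y (f y')) y' 0

omit [Fintype V] in
theorem mv_self {y y' : V} (f : V → Fin 3) : mv y y' f y' = 0 := by
  unfold mv; rw [Function.update_self]

omit [Fintype V] in
theorem mv_left {y y' : V} (h : y ≠ y') (f : V → Fin 3) : mv y y' f y = f y' := by
  unfold mv; rw [Function.update_of_ne h, Function.update_self]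

omit [Fintype V] in
theorem mv_other {y y' v : V} (h : v ≠ y) (h' : v ≠ y') (f : V → Fin 3) : mv y y' f v = f v := by
  unfold mv; rw [Function.update_of_ne h', Function.update_of_ne h]

theorem mv_mem {G : Finset V} (hl : ∀ v, ¬ A v v) (nc : ¬ Col A 3 G) {y y' : V} (hy : y ∈ G)
    (hy' : y' ∈ G) (hA : A y y') (h3 : outd A y G = 3) {f : V → Fin 3}
    (hf : f ∈ cols A (G.erase y)) : mv y y' f ∈ cols A (G.erase y') := by
  have hne : y ≠ y' := by rintro rfl; exact hl _ hA
  have ht := fwd_move (hl y) nc (tok_of_cols hy hf) h3 hy' hA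
  rw [mem_cols]
  constructor
  · intro v hv
    by_cases hv' : v = y'
    · subst hv'; exact mv_self f
    · have hvG : v ∉ G := fun hc => hv (Finset.mem_erase.2 ⟨hv', hc⟩)
      have hvy : v ≠ y := by rintro rfl; exact hvG hy
      rw [mv_other hvy hv']
      exact (mem_cols.1 hf).1 v (fun hc => hvG (Finset.mem_of_mem_erase hc))
  · intro i
    refine acy_mono (ht.2.2 (i : ℕ)) ?_
    intro v hv
    have hvy' : v ≠ y' := Finset.ne_of_mem_erase hv.1
    refine ⟨Finset.mem_of_mem_erase hv.1, hvy', ?_⟩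
    by_cases hvy : v = y
    · subst hvy
      rw [Function.update_self]
      have := hv.2
      rw [mv_left hne] at this
      exact congrArg Fin.val this
    · rw [Function.update_of_ne hvy]
      have := hv.2
      rw [mv_other hvy hvy'] at this
      exact congrArg Fin.val this

theorem mv_inj {G : Finset V} (hl : ∀ v, ¬ A v v) {y y' : V} (hA : A y y')
    {f g : V → Fin 3} (hf : f ∈ cols A (G.erase y)) (hg : g ∈ cols A (G.erase y))
    (e : mv y y' f = mv y y' g) : f = g := by
  have hne : y ≠ y' := by rintro rfl; exact hl _ hA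
  funext v
  by_cases hvy : v = y
  · subst hvy
    rw [(mem_cols.1 hf).1 v (Finset.notMem_erase v G), (mem_cols.1 hg).1 v (Finset.notMem_erase v G)]
  · by_cases hvy' : v = y'
    · subst hvy'
      have := congrFun e y
      rwa [mv_left hne, mv_left hne] at this
    · have := congrFun e v
      rwa [mv_other hvy hvy', mv_other hvy hvy'] at this

theorem cnt_le {G : Finset V} (hl : ∀ v, ¬ A v v) (nc : ¬ Col A 3 G) {y y' : V} (hy : y ∈ G)
    (hy' : y' ∈ G) (hA : A y y') (h3 : outd A y G = 3) :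
    (cols A (G.erase y)).card ≤ (cols A (G.erase y')).card := by
  refine Finset.card_le_card_of_injOn (mv y y') ?_ ?_
  · intro f hf
    exact mv_mem hl nc hy hy' hA h3 hf
  · intro f hf g hg e
    exact mv_inj hl hA hf hg e

theorem cnt_bwd {G : Finset V} (hl : ∀ v, ¬ A v v) (nc : ¬ Col A 3 G) {y y' : V} (hy : y ∈ G)
    (hy' : y' ∈ G) (hA : A y y') (h3 : outd A y G = 3)
    (hc : (cols A (G.erase y')).card ≤ (cols A (G.erase y)).card) {φ : V → ℕ}
    (h : Tok A G y' φ) : Tok A G y (Function.update φ y' (φ y)) := by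
  have hne : y ≠ y' := by rintro rfl; exact hl _ hA
  obtain ⟨f', hf', he'⟩ := cols_of_tok h
  obtain ⟨f, hf, hfe⟩ := Finset.surj_on_of_inj_on_of_card_le
    (s := cols A (G.erase y)) (t := cols A (G.erase y')) (fun f _ => mv y y' f)
    (fun f hf => mv_mem hl nc hy hy' hA h3 hf)
    (fun f g hf hg e => mv_inj hl hA hf hg e) hc f' hf'
  refine tok_congr (tok_of_cols hy hf) ?_
  intro v hv hvy
  by_cases hvy' : v = y'
  · subst hvy'
    rw [Function.update_self]
    have h1 := congrFun hfe y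
    rw [mv_left hne] at h1
    rw [← h1]
    exact (he' y (Finset.mem_erase.2 ⟨hne, hy⟩)).symm
  · rw [Function.update_of_ne hvy']
    have h1 := congrFun hfe v
    rw [mv_other hvy hvy'] at h1
    rw [← h1]
    exact (he' v (Finset.mem_erase.2 ⟨hvy', hv⟩)).symm

end Pool.Agent.DBP
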