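import Pool.Agent.DBP.DefsP

/-! # DBP: counting tokens

Let `d = (W \ L0).card`, `L = Lf A L0`. Double counting of the arcs from `L0` (all their heads in `G` are in `W`, `h.cl`): `∑ y ∈ W, ind A y L0 = 3 |L0|`, so
`∑ y ∈ W, (3 - ind A y L0) = 3 |W| - 3 |L0| = 3 d`; every `y ∈ L0 \ L` contributes at least one, so `|L0 \ L| ≤ 3 d`. And
`3 |L| = ∑ y ∈ L, ind A y L0 = (arcs from L to L) + (arcs from L0 \ L to L) ≤ (8/3) |L| + 3 |L0 \ L| ≤ (8/3) |L| + 9 d`, so `|L| ≤ 27 d`. Altogether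
`|W| = |L| + |L0 \ L| + d ≤ 31 d`. (`3 |L0 \ L|` because every vertex of `L0` has three out-neighbours in `G`.)
-/

namespace Pool.Agent.DBP

open Finset Pool.Agent.DBK
open scoped Classical

variable {V : Type*} {A : V → V → Prop}

private theorem CntL_dc (A : V → V → Prop) (X Y : Finset V) :
    ∑ v ∈ X, outd A v Y = ∑ y ∈ Y, ind A y X := by
  simp only [outd, ind, Finset.card_filter]
  exact Finset.sum_comm

private theorem CntL_mono (A : V → V → Prop) (v : V) {X Y : Finset V} (h : X ⊆ Y) :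
    outd A v X ≤ outd A v Y :=
  Finset.card_le_card (Finset.filter_subset_filter _ h)

theorem cntL {G W L0 : Finset V} (h : Loc A G W L0) (hin : ∀ y ∈ W, ind A y L0 ≤ 3)
    (he : 3 * (∑ v ∈ Lf A L0, outd A v (Lf A L0)) ≤ 8 * (Lf A L0).card) :
    W.card ≤ 31 * (W \ L0).card := by
  have hLL0 : Lf A L0 ⊆ L0 := Finset.filter_subset _ _
  have hL0W := h.L0W
  -- sizes
  have c1 : W.card = L0.card + (W \ L0).card := by
    rw [Finset.card_sdiff_of_subset hL0W]
    have := Finset.card_le_card hL0W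
    omega
  have c2 : L0.card = (Lf A L0).card + (L0 \ Lf A L0).card := by
    rw [Finset.card_sdiff_of_subset hLL0]
    have := Finset.card_le_card hLL0
    omega
  -- the arcs from L0 to W
  have e1 : ∀ v ∈ L0, outd A v W = 3 := by
    intro v hv
    rw [← h.out3 v hv]
    unfold outd
    congr 1
    ext u
    simp only [Finset.mem_filter]
    exact ⟨fun hu => ⟨h.WG hu.1, hu.2⟩, fun hu => ⟨h.cl v hv u hu.1 hu.2, hu.2⟩⟩
  have e2 : ∑ y ∈ W, ind A y L0 = 3 * L0.card := by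
    rw [← CntL_dc, Finset.sum_congr rfl e1, Finset.sum_const, smul_eq_mul, mul_comm]
  have e3 : ∑ y ∈ W, (ind A y L0 + if y ∈ L0 \ Lf A L0 then 1 else 0) ≤ ∑ _y ∈ W, 3 := by
    refine Finset.sum_le_sum fun y hy => ?_
    split_ifs with hc
    · rw [Finset.mem_sdiff] at hc
      have h1 := hin y hy
      have h2 : ind A y L0 ≠ 3 := fun h3 => hc.2 (Finset.mem_filter.2 ⟨hc.1, h3⟩)
      omega
    · exact hin y hy
  rw [Finset.sum_add_distrib, e2, Finset.sum_const, smul_eq_mul, ← Finset.card_filter] at e3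
  have e4 : (W.filter (fun y => y ∈ L0 \ Lf A L0)).card = (L0 \ Lf A L0).card := by
    congr 1
    ext y
    simp only [Finset.mem_filter, Finset.mem_sdiff]
    exact ⟨fun hy => hy.2, fun hy => ⟨hL0W hy.1, hy⟩⟩
  rw [e4] at e3
  -- the arcs into L
  have f1 : ∑ y ∈ Lf A L0, ind A y L0 = 3 * (Lf A L0).card := by
    have h1 : ∀ y ∈ Lf A L0, ind A y L0 = 3 := fun y hy => (Finset.mem_filter.1 hy).2
    rw [Finset.sum_congr rfl h1, Finset.sum_const, smul_eq_mul, mul_comm]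
  have f2 : ∑ v ∈ L0, outd A v (Lf A L0) = ∑ v ∈ L0 \ Lf A L0, outd A v (Lf A L0) +
      ∑ v ∈ Lf A L0, outd A v (Lf A L0) := (Finset.sum_sdiff hLL0).symm
  have f3 : ∑ v ∈ L0 \ Lf A L0, outd A v (Lf A L0) ≤ 3 * (L0 \ Lf A L0).card := by
    have h1 : ∀ v ∈ L0 \ Lf A L0, outd A v (Lf A L0) ≤ 3 := by
      intro v hv
      rw [← e1 v (Finset.mem_sdiff.1 hv).1]
      exact CntL_mono A v (hLL0.trans hL0W)
    calc ∑ v ∈ L0 \ Lf A L0, outd A v (Lf A L0) ≤ ∑ _v ∈ L0 \ Lf A L0, 3 :=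
          Finset.sum_le_sum h1
      _ = 3 * (L0 \ Lf A L0).card := by rw [Finset.sum_const, smul_eq_mul, mul_comm]
  rw [← CntL_dc] at f1
  omega

end Pool.Agent.DBP
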