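import Pool.Agent.DBP.ExPD

/-! # DBP: pairs at a set of vertices

Let `X1` be the set of the pairs `(a, u) ∈ hP` with `a ∈ Q` (so `|X1| = ∑ a ∈ Q, dP a`) and `X2` the set of the pairs with `u ∈ Q`; `|X1| = |X2|` by
symmetry, `X1 ∪ X2 ⊆ hP`, `X1 ∩ X2 ⊆ Q × Q`.
-/

namespace Pool.Agent.DBP

open Finset Pool.Agent.DBK
open scoped Classical

variable {V ι : Type*} {I : Finset ι} {T : ι → Finset V} {H : V → V → Prop}
  {un : ι → ι → Prop} {bd : V → ι → Prop} {U B : ℕ}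

theorem exPB_sum (Q : Finset V) (hQ : Q ⊆ I.biUnion T) :
    ((hP I T H).filter (fun p => p.1 ∈ Q)).card = ∑ a ∈ Q, dP I T H a := by
  have h1 : ((hP I T H).filter (fun p => p.1 ∈ Q)).card =
      ∑ a ∈ Q, (((hP I T H).filter (fun p => p.1 ∈ Q)).filter (fun p => p.1 = a)).card :=
    card_eq_sum_card_fiberwise (fun p hp => (mem_filter.1 hp).2)
  rw [h1]
  refine sum_congr rfl fun a ha => ?_
  unfold dP
  refine card_bij' (fun p _ => p.2) (fun u _ => (a, u)) ?_ ?_ ?_ ?_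
  · intro p hp
    simp only [hP, mem_filter, mem_product] at hp ⊢
    obtain ⟨⟨⟨⟨_, h2⟩, h3⟩, _⟩, rfl⟩ := hp
    exact ⟨h2, h3⟩
  · intro u hu
    simp only [hP, mem_filter, mem_product] at hu ⊢
    exact ⟨⟨⟨⟨hQ ha, hu.1⟩, hu.2⟩, ha⟩, trivial⟩
  · intro p hp
    simp only [mem_filter] at hp
    rw [← hp.2]
  · intro u hu
    rfl

theorem exPB (h : ExtP I T H un bd U B) (Q : Finset V) (hQ : Q ⊆ I.biUnion T) :
    2 * (∑ a ∈ Q, dP I T H a) ≤ (hP I T H).card + Q.card ^ 2 := by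
  have h1 := exPB_sum (H := H) Q hQ
  have h2 : ((hP I T H).filter (fun p => p.2 ∈ Q)).card =
      ((hP I T H).filter (fun p => p.1 ∈ Q)).card := by
    refine card_bij' (fun p _ => (p.2, p.1)) (fun p _ => (p.2, p.1)) ?_ ?_ ?_ ?_
    · intro p hp
      simp only [hP, mem_filter, mem_product] at hp ⊢
      exact ⟨⟨⟨hp.1.1.2, hp.1.1.1⟩, h.Hsymm _ _ hp.1.2⟩, hp.2⟩
    · intro p hp
      simp only [hP, mem_filter, mem_product] at hp ⊢
      exact ⟨⟨⟨hp.1.1.2, hp.1.1.1⟩, h.Hsymm _ _ hp.1.2⟩, hp.2⟩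
    · intro p _
      rfl
    · intro p _
      rfl
  have h3 := card_union_add_card_inter ((hP I T H).filter (fun p => p.1 ∈ Q))
    ((hP I T H).filter (fun p => p.2 ∈ Q))
  have h4 : ((hP I T H).filter (fun p => p.1 ∈ Q) ∪
      (hP I T H).filter (fun p => p.2 ∈ Q)).card ≤ (hP I T H).card :=
    card_le_card (union_subset (filter_subset _ _) (filter_subset _ _))
  have h5 : ((hP I T H).filter (fun p => p.1 ∈ Q) ∩
      (hP I T H).filter (fun p => p.2 ∈ Q)).card ≤ Q.card ^ 2 := by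
    rw [sq, ← card_product]
    apply card_le_card
    intro p hp
    rw [mem_inter, mem_filter, mem_filter] at hp
    exact mem_product.2 ⟨hp.1.2, hp.2.2⟩
  rw [h2, h1] at h3
  omega

end Pool.Agent.DBP
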