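import Pool.Agent.DBP.ExPD
import Pool.Agent.DBK.ExE

/-! # DBP: matchings

Copy `Pool/Agent/DBK/ExE.lean` (which has the same hypotheses `card`, `disj`, `Hsymm`, `Hirr`, `fl`; here `R = I.biUnion T`).
-/

namespace Pool.Agent.DBP

open Finset Pool.Agent.DBK
open scoped Classical

variable {V ι : Type*} {I : Finset ι} {T : ι → Finset V} {H : V → V → Prop}
  {un : ι → ι → Prop} {bd : V → ι → Prop} {U B : ℕ}


theorem exP_card (h : ExtP I T H un bd U B) : (I.biUnion T).card = 3 * I.card := by
  rw [card_biUnion (fun i hi j hj hij => h.disj i hi j hj hij),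
    sum_congr rfl (fun i hi => h.card i hi), sum_const, smul_eq_mul, mul_comm]

theorem exPC (h : ExtP I T H un bd U B) {M : Finset (V × V)} (hM : IsMat H (I.biUnion T) M)
    (h2 : 2 ≤ M.card) :
    M.card * (3 * I.card) ≤ 5 * M.card + 2 * ∑ a ∈ ends M, dP I T H a := by
  have hR : I.biUnion T ⊆ I.biUnion T := Subset.refl _
  have hcard := exP_card h
  let N : V × V → Finset V := fun e => (I.biUnion T).filter (fun u => H e.1 u) ∪
    (I.biUnion T).filter (fun u => H e.2 u)
  have hp : ∀ e ∈ M, ∀ e' ∈ M, e ≠ e' → 3 * I.card ≤ (N e).card + (N e').card + 5 := by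
    intro e he e' he' hee'
    obtain ⟨he1, he2, heH⟩ := hM.1 e he
    obtain ⟨he1', he2', heH'⟩ := hM.1 e' he'
    obtain ⟨d1, d2, d3, d4⟩ := hM.2 e he e' he' hee'
    have h5 := h.fl e.1 (hR he1) e.2 (hR he2) e'.1 (hR he1') e'.2 (hR he2') d1 d2 d3 d4 heH heH'
    rw [← hcard]
    refine le_trans ?_ (Nat.add_le_add_left h5 _)
    refine le_trans (card_le_card ?_) (le_trans (card_union_le _ _)
      (Nat.add_le_add_right (card_union_le (N e) (N e')) _))
    intro u hu
    by_cases hH : H e.1 u ∨ H e.2 u ∨ H e'.1 u ∨ H e'.2 u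
    · refine mem_union_left _ ?_
      rcases hH with hH | hH | hH | hH
      · exact mem_union_left _ (mem_union_left _ (mem_filter.2 ⟨hu, hH⟩))
      · exact mem_union_left _ (mem_union_right _ (mem_filter.2 ⟨hu, hH⟩))
      · exact mem_union_right _ (mem_union_left _ (mem_filter.2 ⟨hu, hH⟩))
      · exact mem_union_right _ (mem_union_right _ (mem_filter.2 ⟨hu, hH⟩))
    · push Not at hH
      obtain ⟨n1, n2, n3, n4⟩ := hH
      refine mem_union_right _ (mem_filter.2 ⟨hu, ?_, ?_, ?_, ?_, ?_, ?_, ?_, ?_⟩)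
      · rintro rfl
        exact n2 (h.Hsymm _ _ heH)
      · rintro rfl
        exact n1 heH
      · rintro rfl
        exact n4 (h.Hsymm _ _ heH')
      · rintro rfl
        exact n3 heH'
      · exact fun hh => n1 (h.Hsymm _ _ hh)
      · exact fun hh => n2 (h.Hsymm _ _ hh)
      · exact fun hh => n3 (h.Hsymm _ _ hh)
      · exact fun hh => n4 (h.Hsymm _ _ hh)
  have h6 := exE_sum (f := fun e => (N e).card) h2 hp
  refine le_trans h6 (Nat.add_le_add_left (Nat.mul_le_mul_left 2 ?_) _)
  have h7 : ∑ e ∈ M, (N e).card ≤ ∑ e ∈ M, (dP I T H e.1 + dP I T H e.2) :=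
    sum_le_sum fun e _ => card_union_le _ _
  refine le_trans h7 (le_of_eq ?_)
  have hdis : Disjoint (M.image Prod.fst) (M.image Prod.snd) := by
    rw [disjoint_left]
    intro a ha ha'
    obtain ⟨e, he, rfl⟩ := mem_image.1 ha
    obtain ⟨e', he', hee⟩ := mem_image.1 ha'
    by_cases hh : e = e'
    · subst hh
      have := (hM.1 e he).2.2
      rw [hee] at this
      exact h.Hirr _ this
    · exact (hM.2 e he e' he' hh).2.1 hee.symm
  rw [ends, sum_union hdis, sum_add_distrib, sum_image, sum_image]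
  · intro e he e' he' hee
    by_contra hh
    exact (hM.2 e he e' he' hh).2.2.2 hee
  · intro e he e' he' hee
    by_contra hh
    exact (hM.2 e he e' he' hh).1 hee

end Pool.Agent.DBP
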