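import Pool.Agent.DBP.ExPA
import Pool.Agent.DBP.ExPB
import Pool.Agent.DBP.ExPC

/-! # DBP: the vertex cover

`mat_dich` for `H`, `I.biUnion T`, `n`. A matching with exactly `n` edges has `2 n` ends (`ends_card`); `exPC`, `exPB`, `exPA` give
`n * (3 |I|) ≤ 5 n + 9 U + 3 B + (2 n)²`, against `hnum`. So there is a matching with at most `n - 1` edges whose ends cover `H`.
-/

namespace Pool.Agent.DBP

open Finset Pool.Agent.DBK
open scoped Classical

variable {V ι : Type*} {I : Finset ι} {T : ι → Finset V} {H : V → V → Prop}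
  {un : ι → ι → Prop} {bd : V → ι → Prop} {U B : ℕ}


theorem exPE (h : ExtP I T H un bd U B) {n : ℕ} (hn : 2 ≤ n)
    (hnum : 5 * n + 4 * n ^ 2 + 9 * U + 3 * B < n * (3 * I.card)) :
    ∃ C : Finset V, C.card ≤ 2 * (n - 1) ∧ ∀ u ∈ (I.biUnion T) \ C,
      ∀ v ∈ (I.biUnion T) \ C, ¬ H u v := by
  rcases mat_dich h.Hirr (I.biUnion T) n with ⟨M, hM, hc⟩ | ⟨M, hM, hc, hmax⟩
  · exfalso
    have h1 := exPC h hM (by omega)
    have h2 := exPB h (ends M) (ends_sub hM)
    have h3 := exPA h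
    rw [ends_card h.Hirr hM, hc] at h2
    rw [hc] at h1
    have h4 : (2 * n) ^ 2 = 4 * n ^ 2 := by ring
    rw [h4] at h2
    omega
  · refine ⟨ends M, ?_, ?_⟩
    · rw [ends_card h.Hirr hM]
      omega
    · intro u hu v hv huv
      rw [mem_sdiff] at hu hv
      rcases hmax u hu.1 v hv.1 huv with h1 | h1
      · exact hu.2 h1
      · exact hv.2 h1

end Pool.Agent.DBP
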