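import Pool.Agent.DBP.SyB

/-! # DBP: joined pairs of parts and pairs of vertices which are not digons

Let `w0 ∈ T A s i`, `z0 ∈ T A s j` be the pair in `hJ`. By `jnd_digon` `z0` forms digons with all of `T A s i`, so with `y`. Suppose `Cln A (sw s i y) j`. Its token `y`
has the out-neighbour `z0 ∈ P s j`, so `z0 ∈ T A (sw s i y) j`, and by `comp_eqP` this is `T A s j`, which contains `w`: so `y`, `w` is a digon (`cln_bic`),
a contradiction. The second claim is the same with the roles exchanged (`jnd_symm`). See also `Pool/Agent/DBK/JoinC.lean`.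
-/

namespace Pool.Agent.DBP

open Finset Pool.Agent.DBK
open scoped Classical

variable {V : Type*} [Fintype V] {m : ℕ} {A : V → V → Prop}

theorem joinP_aux {O : Finset (St V m)} (hS : SysP A m O) {i j : Fin m} (hij : i ≠ j)
    {s : St V m} (hs : s ∈ O) (hi : Cln A s i) (hj : Cln A s j) (hJ : Jnd A s i j)
    {y w : V} (hy : y ∈ T A s i) (hw : w ∈ T A s j) (hnd : ¬ (A y w ∧ A w y)) :
    ¬ Cln A (sw s i y) j := by
  obtain ⟨w0, hw0, z0, hz0, hcw, hcz, had⟩ := hJ
  intro hcy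
  have h1 := jnd_digon hS hij hs hi hj hw0 hz0 hcw hcz had
  have h2 := jnd_half hS hij hs hi hj hy hz0 hcy (h1.2.2.2 y hy).2
  exact hnd (h2.2 w hw)

theorem joinP {O : Finset (St V m)} (hS : SysP A m O) {i j : Fin m} (hij : i ≠ j)
    {s : St V m} (hs : s ∈ O) (hi : Cln A s i) (hj : Cln A s j) (hJ : Jnd A s i j)
    {y w : V} (hy : y ∈ T A s i) (hw : w ∈ T A s j) (hnd : ¬ (A y w ∧ A w y)) :
    ¬ Cln A (sw s i y) j ∧ ¬ Cln A (sw s j w) i :=
  ⟨joinP_aux hS hij hs hi hj hJ hy hw hnd,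
    joinP_aux hS hij.symm hs hj hi (jnd_symm hJ) hw hy (fun h => hnd ⟨h.2, h.1⟩)⟩

end Pool.Agent.DBP
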