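import Pool.Agent.DBP.GlE
import Pool.Agent.DBP.AvB
import Pool.Agent.DBP.JcP
import Pool.Agent.DBP.ExPE
import Pool.Agent.DBK.Fl

/-! # DBP: the biclique in a critical digraph, no bound on the in-degrees -/

namespace Pool.Agent.DBP

open Finset Pool.Agent.DBK
open scoped Classical

variable {V : Type*} [Fintype V] {m : ℕ} {A : V → V → Prop}

theorem TP_eq_of_mem {s : St V m} {i j : Fin m} {z : V} (hi : z ∈ T A s i) (hj : z ∈ T A s j) :
    i = j := by
  have h1 := T_sub (A := A) s i hi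
  have h2 := T_sub (A := A) s j hj
  simp only [P, mem_filter, mem_univ, true_and] at h1 h2
  exact Option.some_injective _ (h1.2.symm.trans h2.2)

/-- The bad incidences are counted by `nd`. -/
theorem bd_card {s : St V m} {bd : V → Fin m → Prop}
    (hbd : ∀ z j, bd z j → ∃ i, z ∈ T A s i ∧ Cln A s i ∧ ¬ Cln A (sw s i z) j) :
    ((((univ.filter (fun j => Cln A s j)).biUnion (T A s)) ×ˢ
      (univ.filter (fun j => Cln A s j))).filter (fun p => bd p.1 p.2)).card ≤ nd A s := by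
  unfold nd
  refine le_trans (card_le_card (t := (univ.filter (fun i => Cln A s i)).biUnion (fun i =>
    (T A s i).biUnion (fun z => (univ.filter (fun j => ¬ Cln A (sw s i z) j)).image
      (fun j => (z, j))))) ?_) ?_
  · intro p hp
    rw [mem_filter, mem_product] at hp
    obtain ⟨_, hb0⟩ := hp
    obtain ⟨i, hi, hci, hb⟩ := hbd _ _ hb0
    rw [mem_biUnion]
    refine ⟨i, mem_filter.2 ⟨mem_univ _, hci⟩, ?_⟩
    rw [mem_biUnion]
    exact ⟨p.1, hi, mem_image.2 ⟨p.2, mem_filter.2 ⟨mem_univ _, hb⟩, rfl⟩⟩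
  · refine le_trans card_biUnion_le (sum_le_sum fun i _ => ?_)
    refine le_trans card_biUnion_le (sum_le_sum fun z _ => ?_)
    exact card_image_le

theorem fl_app {r : ℕ} (hB : BaseP A m r) {U : Finset V} {H : V → V → Prop} {x : V}
    (hU : ∀ a ∈ U, A x a ∧ A a x) (hH : ∀ u a, u ≠ a → ¬ H u a → A u a ∧ A a u)
    {z w z' w' : V} (hz : z ∈ U) (hw : w ∈ U) (hz' : z' ∈ U) (hw' : w' ∈ U) (d1 : z ≠ w)
    (d2 : z ≠ z') (d3 : z ≠ w') (d4 : w ≠ z') (d5 : w ≠ w') (d6 : z' ≠ w')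
    (n1 : ¬ (A z w ∧ A w z)) (n2 : ¬ (A z' w' ∧ A w' z')) :
    (U.filter (fun u => u ≠ z ∧ u ≠ w ∧ u ≠ z' ∧ u ≠ w' ∧
      ¬ H u z ∧ ¬ H u w ∧ ¬ H u z' ∧ ¬ H u w')).card ≤ 5 := by
  set Fs := U.filter (fun u => u ≠ z ∧ u ≠ w ∧ u ≠ z' ∧ u ≠ w' ∧
    ¬ H u z ∧ ¬ H u w ∧ ¬ H u z' ∧ ¬ H u w') with hFs
  have h6 : (insert x Fs).card ≤ 6 := by
    refine fl (c := 3 * m + r) hB.loop hB.nc hB.cr hB.od d1 d2 d3 d4 d5 d6 n1 n2 _ ?_
    intro u hu a ha
    rcases mem_insert.1 hu with rfl | hu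
    · rcases ha with rfl | rfl | rfl | rfl
      · exact hU _ hz
      · exact hU _ hw
      · exact hU _ hz'
      · exact hU _ hw'
    · rw [hFs, mem_filter] at hu
      obtain ⟨_, e1, e2, e3, e4, f1, f2, f3, f4⟩ := hu
      rcases ha with rfl | rfl | rfl | rfl
      · exact hH _ _ e1 f1
      · exact hH _ _ e2 f2
      · exact hH _ _ e3 f3
      · exact hH _ _ e4 f4
  have hxF : x ∉ Fs := fun h => by
    have := (hU x (mem_filter.1 h).1).1
    exact hB.loop x this
  rw [card_insert_of_notMem hxF] at h6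
  omega

theorem coreP {r : ℕ} (hB : BaseP A m r) {t : ℕ} (hm : 0 < m)
    (hnum : ∀ β, 3 * β ≤ 465 → ∃ n, 2 ≤ n ∧ 2 * (n - 1) + 3 * β ≤ t ∧
      10 * n + 8 * n ^ 2 + 3 * ((465 - 3 * β) * m) + 6 * (n * β) < 6 * (n * m)) :
    ∃ K : Finset V, (∀ u ∈ K, ∀ v ∈ K, u ≠ v → A u v) ∧ 3 * m + 1 ≤ K.card + t := by
  have hS : SysP A m (OO A r : Finset (St V m)) := sysP hB
  obtain ⟨s, hs, hsel⟩ := select hS (OO_nonempty hB) (avg_bad hB)
  have hl := hS.loop
  have hn := hS.norm s hs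
  have hβ : 3 * nb A s ≤ 465 := by
    have h1 : m * (3 * nb A s) ≤ m * 465 := by
      have : m * (3 * nb A s) = 3 * m * nb A s := by ring
      rw [this]
      omega
    exact Nat.le_of_mul_le_mul_left h1 hm
  obtain ⟨n, hn2, hnt, hnn⟩ := hnum _ hβ
  set I : Finset (Fin m) := univ.filter (fun j => Cln A s j) with hI
  have hmI : ∀ j, j ∈ I ↔ Cln A s j := fun j => by simp [hI]
  have hcardI : I.card + nb A s = m := by
    have h2 : (univ.filter (fun j => Cln A s j)).card +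
        (univ.filter (fun j => ¬ Cln A s j)).card = (univ : Finset (Fin m)).card :=
      card_filter_add_card_filter_not _
    rw [card_univ, Fintype.card_fin] at h2
    exact h2
  let H : V → V → Prop := fun u v => u ≠ v ∧ ¬ (A u v ∧ A v u)
  let un : Fin m → Fin m → Prop := fun i j => ¬ Jnd A s i j
  let bd : V → Fin m → Prop := fun z j =>
    ∃ i, z ∈ T A s i ∧ Cln A s i ∧ ¬ Cln A (sw s i z) j
  have hdig : ∀ i ∈ I, ∀ a ∈ T A s i, A s.1 a ∧ A a s.1 := by
    intro i hi a ha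
    have hne' : s.1 ≠ a := by
      intro e
      have := T_sub (A := A) s i ha
      simp only [P, mem_filter] at this
      exact this.2.1 e.symm
    have hb := cln_bic hl hn ((hmI i).1 hi)
    exact ⟨hb _ (mem_insert_self _ _) _ (mem_insert_of_mem ha) hne',
      hb _ (mem_insert_of_mem ha) _ (mem_insert_self _ _) hne'.symm⟩
  have hx : s.1 ∉ I.biUnion (T A s) := by
    intro hx
    obtain ⟨i, hi, hxi⟩ := mem_biUnion.1 hx
    exact hl _ (hdig i hi _ hxi).1
  have hE : ExtP I (T A s) H un bd (nu A s) (nd A s) := by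
    refine ⟨?_, ?_, ?_, ?_, ?_, ?_, ?_, ?_, ?_⟩
    · intro i hi
      exact cln_card hl hn ((hmI i).1 hi)
    · intro i _ j _ hij
      rw [disjoint_left]
      intro z hz hz'
      exact hij (TP_eq_of_mem hz hz')
    · rintro u v ⟨h1, h2⟩
      exact ⟨h1.symm, fun h => h2 ⟨h.2, h.1⟩⟩
    · rintro u ⟨h1, _⟩
      exact h1 rfl
    · rintro i hi u hu v hv ⟨h1, h2⟩
      have hb := cln_bic hl hn ((hmI i).1 hi)
      exact h2 ⟨hb _ (mem_insert_of_mem hu) _ (mem_insert_of_mem hv) h1,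
        hb _ (mem_insert_of_mem hv) _ (mem_insert_of_mem hu) h1.symm⟩
    · unfold nu
      refine card_le_card ?_
      intro p hp
      simp only [mem_filter, mem_product, mem_univ, true_and] at hp ⊢
      exact ⟨hp.2.1, (hmI _).1 hp.1.1, (hmI _).1 hp.1.2, hp.2.2⟩
    · exact bd_card (A := A) (s := s) (fun z j h => h)
    · intro i hi j hj hij hJ z hz w hw hzw
      have hJ' : Jnd A s i j := not_not.1 hJ
      exact ⟨i, hz, (hmI i).1 hi,
        (joinP hS hij hs ((hmI i).1 hi) ((hmI j).1 hj) hJ' hz hw hzw.2).1⟩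
    · intro z hz w hw z' hz' w' hw' d2 d3 d4 d5 h1 h2
      refine fl_app (x := s.1) hB ?_ ?_ hz hw hz' hw' h1.1 d2 d3 d4 d5 h2.1 h1.2 h2.2
      · intro a ha
        obtain ⟨i, hi, hai⟩ := mem_biUnion.1 ha
        exact hdig i hi a hai
      · intro u a hne' hH
        by_contra hc
        exact hH ⟨hne', hc⟩
  have hnum' : 5 * n + 4 * n ^ 2 + 9 * nu A s + 3 * nd A s < n * (3 * I.card) := by
    have e1 : (465 - 3 * nb A s) * m + 3 * (m * nb A s) = 465 * m := by
      have : (465 - 3 * nb A s) * m + 3 * (m * nb A s) = (465 - 3 * nb A s + 3 * nb A s) * m := by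
        ring
      rw [this, Nat.sub_add_cancel hβ]
    have e2 : n * (3 * I.card) + 3 * (n * nb A s) = 3 * (n * m) := by
      have h9 : 3 * (n * (I.card + nb A s)) = 3 * (n * m) := by rw [hcardI]
      rw [← h9]
      ring
    have e3 : 3 * m * nb A s = 3 * (m * nb A s) := by ring
    rw [e3] at hsel
    generalize n ^ 2 = q at *
    omega
  obtain ⟨C, hC, hcov⟩ := exPE hE hn2 hnum'
  refine ⟨insert s.1 ((I.biUnion (T A s)) \ C), ?_, ?_⟩
  · intro u hu v hv huv
    rcases mem_insert.1 hu with rfl | hu'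
    · rcases mem_insert.1 hv with rfl | hv'
      · exact absurd rfl huv
      · obtain ⟨i, hi, hvi⟩ := mem_biUnion.1 (mem_sdiff.1 hv').1
        exact (hdig i hi v hvi).1
    · rcases mem_insert.1 hv with rfl | hv'
      · obtain ⟨i, hi, hui⟩ := mem_biUnion.1 (mem_sdiff.1 hu').1
        exact (hdig i hi u hui).2
      · have := hcov u hu' v hv'
        by_contra hc
        exact this ⟨huv, fun h => hc h.1⟩
  · have h1 : (I.biUnion (T A s)).card = 3 * I.card := by
      rw [card_biUnion (fun i hi j hj hij => hE.disj i hi j hj hij),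
        sum_congr rfl (fun i hi => hE.card i hi), sum_const, smul_eq_mul, mul_comm]
    have h2 : s.1 ∉ (I.biUnion (T A s)) \ C := fun h => hx (mem_sdiff.1 h).1
    rw [card_insert_of_notMem h2]
    have h3 := le_card_sdiff C (I.biUnion (T A s))
    omega

end Pool.Agent.DBP
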