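import Pool.Agent.DBP.DefsP

/-! # DBP: basic facts on cycles

`cy_eq_iff`: `Function.Periodic.map_mod_nat`. `not_dirF`: `DirF` and `A (w (i+1)) (w i)` give `w i = w (i+2)`, against
`3 ≤ N`. `dirF_in`: `w (i+1) = w (j+1)`.
-/

namespace Pool.Agent.DBP

open Finset Pool.Agent.DBK
open scoped Classical

variable {V : Type*} {A : V → V → Prop}


theorem cy_eq_iff {L : Finset V} {N : ℕ} {w : ℕ → V} (h : Cy A L N w) (i j : ℕ) :
    w i = w j ↔ i % N = j % N := by
  have hp : Function.Periodic w N := h.per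
  have hN : 0 < N := by have := h.N3; omega
  constructor
  · intro he
    rw [← hp.map_mod_nat i, ← hp.map_mod_nat j] at he
    exact h.inj _ _ (Nat.mod_lt _ hN) (Nat.mod_lt _ hN) he
  · intro he
    rw [← hp.map_mod_nat i, ← hp.map_mod_nat j, he]

theorem cy_shift {L : Finset V} {N : ℕ} {w : ℕ → V} (h : Cy A L N w) (c : ℕ) :
    Cy A L N (fun i => w (i + c)) := by
  refine ⟨h.N3, ?_, ?_, fun i => h.mem _, ?_⟩
  · intro i
    show w (i + N + c) = w (i + c)
    rw [show i + N + c = i + c + N by ring]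
    exact h.per _
  · intro i j hi hj he
    have h1 : (i + c) % N = (j + c) % N := (cy_eq_iff h _ _).1 he
    have h2 : i % N = j % N := Nat.ModEq.add_right_cancel' c h1
    rwa [Nat.mod_eq_of_lt hi, Nat.mod_eq_of_lt hj] at h2
  · intro i
    have := h.adj (i + c)
    rw [show i + c + 1 = i + 1 + c by ring] at this
    exact this

theorem cy_flip {L : Finset V} {N : ℕ} {w : ℕ → V} (h : Cy A L N w) :
    Cy (fun a b => A b a) L N w :=
  ⟨h.N3, h.per, h.inj, h.mem, fun i => (h.adj i).symm⟩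

theorem cy_mono {L L' : Finset V} {N : ℕ} {w : ℕ → V} (h : Cy A L N w) (hw : ∀ i, w i ∈ L') :
    Cy A L' N w :=
  ⟨h.N3, h.per, h.inj, hw, h.adj⟩

/-- A cycle from a finite sequence. -/
theorem cy_mk {L : Finset V} {n : ℕ} {u : ℕ → V} (hn : 3 ≤ n)
    (inj : ∀ i j, i < n → j < n → u i = u j → i = j) (mem : ∀ i < n, u i ∈ L)
    (adj : ∀ i, i + 1 < n → A (u i) (u (i + 1)) ∨ A (u (i + 1)) (u i))
    (cl : A (u (n - 1)) (u 0) ∨ A (u 0) (u (n - 1))) : Cy A L n (fun i => u (i % n)) := by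
  have hn0 : 0 < n := by omega
  refine ⟨hn, ?_, ?_, fun i => mem _ (Nat.mod_lt _ hn0), ?_⟩
  · intro i
    show u ((i + n) % n) = u (i % n)
    rw [Nat.add_mod_right]
  · intro i j hi hj he
    have he' : u (i % n) = u (j % n) := he
    rw [Nat.mod_eq_of_lt hi, Nat.mod_eq_of_lt hj] at he'
    exact inj i j hi hj he'
  · intro i
    show A (u (i % n)) (u ((i + 1) % n)) ∨ A (u ((i + 1) % n)) (u (i % n))
    have hlt := Nat.mod_lt i hn0
    by_cases hc : i % n + 1 < n
    · have : (i + 1) % n = i % n + 1 := by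
        rw [Nat.add_mod, Nat.mod_eq_of_lt (show 1 < n by omega), Nat.mod_eq_of_lt hc]
      rw [this]
      exact adj _ hc
    · have h1 : i % n = n - 1 := by omega
      have : (i + 1) % n = 0 := by
        rw [Nat.add_mod, Nat.mod_eq_of_lt (show 1 < n by omega), h1,
          show n - 1 + 1 = n by omega, Nat.mod_self]
      rw [this, h1]
      exact cl

theorem bid_mk {n : ℕ} {u : ℕ → V} (hn : 3 ≤ n)
    (adj : ∀ i, i + 1 < n → A (u i) (u (i + 1)) ∧ A (u (i + 1)) (u i))
    (cl : A (u (n - 1)) (u 0) ∧ A (u 0) (u (n - 1))) : Bid A (fun i => u (i % n)) := by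
  have hn0 : 0 < n := by omega
  intro i
  show A (u (i % n)) (u ((i + 1) % n)) ∧ A (u ((i + 1) % n)) (u (i % n))
  have hlt := Nat.mod_lt i hn0
  by_cases hc : i % n + 1 < n
  · have : (i + 1) % n = i % n + 1 := by
      rw [Nat.add_mod, Nat.mod_eq_of_lt (show 1 < n by omega), Nat.mod_eq_of_lt hc]
    rw [this]
    exact adj _ hc
  · have h1 : i % n = n - 1 := by omega
    have : (i + 1) % n = 0 := by
      rw [Nat.add_mod, Nat.mod_eq_of_lt (show 1 < n by omega), h1,
        show n - 1 + 1 = n by omega, Nat.mod_self]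
    rw [this, h1]
    exact cl

theorem cy_ne_two {L : Finset V} {N : ℕ} {w : ℕ → V} (h : Cy A L N w) (i : ℕ) :
    w i ≠ w (i + 2) := by
  intro he
  have h1 : (i + 0) % N = (i + 2) % N := (cy_eq_iff h i (i + 2)).1 he
  have h2 : 0 % N = 2 % N := Nat.ModEq.add_left_cancel' i h1
  have := h.N3
  rw [Nat.zero_mod, Nat.mod_eq_of_lt (show 2 < N by omega)] at h2
  omega

/-- A consecutive digon excludes directed cycles. -/
theorem not_dirF {L : Finset V} {N : ℕ} {w : ℕ → V} (h : Cy A L N w) {i : ℕ}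
    (h1 : A (w i) (w (i + 1))) (h2 : A (w (i + 1)) (w i)) :
    ¬ DirF A w ∧ ¬ DirF (fun a b => A b a) w :=
  ⟨fun hd => cy_ne_two h i (hd.2 (i + 1) i h2), fun hd => cy_ne_two h i (hd.2 (i + 1) i h1)⟩

theorem bid_of_shift {L : Finset V} {N : ℕ} {w : ℕ → V} (h : Cy A L N w) (c : ℕ)
    (hb : Bid A (fun i => w (i + c))) : Bid A w := by
  intro i
  have hN : 3 ≤ N := h.N3
  have hc : c ≤ c * N := Nat.le_mul_of_pos_right _ (by omega)
  have e1 : w (i + c * N - c + c) = w i := by
    rw [show i + c * N - c + c = i + c * N by omega]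
    exact (cy_eq_iff h _ _).2 (Nat.add_mul_mod_self_right _ _ _)
  have e2 : w (i + c * N - c + 1 + c) = w (i + 1) := by
    rw [show i + c * N - c + 1 + c = i + 1 + c * N by omega]
    exact (cy_eq_iff h _ _).2 (Nat.add_mul_mod_self_right _ _ _)
  have h3 : A (w (i + c * N - c + c)) (w (i + c * N - c + 1 + c)) ∧
      A (w (i + c * N - c + 1 + c)) (w (i + c * N - c + c)) := hb (i + c * N - c)
  rw [e1, e2] at h3
  exact h3

theorem odd_of_tri {L : Finset V} (ht : Tri A L) {N : ℕ} {w : ℕ → V} (h : Cy A L N w)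
    (hb : Bid A w) : Odd N := by
  have hn := not_dirF h (i := 0) (hb 0).1 (hb 0).2
  rcases ht N w h with h1 | h1 | h1
  · exact absurd h1 hn.1
  · exact absurd h1 hn.2
  · exact h1.2

/-- In a directed cycle every vertex has one out-neighbour and one in-neighbour. -/
theorem dirF_in {L : Finset V} {N : ℕ} {w : ℕ → V} (h : Cy A L N w) (hd : DirF A w) {i j : ℕ}
    (hij : A (w j) (w (i + 1))) : w j = w i := by
  have h1 : w (i + 1) = w (j + 1) := hd.2 j (i + 1) hij
  have h2 : (i + 1) % N = (j + 1) % N := (cy_eq_iff h _ _).1 h1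
  have h3 : i % N = j % N := Nat.ModEq.add_right_cancel' 1 h2
  exact (cy_eq_iff h _ _).2 h3.symm

end Pool.Agent.DBP
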