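import Pool.Agent.DBK.Defs

/-! # DBP: the theorem without a bound on the in-degrees, definitions

We use the definitions of `Pool.Agent.DBK` (`AcyclicOn`, `Col`, `outd`, `ind`, `St`, `P`, `P0`, `T`,
`place`, `sw`, `Vp`, `Valid`, `Tok`, `Crit3`). The potential is now the number of colourings of the
parts, which is not decreased by moves along out-arcs.
-/

namespace Pool.Agent.DBP

open Finset Pool.Agent.DBK
open scoped Classical

/-- The 3-colourings (with acyclic classes) of `S`, normalised by `0` outside `S`. -/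
noncomputable def cols {V : Type*} [Fintype V] (A : V → V → Prop) (S : Finset V) :
    Finset (V → Fin 3) :=
  univ.filter (fun φ => (∀ v, v ∉ S → φ v = 0) ∧ ∀ i, AcyclicOn A {v | v ∈ S ∧ φ v = i})

/-- The vertices of `G` whose removal leaves the maximal number of 3-colourings. -/
noncomputable def Wt {V : Type*} [Fintype V] (A : V → V → Prop) (G : Finset V) : Finset V :=
  G.filter (fun y => ∀ y' ∈ G, (cols A (G.erase y')).card ≤ (cols A (G.erase y)).card)

/-- The club of `y` in `G`: `y` and its out-neighbours in `G`. -/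
noncomputable def clubOf {V : Type*} (A : V → V → Prop) (G : Finset V) (y : V) : Finset V :=
  insert y (G.filter (fun v => A y v))

/-- `y` and its out-neighbours in `G` form a biclique of order four without arcs to the rest of
`G`. -/
def ClubAt {V : Type*} (A : V → V → Prop) (G : Finset V) (y : V) : Prop :=
  ∀ u ∈ clubOf A G y, outd A u G = 3 ∧ ∀ v ∈ clubOf A G y, u ≠ v → A u v

/-- The local structure. `L0`: the tokens with exactly three out-neighbours in `G`. -/
structure Loc {V : Type*} (A : V → V → Prop) (G W L0 : Finset V) : Prop where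
  loop : ∀ v, ¬ A v v
  WG : W ⊆ G
  L0W : L0 ⊆ W
  nc : ¬ Col A 3 G
  tok : ∀ y ∈ W, ∃ φ, Tok A G y φ
  out3 : ∀ y ∈ L0, outd A y G = 3
  cl : ∀ y ∈ L0, ∀ y' ∈ G, A y y' → y' ∈ W
  fwd : ∀ y ∈ L0, ∀ y' ∈ G, A y y' → ∀ φ, Tok A G y φ → Tok A G y' (Function.update φ y (φ y'))
  bwd : ∀ y ∈ L0, ∀ y' ∈ G, A y y' → ∀ φ, Tok A G y' φ → Tok A G y (Function.update φ y' (φ y))
  outinj : ∀ y ∈ L0, ∀ φ, Tok A G y φ → ∀ u ∈ G, ∀ v ∈ G, A y u → A y v → φ u = φ v → u = v
  ininj : ∀ y ∈ W, ∀ φ, Tok A G y φ → ∀ u ∈ L0, ∀ v ∈ L0, A u y → A v y → φ u = φ v → u = v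

/-- The tokens in `L0` with three in-neighbours in `L0`. -/
noncomputable def Lf {V : Type*} (A : V → V → Prop) (L0 : Finset V) : Finset V :=
  L0.filter (fun y => ind A y L0 = 3)

/-- There is no nonempty subset of `L0` without arcs to the rest of `G`. -/
def NoClub {V : Type*} (A : V → V → Prop) (G L0 : Finset V) : Prop :=
  ∀ R ⊆ L0, R.Nonempty → ∃ u ∈ R, ∃ v ∈ G, A u v ∧ v ∉ R

/-- A cycle in `L`, arcs used in any direction, as a periodic sequence. -/
structure Cy {V : Type*} (A : V → V → Prop) (L : Finset V) (N : ℕ) (w : ℕ → V) : Prop where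
  N3 : 3 ≤ N
  per : ∀ i, w (i + N) = w i
  inj : ∀ i j, i < N → j < N → w i = w j → i = j
  mem : ∀ i, w i ∈ L
  adj : ∀ i, A (w i) (w (i + 1)) ∨ A (w (i + 1)) (w i)

/-- The sequence is an induced directed cycle. -/
def DirF {V : Type*} (A : V → V → Prop) (w : ℕ → V) : Prop :=
  (∀ i, A (w i) (w (i + 1))) ∧ ∀ i j, A (w i) (w j) → w j = w (i + 1)

/-- Consecutive vertices form digons. -/
def Bid {V : Type*} (A : V → V → Prop) (w : ℕ → V) : Prop :=
  ∀ i, A (w i) (w (i + 1)) ∧ A (w (i + 1)) (w i)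

/-- The trichotomy for cycles in `L`. -/
def Tri {V : Type*} (A : V → V → Prop) (L : Finset V) : Prop :=
  ∀ N w, Cy A L N w → DirF A w ∨ DirF (fun a b => A b a) w ∨ (Bid A w ∧ Odd N)

/-- A bidirected cycle as a set. -/
def IsBic {V : Type*} (A : V → V → Prop) (L : Finset V) (B : Finset V) : Prop :=
  ∃ N w, Cy A L N w ∧ Bid A w ∧ B = (range N).image w

/-- A vertex-critical digraph, not colourable with `3m+r` colours, out-degrees at most `3m+r+1`. -/
structure BaseP {V : Type*} [Fintype V] (A : V → V → Prop) (m r : ℕ) : Prop where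
  loop : ∀ v, ¬ A v v
  od : ∀ v, outd A v univ ≤ 3 * m + r + 1
  nc : ¬ Col A (3 * m + r) (univ : Finset V)
  cr : ∀ v, Col A (3 * m + r) ((univ : Finset V).erase v)

variable {V : Type*} [Fintype V] {m : ℕ}

/-- The number of 3-colourings of all parts. -/
noncomputable def psi (A : V → V → Prop) (s : St V m) : ℕ := ∏ j, (cols A (P s j)).card

/-- The states with the maximal number of colourings. -/
noncomputable def OO (A : V → V → Prop) (r : ℕ) : Finset (St V m) :=
  univ.filter (fun s => Valid A r s ∧ ∀ s' : St V m, Valid A r s' → psi A s' ≤ psi A s)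

/-- The part `j` is clean at `s`. -/
def Cln (A : V → V → Prop) (s : St V m) (j : Fin m) : Prop :=
  ClubAt A (insert s.1 (P s j)) s.1

/-- `s` is joined at the pair `i, j`. -/
def Jnd (A : V → V → Prop) (s : St V m) (i j : Fin m) : Prop :=
  ∃ w ∈ T A s i, ∃ z ∈ T A s j, Cln A (sw s i w) j ∧ Cln A (sw s j z) i ∧ (A w z ∨ A z w)

/-- The properties of the set of states used by the combinatorial part. -/
structure SysP (A : V → V → Prop) (m : ℕ) (O : Finset (St V m)) : Prop where
  loop : ∀ v, ¬ A v v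
  norm : ∀ s ∈ O, s.2 s.1 = none
  nc : ∀ s ∈ O, ∀ j, ¬ Col A 3 (insert s.1 (P s j))
  cp : ∀ s ∈ O, ∀ j, Col A 3 (P s j)
  swap : ∀ s ∈ O, ∀ j, Cln A s j → ∀ y ∈ T A s j, sw s j y ∈ O ∧ Cln A (sw s j y) j
  same : ∀ s ∈ O, ∀ s' ∈ O, ∀ j, Cln A s j → Cln A s' j → place s j = place s' j →
    s' = s ∨ ∃ y ∈ T A s j, s' = sw s j y

end Pool.Agent.DBP
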