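import Pool.Agent.DBP.RotP
import Pool.Agent.DBP.CyA

/-! # DBP: bidirected cycles are odd

By `hnc` the set of the vertices `w i` has an arc to a vertex `v` of `G` outside; let it start in `w (e+1)` (every index is of this form
modulo `N`). The out-neighbours of `w (e+1)` in `G` are `w e`, `w (e+2)`, `v`; use `rotP` with `n1 = v` and `h.outinj`.
-/

namespace Pool.Agent.DBP

open Finset Pool.Agent.DBK
open scoped Classical

variable {V : Type*} {A : V → V → Prop}


theorem bid_odd {G W L0 : Finset V} (h : Loc A G W L0) (hnc : NoClub A G L0) {N : ℕ}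
    {w : ℕ → V} (hC : Cy A (Lf A L0) N w) (hb : Bid A w) : Odd N := by
  have hN := hC.N3
  have hL0 : ∀ i, w i ∈ L0 := fun i => (Finset.mem_filter.1 (hC.mem i)).1
  have hG : ∀ i, w i ∈ G := fun i => h.WG (h.L0W (hL0 i))
  have hmod : ∀ i, w i ∈ (range N).image w := by
    intro i
    refine Finset.mem_image.2 ⟨i % N, Finset.mem_range.2 (Nat.mod_lt _ (by omega)), ?_⟩
    exact (cy_eq_iff hC _ _).2 (Nat.mod_mod _ _)
  obtain ⟨u, hu, v, hvG, huv, hvR⟩ := hnc ((range N).image w)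
    (fun x hx => by
      obtain ⟨i, _, rfl⟩ := Finset.mem_image.1 hx
      exact hL0 i)
    ⟨w 0, hmod 0⟩
  obtain ⟨k, _, rfl⟩ := Finset.mem_image.1 hu
  have he : w (k + N - 1 + 1) = w k := by
    rw [show k + N - 1 + 1 = k + N by omega]
    exact hC.per k
  have hvt : ∀ t, v ≠ w t := fun t ht => hvR (ht ▸ hmod t)
  have hloop : ∀ i, w i ≠ w (i + 1) := by
    intro i hi
    have h1 := (hb i).1
    rw [← hi] at h1
    exact h.loop _ h1
  refine rotP h hC (e := k + N - 1) (n1 := v) hvt ?_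
  intro ψ hψ
  set e := k + N - 1 with hedef
  have a1 : A (w (e + 1)) (w (e + 2)) := (hb (e + 1)).1
  have a2 : A (w (e + 1)) (w e) := (hb e).2
  have a3 : A (w (e + 1)) v := he ▸ huv
  refine ⟨hψ.2.1 _ (hG _) (hloop (e + 1)).symm, hψ.2.1 _ (hG _) (hloop e),
    hψ.2.1 _ hvG (hvt _), ?_, ?_, ?_⟩
  · intro hc
    exact cy_ne_two hC e (h.outinj _ (hL0 _) ψ hψ _ (hG _) _ (hG _) a1 a2 hc).symm
  · intro hc
    exact hvt _ (h.outinj _ (hL0 _) ψ hψ _ (hG _) _ hvG a1 a3 hc).symm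
  · intro hc
    exact hvt _ (h.outinj _ (hL0 _) ψ hψ _ (hG _) _ hvG a2 a3 hc).symm

end Pool.Agent.DBP
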