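import Pool.Agent.DBP.DirO
import Pool.Agent.DBP.ChA
import Pool.Agent.DBP.ChB
import Pool.Agent.DBP.ParB

/-! # DBP: the trichotomy for cycles

`dich`: strong induction on `N`. If some vertex has exactly one out-neighbour or exactly one in-neighbour on the cycle: `dirO`. Otherwise
`hO`, `hI` of `chA`, `chB` hold. If there is a chord `w i`, `w j` (adjacent, not consecutive), shift the cycle (`cy_shift`, `bid_of_shift`; the conditions are
invariant) so that it is a chord `w 0`, `w b` with `2 ≤ b`, `b + 2 ≤ N`, and use `chA`. Otherwise `chB`; its hypothesis `hp`: the three out-neighbours of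
`w (e+1)` in `G` are `w (e+2)`, `w e` and a third vertex `n1`, which is not on the cycle (no chord); `rotP` with `h.outinj`.
`tri`: `dich` and `bid_odd`.
-/

namespace Pool.Agent.DBP

open Finset Pool.Agent.DBK
open scoped Classical

variable {V : Type*} {A : V → V → Prop}


theorem dich_three {S : Finset V} (hS : S.card = 3) {x y : V} (hx : x ∈ S) (hy : y ∈ S)
    (hxy : x ≠ y) : ∃ n1, n1 ∈ S ∧ n1 ≠ x ∧ n1 ≠ y := by
  have h1 : ((S.erase x).erase y).card = 1 := by
    rw [Finset.card_erase_of_mem (Finset.mem_erase.2 ⟨hxy.symm, hy⟩),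
      Finset.card_erase_of_mem hx, hS]
  obtain ⟨n1, hn1⟩ := Finset.card_eq_one.1 h1
  have m1 : n1 ∈ (S.erase x).erase y := by rw [hn1]; simp
  rw [Finset.mem_erase, Finset.mem_erase] at m1
  exact ⟨n1, m1.2.2, m1.2.1, m1.1⟩

theorem dich_step {G W L0 : Finset V} (h : Loc A G W L0) (N : ℕ)
    (IH : ∀ N' < N, ∀ w', Cy A (Lf A L0) N' w' →
      DirF A w' ∨ DirF (fun a b => A b a) w' ∨ Bid A w')
    (w : ℕ → V) (hC : Cy A (Lf A L0) N w) :
    DirF A w ∨ DirF (fun a b => A b a) w ∨ Bid A w := by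
  by_cases hc : (∃ e f, A (w e) (w f) ∧ ∀ g, A (w e) (w g) → w g = w f) ∨
      (∃ e f, A (w f) (w e) ∧ ∀ g, A (w g) (w e) → w g = w f)
  · rcases dirO h hC hc with h1 | h1
    · exact Or.inl h1
    · exact Or.inr (Or.inl h1)
  right; right
  have hO : ∀ i j, A (w i) (w j) → ∃ k, A (w i) (w k) ∧ w k ≠ w j := by
    intro i j hij
    by_contra hcon
    apply hc
    left
    refine ⟨i, j, hij, fun g hg => ?_⟩
    by_contra hgj
    exact hcon ⟨g, hg, hgj⟩
  have hI : ∀ i j, A (w j) (w i) → ∃ k, A (w k) (w i) ∧ w k ≠ w j := by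
    intro i j hij
    by_contra hcon
    apply hc
    right
    refine ⟨i, j, hij, fun g hg => ?_⟩
    by_contra hgj
    exact hcon ⟨g, hg, hgj⟩
  have hN3 := hC.N3
  have hN0 : 0 < N := by omega
  have hmod : ∀ i, w (i % N) = w i := by
    intro i
    rw [cy_eq_iff hC, Nat.mod_mod]
  -- the case of a chord
  have hchord : ∀ i j, i < N → j < N → i < j → (A (w i) (w j) ∨ A (w j) (w i)) →
      w j ≠ w (i + 1) → w i ≠ w (j + 1) → Bid A w := by
    intro i j hi hj hij hadj hne1 hne2
    apply bid_of_shift hC i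
    have hb2 : 2 ≤ j - i := by
      rcases Nat.lt_or_ge (j - i) 2 with h1 | h1
      · exfalso
        apply hne1
        have : j = i + 1 := by omega
        rw [this]
      · exact h1
    have hbN : j - i + 2 ≤ N := by
      rcases Nat.lt_or_ge N (j - i + 2) with h1 | h1
      · exfalso
        apply hne2
        have h2 : j = N - 1 := by omega
        have h3 : i = 0 := by omega
        rw [h2, h3, cy_eq_iff hC, show N - 1 + 1 = N by omega, Nat.mod_self, Nat.zero_mod]
      · exact h1
    refine chA (L := Lf A L0) (N := N) h.loop IH (cy_shift hC i)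
      (fun a b hab => ?_) (fun a b hab => ?_) hb2 hbN ?_
    · obtain ⟨k, hk1, hk2⟩ := hO (a + i) (b + i) hab
      refine ⟨k + i * N - i, ?_⟩
      have hle : i ≤ i * N := Nat.le_mul_of_pos_right _ hN0
      have e1 : w (k + i * N - i + i) = w k := by
        rw [show k + i * N - i + i = k + i * N by omega]
        exact (cy_eq_iff hC _ _).2 (Nat.add_mul_mod_self_right _ _ _)
      show A (w (a + i)) (w (k + i * N - i + i)) ∧ w (k + i * N - i + i) ≠ w (b + i)
      rw [e1]
      exact ⟨hk1, hk2⟩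
    · obtain ⟨k, hk1, hk2⟩ := hI (a + i) (b + i) hab
      refine ⟨k + i * N - i, ?_⟩
      have hle : i ≤ i * N := Nat.le_mul_of_pos_right _ hN0
      have e1 : w (k + i * N - i + i) = w k := by
        rw [show k + i * N - i + i = k + i * N by omega]
        exact (cy_eq_iff hC _ _).2 (Nat.add_mul_mod_self_right _ _ _)
      show A (w (k + i * N - i + i)) (w (a + i)) ∧ w (k + i * N - i + i) ≠ w (b + i)
      rw [e1]
      exact ⟨hk1, hk2⟩
    · show A (w (0 + i)) (w (j - i + i)) ∨ A (w (j - i + i)) (w (0 + i))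
      rw [show 0 + i = i by omega, show j - i + i = j by omega]
      exact hadj
  by_cases hnc : ∀ i j, A (w i) (w j) → w j = w (i + 1) ∨ w i = w (j + 1)
  · refine chB hC hO hI hnc ?_
    intro e he1 he2
    have hL0 : ∀ i, w i ∈ L0 := fun i => (Finset.mem_filter.1 (hC.mem i)).1
    have hG : ∀ i, w i ∈ G := fun i => h.WG (h.L0W (hL0 i))
    have hne : ∀ {a b : V}, A a b → b ≠ a := by
      intro a b hab he
      rw [he] at hab
      exact h.loop a hab
    have h3 : (G.filter (fun y => A (w (e + 1)) y)).card = 3 := h.out3 _ (hL0 _)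
    have m2 : w (e + 2) ∈ G.filter (fun y => A (w (e + 1)) y) := Finset.mem_filter.2 ⟨hG _, he1⟩
    have m0 : w e ∈ G.filter (fun y => A (w (e + 1)) y) := Finset.mem_filter.2 ⟨hG _, he2⟩
    have h20 : w (e + 2) ≠ w e := (cy_ne_two hC e).symm
    obtain ⟨n1, hn1, d2, d0⟩ := dich_three h3 m2 m0 h20
    rw [Finset.mem_filter] at hn1
    refine rotP h hC (e := e) (n1 := n1) ?_ ?_
    · intro t ht
      rw [ht] at hn1 d2 d0
      rcases hnc (e + 1) t hn1.2 with h4 | h4
      · exact d2 h4
      · have h5 : (e + 1) % N = (t + 1) % N := (cy_eq_iff hC _ _).1 h4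
        have h6 : e % N = t % N := Nat.ModEq.add_right_cancel' 1 h5
        exact d0 ((cy_eq_iff hC _ _).2 h6.symm)
    · intro ψ hψ
      refine ⟨hψ.2.1 _ (hG _) (hne he1), hψ.2.1 _ (hG _) (hne he2),
        hψ.2.1 _ hn1.1 (hne hn1.2), ?_, ?_, ?_⟩
      · intro hh
        exact h20 (h.outinj _ (hL0 _) ψ hψ _ (hG _) _ (hG _) he1 he2 hh)
      · intro hh
        exact d2 (h.outinj _ (hL0 _) ψ hψ _ (hG _) _ hn1.1 he1 hn1.2 hh).symm
      · intro hh
        exact d0 (h.outinj _ (hL0 _) ψ hψ _ (hG _) _ hn1.1 he2 hn1.2 hh).symm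
  · push Not at hnc
    obtain ⟨i, j, hij, h1, h2⟩ := hnc
    have hii : w (i % N) = w i := hmod i
    have hjj : w (j % N) = w j := hmod j
    have hi1 : w (i % N + 1) = w (i + 1) := by
      rw [cy_eq_iff hC]
      exact Nat.ModEq.add_right 1 (Nat.mod_modEq i N)
    have hj1 : w (j % N + 1) = w (j + 1) := by
      rw [cy_eq_iff hC]
      exact Nat.ModEq.add_right 1 (Nat.mod_modEq j N)
    have hiN := Nat.mod_lt i hN0
    have hjN := Nat.mod_lt j hN0
    rcases Nat.lt_trichotomy (i % N) (j % N) with h3 | h3 | h3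
    · apply hchord (i % N) (j % N) hiN hjN h3
      · rw [hii, hjj]; exact Or.inl hij
      · rw [hjj, hi1]; exact h1
      · rw [hii, hj1]; exact h2
    · exfalso
      have : w i = w j := (cy_eq_iff hC _ _).2 h3
      rw [this] at hij
      exact h.loop _ hij
    · apply hchord (j % N) (i % N) hjN hiN h3
      · rw [hii, hjj]; exact Or.inr hij
      · rw [hii, hj1]; exact h2
      · rw [hjj, hi1]; exact h1

theorem dich {G W L0 : Finset V} (h : Loc A G W L0) :
    ∀ N w, Cy A (Lf A L0) N w → DirF A w ∨ DirF (fun a b => A b a) w ∨ Bid A w := by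
  intro N
  induction N using Nat.strong_induction_on with
  | _ N ih => exact fun w hw => dich_step h N ih w hw

theorem tri {G W L0 : Finset V} (h : Loc A G W L0) (hnc : NoClub A G L0) :
    Tri A (Lf A L0) := by
  intro N w hC
  rcases dich h N w hC with h1 | h1 | h1
  · exact Or.inl h1
  · exact Or.inr (Or.inl h1)
  · exact Or.inr (Or.inr ⟨h1, bid_odd h hnc hC h1⟩)

end Pool.Agent.DBP
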