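import Pool.Agent.DBP.RotC
import Pool.Agent.DBP.CyA

/-! # DBP: a vertex with one neighbour of a kind on the cycle

First case: the out-neighbours of `w e` in `G` are three (`h.out3`): `w f` and two vertices `n1`, `n2`, which are not on the cycle; `rotC`
applies (`h.outinj`; the colours are `< 3` by `Tok`). Second case: `w e ∈ Lf A L0` has three in-neighbours in `L0`: `w f` and `n1`, `n2`, not on the
cycle (all `w g` are in `L0`); `rotC` applies (`h.ininj`). So for every `i` all `w j ≠ w i` have the same colour in the colouring `ψ i` for the token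
`w i`; by `h.outinj` `w i` has at most one out-neighbour on the cycle, and by `h.ininj` at most one in-neighbour. Since `w i` is adjacent
to `w (i+1)` and to `w (i + N - 1)`, which are different, one is the out-neighbour and the other the in-neighbour. If `A (w 0) (w 1)`, then by induction
`A (w i) (w (i+1))` for all `i`; otherwise `A (w (i+1)) (w i)` for all `i`.
-/

namespace Pool.Agent.DBP

open Finset Pool.Agent.DBK
open scoped Classical

variable {V : Type*} {A : V → V → Prop}


theorem dirO_three {S : Finset V} (hS : S.card = 3) {x : V} (hx : x ∈ S) :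
    ∃ n1 n2, n1 ∈ S ∧ n2 ∈ S ∧ n1 ≠ x ∧ n2 ≠ x ∧ n1 ≠ n2 := by
  have h2 : (S.erase x).card = 2 := by rw [Finset.card_erase_of_mem hx, hS]
  obtain ⟨n1, n2, hne, he⟩ := Finset.card_eq_two.1 h2
  have m1 : n1 ∈ S.erase x := by rw [he]; simp
  have m2 : n2 ∈ S.erase x := by rw [he]; simp
  rw [Finset.mem_erase] at m1 m2
  exact ⟨n1, n2, m1.2, m2.2, m1.1, m2.1, hne⟩

theorem dirO {G W L0 : Finset V} (h : Loc A G W L0) {N : ℕ} {w : ℕ → V}
    (hC : Cy A (Lf A L0) N w)
    (hc : (∃ e f, A (w e) (w f) ∧ ∀ g, A (w e) (w g) → w g = w f) ∨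
      (∃ e f, A (w f) (w e) ∧ ∀ g, A (w g) (w e) → w g = w f)) :
    DirF A w ∨ DirF (fun a b => A b a) w := by
  have hL0 : ∀ i, w i ∈ L0 := fun i => (Finset.mem_filter.1 (hC.mem i)).1
  have hin3 : ∀ i, ind A (w i) L0 = 3 := fun i => (Finset.mem_filter.1 (hC.mem i)).2
  have hG : ∀ i, w i ∈ G := fun i => h.WG (h.L0W (hL0 i))
  have hne : ∀ {a b : V}, A a b → b ≠ a := by
    intro a b hab he
    rw [he] at hab
    exact h.loop a hab
  have key : ∃ (κ : ℕ) (ψ : ℕ → V → ℕ), (∀ i, Tok A G (w i) (ψ i)) ∧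
      ∀ i j, w j ≠ w i → ψ i (w j) = κ := by
    rcases hc with ⟨e, f, hef, hu⟩ | ⟨e, f, hef, hu⟩
    · have h3 : (G.filter (fun y => A (w e) y)).card = 3 := h.out3 _ (hL0 e)
      have hf : w f ∈ G.filter (fun y => A (w e) y) := Finset.mem_filter.2 ⟨hG f, hef⟩
      obtain ⟨n1, n2, m1, m2, d1, d2, d3⟩ := dirO_three h3 hf
      rw [Finset.mem_filter] at m1 m2
      refine rotC h hC (e := e) (f := f) (n1 := n1) (n2 := n2) ?_ ?_ (hne hef) ?_
      · intro t ht
        rw [ht] at m1 d1
        exact d1 (hu t m1.2)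
      · intro t ht
        rw [ht] at m2 d2
        exact d2 (hu t m2.2)
      · intro ψ hψ
        refine ⟨hψ.2.1 _ (hG f) (hne hef), hψ.2.1 _ m1.1 (hne m1.2), hψ.2.1 _ m2.1 (hne m2.2),
          ?_, ?_, ?_⟩
        · intro hh
          exact d1 (h.outinj _ (hL0 e) ψ hψ _ (hG f) _ m1.1 hef m1.2 hh).symm
        · intro hh
          exact d2 (h.outinj _ (hL0 e) ψ hψ _ (hG f) _ m2.1 hef m2.2 hh).symm
        · intro hh
          exact d3 (h.outinj _ (hL0 e) ψ hψ _ m1.1 _ m2.1 m1.2 m2.2 hh)
    · have h3 : (L0.filter (fun y => A y (w e))).card = 3 := hin3 e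
      have hf : w f ∈ L0.filter (fun y => A y (w e)) := Finset.mem_filter.2 ⟨hL0 f, hef⟩
      obtain ⟨n1, n2, m1, m2, d1, d2, d3⟩ := dirO_three h3 hf
      rw [Finset.mem_filter] at m1 m2
      have hLG : ∀ x ∈ L0, x ∈ G := fun x hx => h.WG (h.L0W hx)
      have hne' : ∀ {a : V}, A a (w e) → a ≠ w e := by
        intro a hab he
        rw [he] at hab
        exact h.loop _ hab
      refine rotC h hC (e := e) (f := f) (n1 := n1) (n2 := n2) ?_ ?_ (hne' hef) ?_
      · intro t ht
        rw [ht] at m1 d1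
        exact d1 (hu t m1.2)
      · intro t ht
        rw [ht] at m2 d2
        exact d2 (hu t m2.2)
      · intro ψ hψ
        have hW := h.L0W (hL0 e)
        refine ⟨hψ.2.1 _ (hG f) (hne' hef), hψ.2.1 _ (hLG _ m1.1) (hne' m1.2),
          hψ.2.1 _ (hLG _ m2.1) (hne' m2.2), ?_, ?_, ?_⟩
        · intro hh
          exact d1 (h.ininj _ hW ψ hψ _ (hL0 f) _ m1.1 hef m1.2 hh).symm
        · intro hh
          exact d2 (h.ininj _ hW ψ hψ _ (hL0 f) _ m2.1 hef m2.2 hh).symm
        · intro hh
          exact d3 (h.ininj _ hW ψ hψ _ m1.1 _ m2.1 m1.2 m2.2 hh)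
  obtain ⟨κ, ψ, hT, hk⟩ := key
  have uo : ∀ i j k, A (w i) (w j) → A (w i) (w k) → w j = w k := by
    intro i j k h1 h2
    refine h.outinj _ (hL0 i) _ (hT i) _ (hG j) _ (hG k) h1 h2 ?_
    rw [hk i j (hne h1), hk i k (hne h2)]
  have ui : ∀ i j k, A (w j) (w i) → A (w k) (w i) → w j = w k := by
    intro i j k h1 h2
    refine h.ininj _ (h.L0W (hL0 i)) _ (hT i) _ (hL0 j) _ (hL0 k) h1 h2 ?_
    rw [hk i j (fun he => hne h1 he.symm), hk i k (fun he => hne h2 he.symm)]
  rcases hC.adj 0 with h0 | h0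
  · left
    have hall : ∀ i, A (w i) (w (i + 1)) := by
      intro i
      induction i with
      | zero => exact h0
      | succ i ih =>
        rcases hC.adj (i + 1) with h1 | h1
        · exact h1
        · exact absurd (ui (i + 1) i (i + 1 + 1) ih h1) (cy_ne_two hC i)
    exact ⟨hall, fun i j hij => uo i j (i + 1) hij (hall i)⟩
  · right
    have hall : ∀ i, A (w (i + 1)) (w i) := by
      intro i
      induction i with
      | zero => exact h0
      | succ i ih =>
        rcases hC.adj (i + 1) with h1 | h1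
        · exact absurd (uo (i + 1) i (i + 1 + 1) ih h1) (cy_ne_two hC i)
        · exact h1
    exact ⟨hall, fun i j hij => ui i j (i + 1) hij (hall i)⟩

end Pool.Agent.DBP
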