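import Pool.Agent.DBP.CyA

/-! # DBP: different bidirected cycles are disjoint

Let `Y` be the set of all `w' t`. The common vertex `v = w i = w' j` has on each of the two cycles two neighbours (digons), and at most three
out-neighbours in `L`; so the cycles share another vertex. Let `a` be the least and `b` the largest index in `(0, N)` with `w a ∈ Y`, `w b ∈ Y`; so
`0 < a < b < N`. Shift `w'` so that `w' 0 = w a`, and let `w b = w' k`, `0 < k < N'`. The two closed sequences
`w b, w (b+1), ..., w (N-1), w 0, ..., w (a-1), w' 0, w' 1, ..., w' (k-1)` (length `(N - b) + a + k`) and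
`w b, ..., w (a-1), w' N', w' (N'-1), ..., w' (k+1)` (length `(N - b) + a + (N' - k)`) are bidirected cycles in `L` (`cy_mk`, `bid_mk`; of length at least
three). By `odd_of_tri` both lengths and `N'` are odd; but the sum of the two lengths is `2 (N - b + a) + N'`, which is odd. Contradiction.
-/

namespace Pool.Agent.DBP

open Finset Pool.Agent.DBK
open scoped Classical

variable {V : Type*} {A : V → V → Prop}


theorem disj_glue {L : Finset V} (ht : Tri A L) {N : ℕ} {w : ℕ → V} (hC : Cy A L N w)
    (hb : Bid A w) {a b : ℕ} (ha : 0 < a) (hab : a < b) (hbN : b < N) {l : ℕ} (hl : 1 ≤ l)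
    (z : ℕ → V) (z0 : z 0 = w a) (zl : z l = w b)
    (zadj : ∀ t < l, A (z t) (z (t + 1)) ∧ A (z (t + 1)) (z t))
    (zinj : ∀ s t, s ≤ l → t ≤ l → z s = z t → s = t) (zmem : ∀ t ≤ l, z t ∈ L)
    (zout : ∀ s ≤ l, ∀ t, z s = w t → a ≤ t % N ∧ t % N ≤ b) : Odd (N - b + a + l) := by
  have hN0 : 0 < N := by omega
  set p := N - b + a with hp
  set u : ℕ → V := fun t => if t < p then w (b + t) else z (t - p) with hu
  have ut1 : ∀ t, t < p → u t = w (b + t) := fun t h => by simp only [hu, if_pos h]
  have ut2 : ∀ t, ¬ t < p → u t = z (t - p) := fun t h => by simp only [hu, if_neg h]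
  have hcross : ∀ t s, t < p → s < l → w (b + t) ≠ z s := by
    intro t s h1 h2 h3
    obtain ⟨h4, h5⟩ := zout s h2.le (b + t) h3.symm
    rcases Nat.lt_or_ge (b + t) N with h6 | h6
    · rw [Nat.mod_eq_of_lt h6] at h4 h5
      have h7 : t = 0 := by omega
      rw [h7, Nat.add_zero, ← zl] at h3
      have := zinj _ _ le_rfl h2.le h3
      omega
    · have h7 : (b + t) % N = b + t - N := by
        rw [Nat.mod_eq_sub_mod h6, Nat.mod_eq_of_lt (by omega)]
      rw [h7] at h4
      omega
  have huinj : ∀ s t, s < p + l → t < p + l → u s = u t → s = t := by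
    intro s t hs hs' he
    by_cases h1 : s < p
    · by_cases h2 : t < p
      · rw [ut1 s h1, ut1 t h2, cy_eq_iff hC] at he
        have h3 : s % N = t % N := Nat.ModEq.add_left_cancel' b he
        rwa [Nat.mod_eq_of_lt (by omega), Nat.mod_eq_of_lt (by omega)] at h3
      · rw [ut1 s h1, ut2 t h2] at he
        exact absurd he (hcross s (t - p) h1 (by omega))
    · by_cases h2 : t < p
      · rw [ut2 s h1, ut1 t h2] at he
        exact absurd he.symm (hcross t (s - p) h2 (by omega))
      · rw [ut2 s h1, ut2 t h2] at he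
        have := zinj _ _ (by omega) (by omega) he
        omega
  have humem : ∀ t < p + l, u t ∈ L := by
    intro t h
    by_cases h1 : t < p
    · rw [ut1 t h1]; exact hC.mem _
    · rw [ut2 t h1]; exact zmem _ (by omega)
  have huadj : ∀ t, t + 1 < p + l → A (u t) (u (t + 1)) ∧ A (u (t + 1)) (u t) := by
    intro t h
    by_cases h1 : t + 1 < p
    · rw [ut1 t (by omega), ut1 (t + 1) h1]
      exact hb (b + t)
    · by_cases h2 : t < p
      · have h3 : t + 1 - p = 0 := by omega
        rw [ut1 t h2, ut2 (t + 1) h1, h3, z0]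
        have h4 : w a = w (b + t + 1) := by
          rw [show b + t + 1 = a + N by omega]
          exact (hC.per a).symm
        rw [h4]
        exact hb (b + t)
      · rw [ut2 t h2, ut2 (t + 1) h1, show t + 1 - p = t - p + 1 by omega]
        exact zadj (t - p) (by omega)
  have hucl : A (u (p + l - 1)) (u 0) ∧ A (u 0) (u (p + l - 1)) := by
    rw [ut1 0 (by omega), ut2 (p + l - 1) (by omega), Nat.add_zero, ← zl]
    have h3 := zadj (l - 1) (by omega)
    rw [show l - 1 + 1 = l by omega] at h3
    rw [show p + l - 1 - p = l - 1 by omega]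
    exact h3
  have hn3 : 3 ≤ p + l := by omega
  have hcy := cy_mk (A := A) hn3 huinj humem (fun i hi => Or.inl (huadj i hi).1) (Or.inl hucl.1)
  exact odd_of_tri ht hcy (bid_mk hn3 huadj hucl)

theorem bid_disj {L : Finset V} (hout : ∀ v ∈ L, outd A v L ≤ 3) (ht : Tri A L) {N N' : ℕ}
    {w w' : ℕ → V} (hC : Cy A L N w) (hC' : Cy A L N' w') (hb : Bid A w) (hb' : Bid A w')
    (h0 : ∀ t, w 0 ≠ w' t) (hx : ∃ i j, w i = w' j) : False := by
  obtain ⟨i, j, hij⟩ := hx
  have hN3 := hC.N3
  have hN3' := hC'.N3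
  have hmod : ∀ i, w (i % N) = w i := by
    intro i
    rw [cy_eq_iff hC, Nat.mod_mod]
  -- two common vertices
  have hpq : w (i + N - 1 + 1) = w' (j + N' - 1 + 1) := by
    rw [show i + N - 1 + 1 = i + N by omega, show j + N' - 1 + 1 = j + N' by omega, hC.per,
      hC'.per, hij]
  set p := i + N - 1 with hp
  set q := j + N' - 1 with hq
  have hex : ∃ p' q', w p' = w' q' ∧ w p' ≠ w (p + 1) := by
    by_contra hcon
    push Not at hcon
    have e1 := hb p
    have e2 := hb (p + 1)
    have e1' := hb' q
    have e2' := hb' (q + 1)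
    rw [show p + 1 + 1 = p + 2 by omega] at e2
    rw [show q + 1 + 1 = q + 2 by omega] at e2'
    have hA : ∀ m n, (A (w (p + 1)) (w m)) → (A (w (m)) (w (p + 1))) → w m ≠ w' n →
        True := fun _ _ _ _ _ => trivial
    have hirr : ∀ t, w t ≠ w (t + 1) := by
      intro t he
      have h1 : (t + 0) % N = (t + 1) % N := (cy_eq_iff hC t (t + 1)).1 he
      have h2 : 0 % N = 1 % N := Nat.ModEq.add_left_cancel' t h1
      rw [Nat.zero_mod, Nat.mod_eq_of_lt (show 1 < N by omega)] at h2
      omega
    have n1 : w p ≠ w' q := fun he => hirr p (hcon p q he)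
    have n2 : w p ≠ w' (q + 2) := fun he => hirr p (hcon p (q + 2) he)
    have n3 : w (p + 2) ≠ w' q := fun he => (hirr (p + 1)) (hcon (p + 2) q he).symm
    have n4 : w (p + 2) ≠ w' (q + 2) := fun he => (hirr (p + 1)) (hcon (p + 2) (q + 2) he).symm
    have n5 : w p ≠ w (p + 2) := cy_ne_two hC p
    have n6 : w' q ≠ w' (q + 2) := cy_ne_two hC' q
    have hsub : ({w p, w (p + 2), w' q, w' (q + 2)} : Finset V)
        ⊆ L.filter (fun y => A (w (p + 1)) y) := by
      intro x hx
      simp only [Finset.mem_insert, Finset.mem_singleton] at hx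
      rw [Finset.mem_filter]
      rcases hx with rfl | rfl | rfl | rfl
      · exact ⟨hC.mem _, e1.2⟩
      · exact ⟨hC.mem _, e2.1⟩
      · exact ⟨hC'.mem _, by rw [hpq]; exact e1'.2⟩
      · exact ⟨hC'.mem _, by rw [hpq]; exact e2'.1⟩
    have hcard : ({w p, w (p + 2), w' q, w' (q + 2)} : Finset V).card = 4 := by
      rw [Finset.card_insert_of_notMem, Finset.card_insert_of_notMem,
        Finset.card_insert_of_notMem, Finset.card_singleton]
      · simpa using n6
      · simp only [Finset.mem_insert, Finset.mem_singleton, not_or]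
        exact ⟨n3, n4⟩
      · simp only [Finset.mem_insert, Finset.mem_singleton, not_or]
        exact ⟨n5, n1, n2⟩
    have h4 := Finset.card_le_card hsub
    have h5 : (L.filter (fun y => A (w (p + 1)) y)).card ≤ 3 := hout _ (hC.mem _)
    omega
  obtain ⟨p', q', hpq', hne⟩ := hex
  set S : Finset ℕ := (Finset.range N).filter (fun t => ∃ j, w t = w' j) with hS
  have hmS : ∀ t j, w t = w' j → t % N ∈ S := by
    intro t j h
    rw [hS, Finset.mem_filter, Finset.mem_range]
    exact ⟨Nat.mod_lt _ (by omega), j, by rw [hmod]; exact h⟩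
  have hs1 := hmS _ _ hpq
  have hs2 := hmS _ _ hpq'
  have hSne : S.Nonempty := ⟨_, hs1⟩
  have hmin : ∀ t ∈ S, S.min' hSne ≤ t := fun t h => S.min'_le t h
  have hmax : ∀ t ∈ S, t ≤ S.max' hSne := fun t h => S.le_max' t h
  have haS := S.min'_mem hSne
  have hbS := S.max'_mem hSne
  set a := S.min' hSne with ha
  set b := S.max' hSne with hbb
  have hS0 : ∀ t ∈ S, 0 < t := by
    intro t h
    rcases Nat.eq_zero_or_pos t with h1 | h1
    · rw [hS, Finset.mem_filter] at h
      obtain ⟨_, j, hj⟩ := h
      rw [h1] at hj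
      exact absurd hj (h0 j)
    · exact h1
  have hab : a < b := by
    have h1 := hmin _ hs1
    have h2 := hmin _ hs2
    have h3 := hmax _ hs1
    have h4 := hmax _ hs2
    have h5 : p' % N ≠ (p + 1) % N := fun he => hne ((cy_eq_iff hC _ _).2 he)
    omega
  have hbN : b < N := by
    rw [hS, Finset.mem_filter, Finset.mem_range] at hbS
    exact hbS.1
  have ha0 := hS0 _ haS
  obtain ⟨ja, hja⟩ := (Finset.mem_filter.1 haS).2
  obtain ⟨jb, hjb⟩ := (Finset.mem_filter.1 hbS).2
  -- shift the second cycle
  set v : ℕ → V := fun t => w' (t + ja) with hv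
  have hCv : Cy A L N' v := cy_shift hC' ja
  have hbv : Bid A v := by
    intro t
    have := hb' (t + ja)
    rw [show t + ja + 1 = t + 1 + ja by omega] at this
    exact this
  have v0 : v 0 = w a := by
    show w' (0 + ja) = w a
    rw [Nat.zero_add, hja]
  have hvY : ∀ s t, v s = w t → a ≤ t % N ∧ t % N ≤ b := by
    intro s t h
    have h1 := hmS t (s + ja) h.symm
    exact ⟨hmin _ h1, hmax _ h1⟩
  obtain ⟨k, hkN, hk⟩ : ∃ k < N', v k = w b := by
    refine ⟨(jb + ja * N' - ja) % N', Nat.mod_lt _ (by omega), ?_⟩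
    have hle : ja ≤ ja * N' := Nat.le_mul_of_pos_right _ (by omega)
    have h1 : v ((jb + ja * N' - ja) % N') = v (jb + ja * N' - ja) := by
      rw [cy_eq_iff hCv, Nat.mod_mod]
    rw [h1]
    show w' (jb + ja * N' - ja + ja) = w b
    rw [show jb + ja * N' - ja + ja = jb + ja * N' by omega, hjb]
    exact (cy_eq_iff hC' _ _).2 (Nat.add_mul_mod_self_right _ _ _)
  have hwab : w a ≠ w b := by
    intro he
    have := hC.inj _ _ (by omega) hbN he
    omega
  have hk0 : 0 < k := by
    rcases Nat.eq_zero_or_pos k with h1 | h1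
    · rw [h1, v0] at hk
      exact absurd hk hwab
    · exact h1
  have vN : v N' = v 0 := by
    have := hCv.per 0
    rwa [Nat.zero_add] at this
  have o1 : Odd (N - b + a + k) := by
    refine disj_glue ht hC hb ha0 hab hbN hk0 v v0 hk (fun t _ => hbv t) ?_
      (fun t _ => hCv.mem t) (fun s _ t h => hvY s t h)
    intro s t hs hs' he
    exact hCv.inj _ _ (by omega) (by omega) he
  have o2 : Odd (N - b + a + (N' - k)) := by
    refine disj_glue ht hC hb ha0 hab hbN (by omega) (fun t => v (N' - t)) ?_ ?_ ?_ ?_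
      (fun t _ => hCv.mem _) (fun s _ t h => hvY _ t h)
    · show v (N' - 0) = w a
      rw [Nat.sub_zero, vN, v0]
    · show v (N' - (N' - k)) = w b
      rw [show N' - (N' - k) = k by omega, hk]
    · intro t h
      have h1 := hbv (N' - (t + 1))
      rw [show N' - (t + 1) + 1 = N' - t by omega] at h1
      exact ⟨h1.2, h1.1⟩
    · intro s t hs hs' he
      have h1 : (N' - s) % N' = (N' - t) % N' := (cy_eq_iff hCv _ _).1 he
      rcases Nat.eq_zero_or_pos s with h2 | h2
      · rcases Nat.eq_zero_or_pos t with h3 | h3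
        · omega
        · rw [h2, Nat.sub_zero, Nat.mod_self, Nat.mod_eq_of_lt (by omega)] at h1
          omega
      · rcases Nat.eq_zero_or_pos t with h3 | h3
        · rw [h3, Nat.sub_zero, Nat.mod_self, Nat.mod_eq_of_lt (by omega)] at h1
          omega
        · rw [Nat.mod_eq_of_lt (by omega), Nat.mod_eq_of_lt (by omega)] at h1
          omega
  have o3 : Odd N' := odd_of_tri ht hC' hb'
  obtain ⟨x1, h1⟩ := o1
  obtain ⟨x2, h2⟩ := o2
  obtain ⟨x3, h3⟩ := o3
  omega

end Pool.Agent.DBP
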