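import Pool.Agent.DBP.ExPD

/-! # DBP: few pairs which are not digons

Let `(z, w) ∈ hP`, `z ∈ T i`, `w ∈ T j`; `i ≠ j` (`h.Hin`). If `un i j` then it is one of the at most `9 U` pairs in `T i × T j` for the pairs `(i, j)` in
`h.uncard`. Otherwise `bd z j` (`h.Hbd`), and for each pair `(z, j)` in `h.bdcard` there are at most three `w ∈ T j`.
-/

namespace Pool.Agent.DBP

open Finset Pool.Agent.DBK
open scoped Classical

variable {V ι : Type*} {I : Finset ι} {T : ι → Finset V} {H : V → V → Prop}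
  {un : ι → ι → Prop} {bd : V → ι → Prop} {U B : ℕ}


theorem exPA (h : ExtP I T H un bd U B) : (hP I T H).card ≤ 9 * U + 3 * B := by
  have hsub : hP I T H ⊆
      ((I ×ˢ I).filter (fun p => p.1 ≠ p.2 ∧ un p.1 p.2)).biUnion (fun p => T p.1 ×ˢ T p.2) ∪
      (((I.biUnion T) ×ˢ I).filter (fun p => bd p.1 p.2)).biUnion
        (fun p => ({p.1} : Finset V) ×ˢ T p.2) := by
    rintro ⟨z, w⟩ hzw
    have h1 := mem_filter.1 hzw
    have h2 := mem_product.1 h1.1
    obtain ⟨i, hi, hzi⟩ := mem_biUnion.1 h2.1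
    obtain ⟨j, hj, hwj⟩ := mem_biUnion.1 h2.2
    have hne : i ≠ j := by
      intro he
      rw [← he] at hwj
      exact h.Hin i hi z hzi w hwj h1.2
    rw [mem_union, mem_biUnion, mem_biUnion]
    by_cases hu : un i j
    · left
      exact ⟨(i, j), mem_filter.2 ⟨mem_product.2 ⟨hi, hj⟩, hne, hu⟩, mem_product.2 ⟨hzi, hwj⟩⟩
    · right
      exact ⟨(z, j), mem_filter.2 ⟨mem_product.2 ⟨h2.1, hj⟩,
        h.Hbd i hi j hj hne hu z hzi w hwj h1.2⟩,
        mem_product.2 ⟨mem_singleton_self z, hwj⟩⟩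
  have hA : (((I ×ˢ I).filter (fun p => p.1 ≠ p.2 ∧ un p.1 p.2)).biUnion
      (fun p => T p.1 ×ˢ T p.2)).card ≤ 9 * U := by
    have h1 := card_biUnion_le_card_mul
      ((I ×ˢ I).filter (fun p => p.1 ≠ p.2 ∧ un p.1 p.2)) (fun p => T p.1 ×ˢ T p.2) 9 (by
        intro p hp
        have h2 := mem_product.1 (mem_filter.1 hp).1
        rw [card_product, h.card _ h2.1, h.card _ h2.2])
    have h3 := h.uncard
    calc _ ≤ _ := h1
      _ ≤ U * 9 := Nat.mul_le_mul_right _ h3
      _ = 9 * U := by ring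
  have hB : ((((I.biUnion T) ×ˢ I).filter (fun p => bd p.1 p.2)).biUnion
        (fun p => ({p.1} : Finset V) ×ˢ T p.2)).card ≤ 3 * B := by
    have h1 := card_biUnion_le_card_mul
      (((I.biUnion T) ×ˢ I).filter (fun p => bd p.1 p.2)) (fun p => ({p.1} : Finset V) ×ˢ T p.2) 3
      (by
        intro p hp
        have h2 := mem_product.1 (mem_filter.1 hp).1
        rw [card_product, h.card _ h2.2, card_singleton])
    have h3 := h.bdcard
    calc _ ≤ _ := h1
      _ ≤ B * 3 := Nat.mul_le_mul_right _ h3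
      _ = 3 * B := by ring
  calc _ ≤ _ := card_le_card hsub
    _ ≤ _ := card_union_le _ _
    _ ≤ _ := Nat.add_le_add hA hB

end Pool.Agent.DBP
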