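import Pool.Agent.DBK.MatA

/-! # DBP: the setting of the extraction

-/

namespace Pool.Agent.DBP

open Finset Pool.Agent.DBK
open scoped Classical

/-- The setting, with bounds on the total numbers of unjoined pairs and of bad incidences. -/
structure ExtP {V ι : Type*} (I : Finset ι) (T : ι → Finset V) (H : V → V → Prop)
    (un : ι → ι → Prop) (bd : V → ι → Prop) (U B : ℕ) : Prop where
  card : ∀ i ∈ I, (T i).card = 3
  disj : ∀ i ∈ I, ∀ j ∈ I, i ≠ j → Disjoint (T i) (T j)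
  Hsymm : ∀ u v, H u v → H v u
  Hirr : ∀ u, ¬ H u u
  Hin : ∀ i ∈ I, ∀ u ∈ T i, ∀ v ∈ T i, ¬ H u v
  uncard : ((I ×ˢ I).filter (fun p => p.1 ≠ p.2 ∧ un p.1 p.2)).card ≤ U
  bdcard : (((I.biUnion T) ×ˢ I).filter (fun p => bd p.1 p.2)).card ≤ B
  Hbd : ∀ i ∈ I, ∀ j ∈ I, i ≠ j → ¬ un i j → ∀ z ∈ T i, ∀ w ∈ T j, H z w → bd z j
  fl : ∀ z ∈ I.biUnion T, ∀ w ∈ I.biUnion T, ∀ z' ∈ I.biUnion T, ∀ w' ∈ I.biUnion T,
    z ≠ z' → z ≠ w' → w ≠ z' → w ≠ w' → H z w → H z' w' →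
    ((I.biUnion T).filter (fun u => u ≠ z ∧ u ≠ w ∧ u ≠ z' ∧ u ≠ w' ∧
      ¬ H u z ∧ ¬ H u w ∧ ¬ H u z' ∧ ¬ H u w')).card ≤ 5

/-- The number of `H`-neighbours. -/
noncomputable def dP {V ι : Type*} (I : Finset ι) (T : ι → Finset V) (H : V → V → Prop) (a : V) :
    ℕ := ((I.biUnion T).filter (fun u => H a u)).card

/-- The ordered pairs in `H`. -/
noncomputable def hP {V ι : Type*} (I : Finset ι) (T : ι → Finset V) (H : V → V → Prop) :
    Finset (V × V) := ((I.biUnion T) ×ˢ (I.biUnion T)).filter (fun p => H p.1 p.2)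

end Pool.Agent.DBP
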