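import Pool.Agent.DBP.SyA

/-! # DBP: every fibre of placing has four clean states

Copy `Pool/Agent/DBK/Fiber.lean` (with `cln_card`).
-/

namespace Pool.Agent.DBP

open Finset Pool.Agent.DBK
open scoped Classical

variable {V : Type*} [Fintype V] {m : ℕ} {A : V → V → Prop}


theorem fiberP {O : Finset (St V m)} (hS : SysP A m O) {i : Fin m} {s : St V m}
    (hs : s ∈ O) (hi : Cln A s i) :
    (O.filter (fun s' => Cln A s' i ∧ place s' i = place s i)).card = 4 := by
  have hT : ∀ y ∈ T A s i, y ∈ P s i := fun y hy => (Finset.mem_filter.mp hy).1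
  have hne : ∀ y ∈ T A s i, y ≠ s.1 := fun y hy =>
    (Finset.mem_filter.mp (hT y hy)).2.1
  have hset : O.filter (fun s' => Cln A s' i ∧ place s' i = place s i) =
      insert s ((T A s i).image (fun y => sw s i y)) := by
    ext s'
    simp only [Finset.mem_filter, Finset.mem_insert, Finset.mem_image]
    constructor
    · rintro ⟨h1, h2, h3⟩
      rcases hS.same s hs s' h1 i hi h2 h3.symm with h | ⟨y, hy, h⟩
      · exact Or.inl h
      · exact Or.inr ⟨y, hy, h.symm⟩
    · rintro (h | ⟨y, hy, h⟩)
      · subst h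
        exact ⟨hs, hi, rfl⟩
      · subst h
        obtain ⟨h1, h2⟩ := hS.swap s hs i hi y hy
        exact ⟨h1, h2, place_sw (hS.norm s hs) (Finset.mem_insert_of_mem (hT y hy))⟩
  rw [hset, Finset.card_insert_of_notMem, Finset.card_image_of_injOn, cln_card hS.loop (hS.norm s hs) hi]
  · intro y _ y' _ h
    exact congrArg Prod.fst h
  · intro h
    obtain ⟨y, hy, h⟩ := Finset.mem_image.mp h
    exact hne y hy (congrArg Prod.fst h)

end Pool.Agent.DBP
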