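import Pool.Agent.DBP.DefsP
import Pool.Agent.DBK.ColB

/-! # DBP: moves of a token with three out-neighbours

Exactly as in `Pool.Agent.DBK.TokB` (the out-versions), where `Crit3` was assumed: if no out-neighbour
of `x` in `G` has the colour `i`, then `x` can get the colour `i` (`exists_out` / `acy_insert_sink`), against `nc`; three
out-neighbours, three colours.
-/

namespace Pool.Agent.DBP

open Finset Pool.Agent.DBK
open scoped Classical

variable {V : Type*} {A : V → V → Prop}


theorem tok_col {G : Finset V} {x : V} {φ : V → ℕ} (h : Tok A G x φ) : Col A 3 (G.erase x) := by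
  refine ⟨φ, fun v hv => h.2.1 v (Finset.mem_of_mem_erase hv) (Finset.ne_of_mem_erase hv),
    fun i => ?_⟩
  refine acy_mono (h.2.2 i) ?_
  intro v hv
  exact ⟨Finset.mem_of_mem_erase hv.1, Finset.ne_of_mem_erase hv.1, hv.2⟩

theorem fwd_exists {G : Finset V} {x : V} {φ : V → ℕ} (hl : ¬ A x x) (nc : ¬ Col A 3 G)
    (h : Tok A G x φ) {i : ℕ} (hi : i < 3) : ∃ y ∈ G, y ≠ x ∧ A x y ∧ φ y = i := by
  by_contra hc
  push Not at hc
  apply nc
  refine ⟨Function.update φ x i, ?_, ?_⟩
  · intro v hv
    by_cases hvx : v = x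
    · subst hvx; simpa using hi
    · rw [Function.update_of_ne hvx]; exact h.2.1 v hv hvx
  · intro j
    by_cases hj : j = i
    · subst hj
      refine acy_mono (T := insert x {v | v ∈ G ∧ v ≠ x ∧ φ v = j})
        (acy_insert_sink (h.2.2 j) hl ?_) ?_
      · intro y hy hxy
        exact hc y hy.1 hy.2.1 hxy hy.2.2
      · intro v hv
        by_cases hvx : v = x
        · exact Or.inl hvx
        · right
          refine ⟨hv.1, hvx, ?_⟩
          have := hv.2
          rwa [Function.update_of_ne hvx] at this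
    · refine acy_mono (h.2.2 j) ?_
      intro v hv
      have hvx : v ≠ x := by
        rintro rfl
        have := hv.2
        rw [Function.update_self] at this
        exact hj this.symm
      refine ⟨hv.1, hvx, ?_⟩
      have := hv.2
      rwa [Function.update_of_ne hvx] at this

theorem fwd_range {G : Finset V} {x : V} {φ : V → ℕ} (hl : ¬ A x x) (nc : ¬ Col A 3 G)
    (h : Tok A G x φ) : Finset.range 3 ⊆ (G.filter (fun y => A x y)).image φ := by
  intro i hi
  obtain ⟨z, hz, _, hxz, hzi⟩ := fwd_exists hl nc h (Finset.mem_range.1 hi)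
  exact Finset.mem_image.2 ⟨z, Finset.mem_filter.2 ⟨hz, hxz⟩, hzi⟩

theorem tok_out_ge {G : Finset V} {x : V} {φ : V → ℕ} (hl : ¬ A x x) (nc : ¬ Col A 3 G)
    (h : Tok A G x φ) : 3 ≤ outd A x G := by
  have h1 := Finset.card_le_card (fwd_range hl nc h)
  rw [Finset.card_range] at h1
  exact h1.trans Finset.card_image_le

theorem fwd_inj {G : Finset V} {x : V} {φ : V → ℕ} (hl : ¬ A x x) (nc : ¬ Col A 3 G)
    (h : Tok A G x φ) (h3 : outd A x G = 3) {u v : V} (hu : u ∈ G) (hv : v ∈ G) (hxu : A x u)
    (hxv : A x v) (e : φ u = φ v) : u = v := by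
  have hcard : (G.filter (fun y => A x y)).card = 3 := h3
  have h1 := Finset.card_le_card (fwd_range hl nc h)
  rw [Finset.card_range] at h1
  have h2 : ((G.filter (fun y => A x y)).image φ).card = (G.filter (fun y => A x y)).card :=
    le_antisymm Finset.card_image_le (by rw [hcard]; exact h1)
  have hinj := Finset.card_image_iff.1 h2
  exact hinj (by simpa using ⟨hu, hxu⟩) (by simpa using ⟨hv, hxv⟩) e

theorem fwd_move {G : Finset V} {x : V} {φ : V → ℕ} (hl : ¬ A x x) (nc : ¬ Col A 3 G)
    (h : Tok A G x φ) (h3 : outd A x G = 3) {y : V} (hy : y ∈ G) (hxy : A x y) :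
    Tok A G y (Function.update φ x (φ y)) := by
  have hyx : y ≠ x := by
    rintro rfl
    exact hl hxy
  refine ⟨hy, ?_, ?_⟩
  · intro v hv hvy
    by_cases hvx : v = x
    · subst hvx; rw [Function.update_self]; exact h.2.1 y hy hyx
    · rw [Function.update_of_ne hvx]; exact h.2.1 v hv hvx
  · intro i
    by_cases hi : i = φ y
    · subst hi
      have hsub : {v | v ∈ G ∧ v ≠ y ∧ Function.update φ x (φ y) v = φ y} ⊆
          insert x ({v | v ∈ G ∧ v ≠ x ∧ φ v = φ y} \ {y}) := by
        intro v hv
        by_cases hvx : v = x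
        · exact Or.inl hvx
        · right
          refine ⟨⟨hv.1, hvx, ?_⟩, hv.2.1⟩
          have := hv.2.2
          rwa [Function.update_of_ne hvx] at this
      have hS : AcyclicOn A ({v | v ∈ G ∧ v ≠ x ∧ φ v = φ y} \ {y}) :=
        acy_mono (h.2.2 (φ y)) Set.sdiff_subset
      refine acy_mono ?_ hsub
      refine acy_insert_sink hS hl ?_
      intro z hz hxz
      exact hz.2 (fwd_inj hl nc h h3 hz.1.1 hy hxz hxy hz.1.2.2)
    · refine acy_mono (h.2.2 i) ?_
      intro v hv
      have hvx : v ≠ x := by
        rintro rfl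
        have := hv.2.2
        rw [Function.update_self] at this
        exact hi this.symm
      refine ⟨hv.1, hvx, ?_⟩
      have := hv.2.2
      rwa [Function.update_of_ne hvx] at this

end Pool.Agent.DBP
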