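import Pool.Agent.DBP.ValP
import Pool.Agent.DBP.Cnt

/-! # DBP: the states with the maximal number of colourings

`mem_Wt_iff`: for `y ∈ G = insert s.1 (P s j)`, `P (sw s j y) j = G.erase y`, the other parts and the rest are those of `s`
(`P_sw_self'`, `P_sw_other`, `P0_sw`, `sw_norm` in `DBK.ValB`). So `sw s j y` is valid iff `Col A 3 (G.erase y)`, and
`psi A (sw s j y) * N s.1 = psi A s * N y` with `N y = (cols A (G.erase y)).card`; the other factors are positive by validity
(`cols_pos`). By maximality `N y' ≤ N s.1` for all `y' ∈ G`; so `y ∈ Wt A G` iff `N y = N s.1` iff `psi A (sw s j y) = psi A s` and valid.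
-/

namespace Pool.Agent.DBP

open Finset Pool.Agent.DBK
open scoped Classical

variable {V : Type*} [Fintype V] {m : ℕ} {A : V → V → Prop}


theorem OO_valid {r : ℕ} {s : St V m} (hs : s ∈ OO A r) : Valid A r s :=
  (mem_filter.1 hs).2.1

theorem OO_nonempty {r : ℕ} (hB : BaseP A m r) : (OO A r : Finset (St V m)).Nonempty := by
  obtain ⟨s, hs⟩ := exists_validP hB
  have hne : ((univ : Finset (St V m)).filter (fun s => Valid A r s)).Nonempty :=
    ⟨s, mem_filter.2 ⟨mem_univ _, hs⟩⟩
  obtain ⟨t, ht, hmax⟩ := Finset.exists_max_image _ (fun s : St V m => psi A s) hne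
  exact ⟨t, mem_filter.2 ⟨mem_univ _, (mem_filter.1 ht).2, fun s' hs' =>
    hmax s' (mem_filter.2 ⟨mem_univ _, hs'⟩)⟩⟩

/-- the number of colourings after a swap -/
theorem psi_sw {s : St V m} (hn : s.2 s.1 = none) (j : Fin m) {y : V}
    (hy : y ∈ insert s.1 (P s j)) :
    psi A (sw s j y) = (cols A ((insert s.1 (P s j)).erase y)).card *
      ∏ i ∈ (univ : Finset (Fin m)).erase j, (cols A (P s i)).card := by
  unfold psi
  rw [← Finset.mul_prod_erase univ _ (mem_univ j), P_sw_self' hn hy]
  congr 1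
  refine Finset.prod_congr rfl fun i hi => ?_
  rw [P_sw_other hn (Finset.ne_of_mem_erase hi) hy]

theorem valid_sw_iff {r : ℕ} {s : St V m} (hs : Valid A r s) (j : Fin m) {y : V}
    (hy : y ∈ insert s.1 (P s j)) :
    Valid A r (sw s j y) ↔ Col A 3 ((insert s.1 (P s j)).erase y) := by
  obtain ⟨hn, hP, h0⟩ := hs
  constructor
  · intro h
    have h1 := h.2.1 j
    rwa [P_sw_self' hn hy] at h1
  · intro h
    refine ⟨sw_norm s j y, fun i => ?_, ?_⟩
    · by_cases hij : i = j
      · rw [hij, P_sw_self' hn hy]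
        exact h
      · rw [P_sw_other hn hij hy]
        exact hP i
    · rw [P0_sw hn hy]
      exact h0

theorem mem_Wt_iff {r : ℕ} {s : St V m} (hs : s ∈ OO A r) (j : Fin m) (y : V) :
    y ∈ Wt A (insert s.1 (P s j)) ↔ y ∈ insert s.1 (P s j) ∧ sw s j y ∈ OO A r := by
  have hv := OO_valid hs
  have hn := hv.1
  have hmax := (mem_filter.1 hs).2.2
  set G := insert s.1 (P s j) with hG
  set C := ∏ i ∈ (univ : Finset (Fin m)).erase j, (cols A (P s i)).card with hC
  have hCpos : 0 < C := Finset.prod_pos fun i _ => cols_pos.2 (hv.2.1 i)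
  have hsG : s.1 ∈ G := mem_insert_self _ _
  have hps : psi A s = (cols A (G.erase s.1)).card * C := by
    have h1 := psi_sw (A := A) hn j hsG
    rwa [sw_token hn] at h1
  have hle : ∀ y' ∈ G, (cols A (G.erase y')).card ≤ (cols A (G.erase s.1)).card := by
    intro y' hy'
    by_cases hc : Col A 3 (G.erase y')
    · have h1 := hmax _ ((valid_sw_iff hv j hy').2 hc)
      rw [psi_sw hn j hy', hps] at h1
      exact Nat.le_of_mul_le_mul_right h1 hCpos
    · have h0 : (cols A (G.erase y')).card = 0 := by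
        by_contra h
        exact hc (cols_pos.1 (Nat.pos_of_ne_zero h))
      rw [h0]
      exact Nat.zero_le _
  have hspos : 0 < (cols A (G.erase s.1)).card := by
    apply cols_pos.2
    have h1 := (valid_sw_iff hv j hsG).1
    rw [sw_token hn] at h1
    exact h1 hv
  unfold Wt
  rw [mem_filter]
  constructor
  · rintro ⟨hy, h⟩
    refine ⟨hy, ?_⟩
    have heq : (cols A (G.erase y)).card = (cols A (G.erase s.1)).card :=
      le_antisymm (hle y hy) (h _ hsG)
    refine mem_filter.2 ⟨mem_univ _, (valid_sw_iff hv j hy).2 (cols_pos.1 (heq ▸ hspos)), ?_⟩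
    intro s' hs'
    rw [psi_sw hn j hy]
    change psi A s' ≤ (cols A (G.erase y)).card * C
    rw [heq, ← hps]
    exact hmax s' hs'
  · rintro ⟨hy, h⟩
    refine ⟨hy, fun y' hy' => (hle y' hy').trans ?_⟩
    have h1 := (mem_filter.1 h).2.2 s hv
    rw [psi_sw hn j hy, hps] at h1
    exact Nat.le_of_mul_le_mul_right h1 hCpos

end Pool.Agent.DBP
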