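import Pool.Agent.DBP.PeelA
import Pool.Agent.DBP.Disj

/-! # DBP: few arcs between full tokens

`peelB`: induction on `S.card`. Take `p` from `peelA`. If `S = {p}` the sum is zero, `F = ∅`. Otherwise apply the induction
hypothesis to `S.erase p`; the sum for `S` is the sum for `S.erase p` plus `outd A p S + ind A p S`. If this is at most two, keep `F`. Otherwise add the set
`B = (range N).image w` of the bidirected cycle through `p`; `B` is disjoint from all members of `F` by `bid_disj` (they do not contain
`p`), `B.card = N ≥ 3`.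
`peelC`: `3 * F.card ≤ L.card` because the members of `F` are disjoint subsets of `L` with at least three elements.
-/

namespace Pool.Agent.DBP

open Finset Pool.Agent.DBK
open scoped Classical

variable {V : Type*} {A : V → V → Prop}


theorem sum_outd_erase (hl : ∀ v, ¬ A v v) {S : Finset V} {p : V} (hp : p ∈ S) :
    (∑ v ∈ S, outd A v S) =
      (outd A p S + ind A p S) + ∑ v ∈ S.erase p, outd A v (S.erase p) := by
  have h1 : ∀ v, outd A v S = outd A v (S.erase p) + (if A v p then 1 else 0) := by
    intro v
    unfold outd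
    by_cases hv : A v p
    · rw [if_pos hv]
      have : S.filter (fun y => A v y) = insert p ((S.erase p).filter (fun y => A v y)) := by
        ext y
        simp only [Finset.mem_filter, Finset.mem_insert, Finset.mem_erase]
        constructor
        · rintro ⟨h1, h2⟩
          by_cases hy : y = p
          · exact Or.inl hy
          · exact Or.inr ⟨⟨hy, h1⟩, h2⟩
        · rintro (h1 | ⟨⟨_, h1⟩, h2⟩)
          · exact ⟨h1 ▸ hp, h1 ▸ hv⟩
          · exact ⟨h1, h2⟩
      rw [this, Finset.card_insert_of_notMem]
      simp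
    · rw [if_neg hv, Nat.add_zero]
      congr 1
      ext y
      simp only [Finset.mem_filter, Finset.mem_erase]
      constructor
      · rintro ⟨h1, h2⟩
        exact ⟨⟨fun hy => hv (hy ▸ h2), h1⟩, h2⟩
      · rintro ⟨⟨_, h1⟩, h2⟩
        exact ⟨h1, h2⟩
  have h2 : ind A p S = ∑ v ∈ S.erase p, (if A v p then 1 else 0) := by
    rw [← Finset.card_filter]
    unfold ind
    congr 1
    ext y
    simp only [Finset.mem_filter, Finset.mem_erase]
    constructor
    · rintro ⟨h1, h2⟩
      exact ⟨⟨fun hy => hl p (hy ▸ h2), h1⟩, h2⟩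
    · rintro ⟨⟨_, h1⟩, h2⟩
      exact ⟨h1, h2⟩
  rw [← Finset.add_sum_erase S _ hp, Finset.sum_congr rfl (fun v _ => h1 v),
    Finset.sum_add_distrib, h2]
  ring

theorem peelB {L : Finset V} (hl : ∀ v, ¬ A v v) (hout : ∀ v ∈ L, outd A v L ≤ 3)
    (ht : Tri A L) : ∀ S ⊆ L, S.Nonempty → ∃ F : Finset (Finset V),
      (∀ B ∈ F, B ⊆ S ∧ 3 ≤ B.card ∧ IsBic A L B) ∧
      (∀ B ∈ F, ∀ B' ∈ F, B ≠ B' → Disjoint B B') ∧
      (∑ v ∈ S, outd A v S) + 2 ≤ 2 * S.card + 2 * F.card := by
  have key : ∀ n, ∀ S ⊆ L, S.card = n + 1 → ∃ F : Finset (Finset V),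
      (∀ B ∈ F, B ⊆ S ∧ 3 ≤ B.card ∧ IsBic A L B) ∧
      (∀ B ∈ F, ∀ B' ∈ F, B ≠ B' → Disjoint B B') ∧
      (∑ v ∈ S, outd A v S) + 2 ≤ 2 * S.card + 2 * F.card := by
    intro n
    induction n with
    | zero =>
      intro S _ hc
      obtain ⟨a, rfl⟩ := Finset.card_eq_one.1 hc
      refine ⟨∅, by simp, by simp, ?_⟩
      have h0 : outd A a {a} = 0 := by
        unfold outd
        rw [Finset.card_eq_zero, Finset.filter_eq_empty_iff]
        intro y hy
        rw [Finset.mem_singleton.1 hy]
        exact hl a
      rw [Finset.sum_singleton, h0]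
      simp
    | succ n ih =>
      intro S hS hc
      have hne : S.Nonempty := Finset.card_pos.1 (by omega)
      obtain ⟨p, hp, hcase⟩ := peelA hl ht hS hne
      have hcp : (S.erase p).card = n + 1 := by
        rw [Finset.card_erase_of_mem hp, hc]
        rfl
      obtain ⟨F, hF1, hF2, hF3⟩ := ih (S.erase p) ((Finset.erase_subset _ _).trans hS) hcp
      have hsum := sum_outd_erase hl hp
      rcases hcase with h2 | ⟨h4, N, w, hC, hb, hwS, hw0⟩
      · refine ⟨F, fun B hB => ⟨(hF1 B hB).1.trans (Finset.erase_subset _ _), (hF1 B hB).2⟩,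
          hF2, ?_⟩
        omega
      · have hN := hC.N3
        have hmem : ∀ {N' : ℕ} {w' : ℕ → V}, Cy A L N' w' → ∀ t, w' t ∈ (range N').image w' := by
          intro N' w' hC' t
          have hN' := hC'.N3
          refine Finset.mem_image.2 ⟨t % N', Finset.mem_range.2 (Nat.mod_lt _ (by omega)), ?_⟩
          exact (cy_eq_iff hC' _ _).2 (Nat.mod_mod _ _)
        have hpB : p ∈ (range N).image w := hw0 ▸ hmem hC 0
        have hBF : (range N).image w ∉ F := by
          intro hB
          have := (hF1 _ hB).1 hpB
          simp at this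
        have hdis : ∀ B' ∈ F, Disjoint ((range N).image w) B' := by
          intro B' hB'
          obtain ⟨hsub, _, N', w', hC', hb', rfl⟩ := hF1 B' hB'
          rw [Finset.disjoint_left]
          intro x hx hx'
          obtain ⟨i, _, hi⟩ := Finset.mem_image.1 hx
          obtain ⟨j, _, hj⟩ := Finset.mem_image.1 hx'
          refine bid_disj hout ht hC hC' hb hb' ?_ ⟨i, j, hi.trans hj.symm⟩
          intro t hteq
          have := hsub (hmem hC' t)
          rw [← hteq, hw0] at this
          simp at this
        refine ⟨insert ((range N).image w) F, ?_, ?_, ?_⟩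
        · intro B hB
          rcases Finset.mem_insert.1 hB with rfl | hB
          · refine ⟨?_, ?_, N, w, hC, hb, rfl⟩
            · intro x hx
              obtain ⟨i, _, rfl⟩ := Finset.mem_image.1 hx
              exact hwS i
            · rw [Finset.card_image_of_injOn, Finset.card_range]
              · exact hN
              · intro i hi j hj hij
                exact hC.inj i j (Finset.mem_range.1 hi) (Finset.mem_range.1 hj) hij
          · exact ⟨(hF1 B hB).1.trans (Finset.erase_subset _ _), (hF1 B hB).2⟩
        · intro B hB B' hB' hne'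
          rcases Finset.mem_insert.1 hB with rfl | hB
          · rcases Finset.mem_insert.1 hB' with rfl | hB'
            · exact absurd rfl hne'
            · exact hdis B' hB'
          · rcases Finset.mem_insert.1 hB' with rfl | hB'
            · exact (hdis B hB).symm
            · exact hF2 B hB B' hB' hne'
        · rw [Finset.card_insert_of_notMem hBF]
          omega
  intro S hS hne
  have : 0 < S.card := hne.card_pos
  exact key (S.card - 1) S hS (by omega)

theorem peelC {L : Finset V} (hl : ∀ v, ¬ A v v) (hout : ∀ v ∈ L, outd A v L ≤ 3)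
    (ht : Tri A L) : 3 * (∑ v ∈ L, outd A v L) ≤ 8 * L.card := by
  rcases L.eq_empty_or_nonempty with rfl | hne
  · simp
  obtain ⟨F, h1, h2, h3⟩ := peelB hl hout ht L (Finset.Subset.refl L) hne
  have h4 : (F.biUnion id).card = ∑ B ∈ F, B.card := by
    refine Finset.card_biUnion ?_
    intro B hB B' hB' hn
    exact h2 B hB B' hB' hn
  have h5 : (F.biUnion id).card ≤ L.card := by
    refine Finset.card_le_card ?_
    intro x hx
    obtain ⟨B, hB, hxB⟩ := Finset.mem_biUnion.1 hx
    exact (h1 B hB).1 hxB
  have h6 : F.card • 3 ≤ ∑ B ∈ F, B.card :=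
    Finset.card_nsmul_le_sum F _ 3 (fun B hB => (h1 B hB).2.1)
  rw [smul_eq_mul] at h6
  omega

end Pool.Agent.DBP
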