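import Pool.Agent.DBP.MkLoc
import Pool.Agent.DBP.ClosedClub
import Pool.Agent.DBP.Dich
import Pool.Agent.DBP.PeelB
import Pool.Agent.DBP.CntL

/-! # DBP: the local theorem

`mkLoc` with `W = Wt A G`, `L0` its vertices of out-degree three in `G`. If there is a nonempty `R ⊆ L0` without arcs to `G \ R`, `closed_club` says that `W = R` is a
biclique of order four, so `ClubAt A G y` for all `y ∈ W` (the out-neighbours of `y` in `G` are the three other vertices). Otherwise `NoClub A G L0`, so `tri`, `peelC`
(`outd A v L ≤ outd A v G = 3`), `cntL` (`hin`: for a token `y ∈ W` and a colouring, `h.ininj` maps the in-neighbours of `y` in `L0` injectively to the three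
colours). The vertices of `W \ L0` have out-degree at least four in `G` (`tok_out_ge`).
-/

namespace Pool.Agent.DBP

open Finset Pool.Agent.DBK
open scoped Classical

variable {V : Type*} [Fintype V] {A : V → V → Prop}


theorem locT {G : Finset V} (hl : ∀ v, ¬ A v v) (nc : ¬ Col A 3 G)
    (hpos : ∃ y ∈ G, Col A 3 (G.erase y)) :
    (∀ y ∈ Wt A G, ClubAt A G y) ∨
      (Wt A G).card ≤ 31 * ((Wt A G).filter (fun y => 4 ≤ outd A y G)).card := by
  have h := mkLoc hl nc hpos
  set W := Wt A G with hW
  set L0 := W.filter (fun y => outd A y G = 3) with hL0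
  by_cases hnc : NoClub A G L0
  · right
    have ht := tri h hnc
    have hout : ∀ v ∈ Lf A L0, outd A v (Lf A L0) ≤ 3 := by
      intro v hv
      have hv0 : v ∈ L0 := (mem_filter.1 hv).1
      rw [← h.out3 v hv0]
      unfold outd
      refine card_le_card (filter_subset_filter _ ?_)
      intro u hu
      exact h.WG (h.L0W (mem_filter.1 hu).1)
    have he := peelC hl hout ht
    have hin : ∀ y ∈ W, ind A y L0 ≤ 3 := by
      intro y hy
      obtain ⟨φ, hφ⟩ := h.tok y hy
      have h1 : ((L0.filter (fun u => A u y)).image φ) ⊆ range 3 := by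
        intro c hc
        obtain ⟨u, hu, rfl⟩ := mem_image.1 hc
        obtain ⟨hu0, huy⟩ := mem_filter.1 hu
        rw [mem_range]
        refine hφ.2.1 u (h.WG (h.L0W hu0)) ?_
        rintro rfl
        exact hl _ huy
      have h2 := card_le_card h1
      rw [card_range, card_image_of_injOn] at h2
      · exact h2
      · intro u hu v hv e
        obtain ⟨hu0, huy⟩ := mem_filter.1 (mem_coe.1 hu)
        obtain ⟨hv0, hvy⟩ := mem_filter.1 (mem_coe.1 hv)
        exact h.ininj y hy φ hφ u hu0 v hv0 huy hvy e
    refine (cntL h hin he).trans (Nat.mul_le_mul_left _ (card_le_card ?_))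
    intro y hy
    obtain ⟨hyW, hy0⟩ := mem_sdiff.1 hy
    refine mem_filter.2 ⟨hyW, ?_⟩
    obtain ⟨φ, hφ⟩ := h.tok y hyW
    have h3 := tok_out_ge (hl y) nc hφ
    have h4 : outd A y G ≠ 3 := fun e => hy0 (mem_filter.2 ⟨hyW, e⟩)
    omega
  · left
    unfold NoClub at hnc
    push Not at hnc
    obtain ⟨R, hR, hne, hcl⟩ := hnc
    obtain ⟨h4, hb, hWR⟩ := closed_club h hR hne hcl
    intro y hy
    have hyR : y ∈ R := hWR ▸ hy
    have hsub : clubOf A G y ⊆ R := by
      intro u hu
      rcases mem_insert.1 hu with e | hu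
      · rw [e]; exact hyR
      · obtain ⟨huG, hyu⟩ := mem_filter.1 hu
        exact hcl y hyR u huG hyu
    intro u hu
    refine ⟨h.out3 u (hR (hsub hu)), ?_⟩
    intro v hv huv
    exact hb u (hsub hu) v (hsub hv) huv

end Pool.Agent.DBP
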