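import Pool.Agent.DBP.GlA
import Pool.Agent.DBP.LocT

/-! # DBP: unclean parts and out-degrees

`fib_count`: partition both sides according to the value of `place s j` (`card_eq_sum_card_fiberwise`). For `s ∈ OO`, `G = insert s.1 (P s j)`,
the states `s' ∈ OO` with `place s' j = place s j` are the states `sw s j y`, `y ∈ Wt A G` (`eq_sw_of_place`, `P_self`, `mem_Wt_iff`, `place_sw`), different for different
`y`, with the same set `G`; `Cln A s' j` is `ClubAt A G s'.1` and `outd A s'.1 (P s' j) = outd A s'.1 G`. Use `locT`: either all of them are clean, or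
their number is at most `31` times the number of those with out-degree at least four.
`avg_bad`: exchange the sums over `s` and `j`, use `fib_count` and `out_bad`.
-/

namespace Pool.Agent.DBP

open Finset Pool.Agent.DBK
open scoped Classical

variable {V : Type*} [Fintype V] {m : ℕ} {A : V → V → Prop}


theorem fib_eq {r : ℕ} {s : St V m} (hs : s ∈ OO A r) (j : Fin m) :
    (OO A r).filter (fun s' : St V m => place s' j = place s j) =
      (Wt A (insert s.1 (P s j))).image (fun y => sw s j y) := by
  have hn := (OO_valid hs).1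
  ext s'
  rw [mem_filter, mem_image]
  constructor
  · rintro ⟨hs', hp⟩
    have hn' := (OO_valid hs').1
    have he := eq_sw_of_place hn' hp.symm
    have hmem : s'.1 ∈ insert s.1 (P s j) := by
      rw [P_self hn, mem_filter, ← hp]
      exact ⟨mem_univ _, vB_place_self s' j⟩
    exact ⟨s'.1, (mem_Wt_iff hs j _).2 ⟨hmem, he ▸ hs'⟩, he.symm⟩
  · rintro ⟨y, hy, rfl⟩
    obtain ⟨h1, h2⟩ := (mem_Wt_iff hs j y).1 hy
    exact ⟨h2, place_sw hn h1⟩

theorem sw_insert {s : St V m} (hn : s.2 s.1 = none) (j : Fin m) {y : V}
    (hy : y ∈ insert s.1 (P s j)) :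
    insert (sw s j y).1 (P (sw s j y) j) = insert s.1 (P s j) := by
  rw [P_self (sw_norm s j y), P_self hn, place_sw hn hy]

theorem fib_count {r : ℕ} (hB : BaseP A m r) (j : Fin m) :
    ((OO A r).filter (fun s : St V m => ¬ Cln A s j)).card ≤
      31 * ((OO A r).filter (fun s : St V m => 4 ≤ outd A s.1 (P s j))).card := by
  rw [Finset.card_eq_sum_card_fiberwise (f := fun s : St V m => place s j)
      (t := (univ : Finset (V → Option (Fin m)))) (fun _ _ => mem_coe.2 (mem_univ _)),
    Finset.card_eq_sum_card_fiberwise (f := fun s : St V m => place s j)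
      (s := (OO A r).filter (fun s : St V m => 4 ≤ outd A s.1 (P s j)))
      (t := (univ : Finset (V → Option (Fin m)))) (fun _ _ => mem_coe.2 (mem_univ _)),
    Finset.mul_sum]
  refine Finset.sum_le_sum fun q _ => ?_
  rw [Finset.filter_filter, Finset.filter_filter]
  by_cases hne : ∃ s ∈ (OO A r : Finset (St V m)), place s j = q
  swap
  · have h0 : (OO A r).filter (fun s : St V m => ¬ Cln A s j ∧ place s j = q) = ∅ := by
      rw [Finset.filter_eq_empty_iff]
      exact fun s hs h => hne ⟨s, hs, h.2⟩
    rw [h0, card_empty]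
    exact Nat.zero_le _
  obtain ⟨s, hs, rfl⟩ := hne
  have hn := (OO_valid hs).1
  have hfib := fib_eq hs j
  have hinj : Function.Injective (fun y => sw s j y) := by
    intro y y' h
    exact congrArg Prod.fst h
  have hcard : ∀ (p : St V m → Prop) [DecidablePred p],
      ((OO A r).filter (fun s' : St V m => p s' ∧ place s' j = place s j)).card =
        ((Wt A (insert s.1 (P s j))).filter (fun y => p (sw s j y))).card := by
    intro p _
    have e1 : (OO A r).filter (fun s' : St V m => p s' ∧ place s' j = place s j) =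
        ((OO A r).filter (fun s' : St V m => place s' j = place s j)).filter p := by
      rw [Finset.filter_filter]
      exact Finset.filter_congr fun s' _ => and_comm
    rw [e1, hfib, Finset.filter_image, Finset.card_image_of_injective _ hinj]
  rw [hcard (fun s' => ¬ Cln A s' j), hcard (fun s' => 4 ≤ outd A s'.1 (P s' j))]
  have hout : ∀ y ∈ Wt A (insert s.1 (P s j)),
      outd A (sw s j y).1 (P (sw s j y) j) = outd A y (insert s.1 (P s j)) := by
    intro y hy
    have hyG := ((mem_Wt_iff hs j y).1 hy).1
    rw [P_sw_self' hn hyG, vB_sw_fst]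
    unfold outd
    congr 1
    ext v
    rw [mem_filter, mem_filter, mem_erase]
    constructor
    · rintro ⟨⟨_, h1⟩, h2⟩
      exact ⟨h1, h2⟩
    · rintro ⟨h1, h2⟩
      refine ⟨⟨?_, h1⟩, h2⟩
      rintro rfl
      exact hB.loop _ h2
  have hcln : ∀ y ∈ Wt A (insert s.1 (P s j)),
      (Cln A (sw s j y) j ↔ ClubAt A (insert s.1 (P s j)) y) := by
    intro y hy
    have hyG := ((mem_Wt_iff hs j y).1 hy).1
    unfold Cln
    rw [sw_insert hn j hyG, vB_sw_fst]
  have e2 : (Wt A (insert s.1 (P s j))).filter
      (fun y => 4 ≤ outd A (sw s j y).1 (P (sw s j y) j)) =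
      (Wt A (insert s.1 (P s j))).filter (fun y => 4 ≤ outd A y (insert s.1 (P s j))) :=
    Finset.filter_congr fun y hy => by rw [hout y hy]
  rw [e2]
  have hpos : ∃ y ∈ insert s.1 (P s j), Col A 3 ((insert s.1 (P s j)).erase y) := by
    refine ⟨s.1, mem_insert_self _ _, ?_⟩
    rw [Finset.erase_insert (fun h => (vB_mem_P.1 h).1 rfl)]
    exact (OO_valid hs).2.1 j
  rcases locT hB.loop (validP_part hB (OO_valid hs) j) hpos with h | h
  · have h0 : (Wt A (insert s.1 (P s j))).filter (fun y => ¬ Cln A (sw s j y) j) = ∅ := by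
      rw [Finset.filter_eq_empty_iff]
      exact fun y hy hc => hc ((hcln y hy).2 (h y hy))
    rw [h0, card_empty]
    exact Nat.zero_le _
  · exact (Finset.card_filter_le _ _).trans h

theorem avg_bad {r : ℕ} (hB : BaseP A m r) :
    ∑ s ∈ (OO A r : Finset (St V m)), (univ.filter (fun j => ¬ Cln A s j)).card ≤
      31 * (OO A r : Finset (St V m)).card := by
  have hsw : ∀ (p : St V m → Fin m → Prop) [∀ s j, Decidable (p s j)],
      ∑ s ∈ (OO A r : Finset (St V m)), (univ.filter (fun j => p s j)).card =
        ∑ j : Fin m, ((OO A r).filter (fun s : St V m => p s j)).card := by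
    intro p _
    simp only [Finset.card_filter]
    exact Finset.sum_comm
  rw [hsw (fun s j => ¬ Cln A s j)]
  calc ∑ j : Fin m, ((OO A r).filter (fun s : St V m => ¬ Cln A s j)).card
      ≤ ∑ j : Fin m, 31 * ((OO A r).filter (fun s : St V m => 4 ≤ outd A s.1 (P s j))).card :=
        Finset.sum_le_sum fun j _ => fib_count hB j
    _ = 31 * ∑ s ∈ (OO A r : Finset (St V m)),
          (univ.filter (fun j => 4 ≤ outd A s.1 (P s j))).card := by
        rw [← Finset.mul_sum, hsw (fun s j => 4 ≤ outd A s.1 (P s j))]
    _ ≤ 31 * ∑ _s ∈ (OO A r : Finset (St V m)), 1 :=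
        Nat.mul_le_mul_left _ (Finset.sum_le_sum fun s hs => out_bad hB (OO_valid hs))
    _ = 31 * (OO A r : Finset (St V m)).card := by
        rw [Finset.sum_const, smul_eq_mul, mul_one]

end Pool.Agent.DBP
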