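import Pool.Agent.DBP.DefsP
import Pool.Agent.DBK.SysA
import Pool.Agent.DBP.FwdA

/-! # DBP: clubs

`Cln A s j` is `ClubAt A G s.1` for `G = insert s.1 (P s j)`; `s.1 ∉ P s j`, so `clubOf A G s.1 = insert s.1 (T A s j)`. For `u ∈ T A s j` the
three out-neighbours of `u` in `G` are the three other vertices of the club. `comp_eqP`: `T A s j` is `z` together with the out-neighbours of `z` in
`P s j`. `outd_Vp`: see `deg_Vp` in `DBK.SysA`.
-/

namespace Pool.Agent.DBP

open Finset Pool.Agent.DBK
open scoped Classical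

variable {V : Type*} [Fintype V] {m : ℕ} {A : V → V → Prop}

theorem clubOf_eq {s : St V m} (hl : ∀ v, ¬ A v v) (j : Fin m) :
    clubOf A (insert s.1 (P s j)) s.1 = insert s.1 (T A s j) := by
  unfold clubOf T
  rw [filter_insert, if_neg (hl s.1)]

theorem fst_notMem_P (s : St V m) (j : Fin m) : s.1 ∉ P s j := by
  intro h
  simp only [P, mem_filter] at h
  exact h.2.1 rfl

theorem fst_notMem_T (s : St V m) (j : Fin m) : s.1 ∉ T A s j := by
  intro h
  exact fst_notMem_P s j (filter_subset _ _ h)

theorem cln_out {s : St V m} (hl : ∀ v, ¬ A v v) (hn : s.2 s.1 = none) {j : Fin m}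
    (h : Cln A s j) : outd A s.1 (P s j) = 3 := by
  have h1 := (h s.1 (mem_insert_self _ _)).1
  unfold outd at *
  rwa [filter_insert, if_neg (hl s.1)] at h1

theorem cln_card {s : St V m} (hl : ∀ v, ¬ A v v) (hn : s.2 s.1 = none) {j : Fin m}
    (h : Cln A s j) : (T A s j).card = 3 := cln_out hl hn h

theorem cln_bic {s : St V m} (hl : ∀ v, ¬ A v v) (hn : s.2 s.1 = none) {j : Fin m}
    (h : Cln A s j) : ∀ u ∈ insert s.1 (T A s j), ∀ v ∈ insert s.1 (T A s j), u ≠ v → A u v := by
  intro u hu v hv huv
  rw [← clubOf_eq hl] at hu hv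
  exact (h u hu).2 v hv huv

/-- The out-neighbours of a vertex of the club in the part are in the club. -/
theorem cln_closed {s : St V m} (hl : ∀ v, ¬ A v v) (hn : s.2 s.1 = none) {j : Fin m}
    (h : Cln A s j) {u v : V} (hu : u ∈ T A s j) (hv : v ∈ P s j) (huv : A u v) :
    v ∈ T A s j := by
  have hu' : u ∈ insert s.1 (T A s j) := mem_insert_of_mem hu
  have h1 : ((insert s.1 (P s j)).filter (fun y => A u y)).card = 3 := by
    have h0 := (h u (by rw [clubOf_eq hl]; exact hu')).1
    exact h0
  have h2 : (insert s.1 (T A s j)).erase u ⊆ (insert s.1 (P s j)).filter (fun y => A u y) := by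
    intro w hw
    rw [mem_erase] at hw
    refine mem_filter.2 ⟨?_, cln_bic hl hn h u hu' w hw.2 (Ne.symm hw.1)⟩
    rcases mem_insert.1 hw.2 with h3 | h3
    · rw [h3]; exact mem_insert_self _ _
    · exact mem_insert_of_mem (filter_subset _ _ h3)
  have h3 : ((insert s.1 (T A s j)).erase u).card = 3 := by
    rw [card_erase_of_mem hu', card_insert_of_notMem (fst_notMem_T s j), cln_card hl hn h]
  have h4 : (insert s.1 (T A s j)).erase u = (insert s.1 (P s j)).filter (fun y => A u y) :=
    eq_of_subset_of_card_le h2 (by rw [h1, h3])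
  have h5 : v ∈ (insert s.1 (T A s j)).erase u := by
    rw [h4]
    exact mem_filter.2 ⟨mem_insert_of_mem hv, huv⟩
  rcases mem_insert.1 (mem_of_mem_erase h5) with h6 | h6
  · rw [h6] at hv
    exact absurd hv (fst_notMem_P s j)
  · exact h6

/-- A criterion for clean parts. -/
theorem cln_mk {s : St V m} (hl : ∀ v, ¬ A v v) (hn : s.2 s.1 = none) {j : Fin m}
    (h3 : (T A s j).card = 3)
    (hb : ∀ u ∈ insert s.1 (T A s j), ∀ v ∈ insert s.1 (T A s j), u ≠ v → A u v)
    (hc : ∀ u ∈ T A s j, ∀ v ∈ P s j, A u v → v ∈ T A s j) : Cln A s j := by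
  intro u hu
  rw [clubOf_eq hl] at hu
  refine ⟨?_, ?_⟩
  · rcases mem_insert.1 hu with h | h
    · rw [h]
      unfold outd
      rw [filter_insert, if_neg (hl s.1)]
      exact h3
    · have h4 : (insert s.1 (P s j)).filter (fun y => A u y) = (insert s.1 (T A s j)).erase u := by
        ext w
        rw [mem_filter, mem_erase, mem_insert, mem_insert]
        constructor
        · rintro ⟨h5, h6⟩
          refine ⟨fun he => hl u (by rw [he] at h6; exact h6), ?_⟩
          rcases h5 with h5 | h5
          · exact Or.inl h5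
          · exact Or.inr (hc u h w h5 h6)
        · rintro ⟨h5, h6⟩
          refine ⟨?_, hb u hu w (mem_insert.2 h6) (Ne.symm h5)⟩
          rcases h6 with h6 | h6
          · exact Or.inl h6
          · exact Or.inr (filter_subset _ _ h6)
      unfold outd
      rw [h4, card_erase_of_mem hu, card_insert_of_notMem (fst_notMem_T s j), h3]
  · intro v hv huv
    rw [clubOf_eq hl] at hv
    exact hb u hu v hv huv

/-- Two clubs with a common vertex in the same part coincide. -/
theorem comp_eqP {s s' : St V m} (hl : ∀ v, ¬ A v v) (hn : s.2 s.1 = none)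
    (hn' : s'.2 s'.1 = none) {j : Fin m} (hc : Cln A s j) (hc' : Cln A s' j)
    (hP : P s j = P s' j) {z : V} (hz : z ∈ T A s j) (hz' : z ∈ T A s' j) :
    T A s j = T A s' j := by
  apply Finset.Subset.antisymm
  · intro w hw
    by_cases hzw : z = w
    · rw [← hzw]; exact hz'
    · exact cln_closed hl hn' hc' hz' (hP ▸ T_sub s j hw)
        (cln_bic hl hn hc z (mem_insert_of_mem hz) w (mem_insert_of_mem hw) hzw)
  · intro w hw
    by_cases hzw : z = w
    · rw [← hzw]; exact hz
    · exact cln_closed hl hn hc hz (hP ▸ T_sub s' j hw)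
        (cln_bic hl hn' hc' z (mem_insert_of_mem hz') w (mem_insert_of_mem hw) hzw)

theorem jnd_symm {s : St V m} {i j : Fin m} (h : Jnd A s i j) : Jnd A s j i := by
  obtain ⟨w, hw, z, hz, h1, h2, h3⟩ := h
  exact ⟨z, hz, w, hw, h2, h1, h3.symm⟩

theorem outd_Vp (hl : ∀ v, ¬ A v v) {s : St V m} {i j : Fin m} (hij : i ≠ j) :
    outd A s.1 (Vp s i j) = outd A s.1 (P s i) + outd A s.1 (P s j) := by
  have hd : Disjoint (P s i) (P s j) := by
    rw [Finset.disjoint_left]
    intro v hv hv'
    simp only [P, mem_filter, mem_univ, true_and] at hv hv'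
    exact hij (Option.some_injective _ (hv.2.symm.trans hv'.2))
  unfold outd Vp
  rw [filter_insert, if_neg (hl s.1), filter_union,
    card_union_of_disjoint (disjoint_filter_filter hd)]

end Pool.Agent.DBP
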