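import Pool.Agent.DBP.GlB
import Pool.Agent.DBP.SyA

/-! # DBP: the system of states

`swap`: let `G = insert s.1 (P s j)`, `y ∈ T A s j`. By `cnt_le` (`outd A s.1 G = 3`) the number of colourings of `G.erase y` is at least that of `G.erase s.1`, which is
maximal since `s.1 ∈ Wt A G` (`mem_Wt_iff` with `sw_token`); so `y ∈ Wt A G` and `sw s j y ∈ OO`. `Cln A (sw s j y) j`: the set is again `G` (`P_sw_self'`), and the club of `y` in `G` is the
club of `s.1` (`y` has exactly three out-neighbours in `G`, the other three vertices of the club). `same`: as in `OptSys`: `G` is the same set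
for `s` and `s'` (`P_self`); if `s'.1` were not in the club `K` of `s.1`, then `K ⊆ G.erase s'.1 = P s' j`, which is `Col A 3`; but `K` is a biclique of order four, which is not
`Col A 3`. So `s'.1 ∈ K`; use `eq_sw_of_place`, `sw_token`. `nc`, `cp`: `validP_part`, validity.
-/

namespace Pool.Agent.DBP

open Finset Pool.Agent.DBK
open scoped Classical

variable {V : Type*} [Fintype V] {m : ℕ} {A : V → V → Prop}

omit [Fintype V] in
theorem clubOf_card (hl : ∀ v, ¬ A v v) {G : Finset V} {y : V} (h : outd A y G = 3) :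
    (clubOf A G y).card = 4 := by
  unfold clubOf
  rw [Finset.card_insert_of_notMem (fun h' => hl y (mem_filter.1 h').2)]
  have h' : (G.filter (fun v => A y v)).card = 3 := h
  rw [h']

omit [Fintype V] in
theorem clubOf_eqG (hl : ∀ v, ¬ A v v) {G : Finset V} {x y : V} (hx : x ∈ G)
    (h : ClubAt A G x) (hy : y ∈ clubOf A G x) : clubOf A G y = clubOf A G x := by
  have hx3 := (h x (mem_insert_self _ _)).1
  have hy3 := (h y hy).1
  symm
  apply Finset.eq_of_subset_of_card_le
  · intro v hv
    by_cases hvy : v = y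
    · rw [hvy]
      exact mem_insert_self _ _
    · refine mem_insert_of_mem (mem_filter.2 ⟨?_, (h y hy).2 v hv (Ne.symm hvy)⟩)
      rcases mem_insert.1 hv with h1 | h1
      · rw [h1]
        exact hx
      · exact (mem_filter.1 h1).1
  · rw [clubOf_card hl hx3, clubOf_card hl hy3]

omit [Fintype V] in
theorem club_not_col (hl : ∀ v, ¬ A v v) {G : Finset V} {x : V} (h : ClubAt A G x) :
    ¬ Col A 3 (clubOf A G x) := by
  rintro ⟨φ, h1, h2⟩
  have hc := clubOf_card hl (h x (mem_insert_self _ _)).1
  obtain ⟨u, hu, v, hv, huv, hφ⟩ := Finset.exists_ne_map_eq_of_card_lt_of_maps_to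
    (s := clubOf A G x) (t := range 3) (by rw [hc, card_range]; norm_num)
    (f := φ) (fun v hv => mem_coe.2 (mem_range.2 (h1 v hv)))
  apply h2 (φ u) u
  refine Relation.TransGen.tail (Relation.TransGen.single (b := v) ?_) ?_
  · exact ⟨⟨hu, rfl⟩, ⟨hv, hφ.symm⟩, (h u hu).2 v hv huv⟩
  · exact ⟨⟨hv, hφ.symm⟩, ⟨hu, rfl⟩, (h v hv).2 u hu (Ne.symm huv)⟩

theorem sysP {r : ℕ} (hB : BaseP A m r) : SysP A m (OO A r : Finset (St V m)) := by
  refine ⟨hB.loop, fun s hs => (OO_valid hs).1, fun s hs j => validP_part hB (OO_valid hs) j,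
    fun s hs j => (OO_valid hs).2.1 j, ?_, ?_⟩
  · intro s hs j hc y hy
    have hn := (OO_valid hs).1
    have hyP : y ∈ P s j := (mem_filter.1 hy).1
    have hA : A s.1 y := (mem_filter.1 hy).2
    have hsG : s.1 ∈ insert s.1 (P s j) := mem_insert_self _ _
    have hyG : y ∈ insert s.1 (P s j) := mem_insert_of_mem hyP
    have hCl : ClubAt A (insert s.1 (P s j)) s.1 := hc
    have h3 := (hCl s.1 (mem_insert_self _ _)).1
    have hcnt := cnt_le hB.loop (validP_part hB (OO_valid hs) j) hsG hyG hA h3
    have hsW : s.1 ∈ Wt A (insert s.1 (P s j)) :=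
      (mem_Wt_iff hs j s.1).2 ⟨hsG, by rw [sw_token hn]; exact hs⟩
    have hyW : y ∈ Wt A (insert s.1 (P s j)) := by
      unfold Wt at hsW ⊢
      exact mem_filter.2 ⟨hyG, fun y' hy' => ((mem_filter.1 hsW).2 y' hy').trans hcnt⟩
    refine ⟨((mem_Wt_iff hs j y).1 hyW).2, ?_⟩
    unfold Cln
    rw [sw_insert hn j hyG, vB_sw_fst]
    have hyK : y ∈ clubOf A (insert s.1 (P s j)) s.1 :=
      mem_insert_of_mem (mem_filter.2 ⟨hyG, hA⟩)
    intro u hu
    rw [clubOf_eqG hB.loop hsG hCl hyK] at hu ⊢
    exact hCl u hu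
  · intro s hs s' hs' j hc _ hpl
    have hn := (OO_valid hs).1
    have hn' := (OO_valid hs').1
    have h4 := eq_sw_of_place hn' hpl
    have e3 : insert s.1 (P s j) = insert s'.1 (P s' j) := by
      rw [P_self hn, P_self hn', hpl]
    have hmem : s'.1 ∈ insert s.1 (P s j) := by
      rw [e3]
      exact mem_insert_self _ _
    have her : (insert s.1 (P s j)).erase s'.1 = P s' j := by
      rw [e3]
      exact Finset.erase_insert (fun h => (vB_mem_P.1 h).1 rfl)
    have hCl : ClubAt A (insert s.1 (P s j)) s.1 := hc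
    have hK : s'.1 ∈ clubOf A (insert s.1 (P s j)) s.1 := by
      by_contra hcon
      apply club_not_col hB.loop hCl
      refine col_mono ((OO_valid hs').2.1 j) ?_
      rw [← her]
      intro v hv
      refine mem_erase.2 ⟨?_, ?_⟩
      · rintro rfl
        exact hcon hv
      · rcases mem_insert.1 hv with h1 | h1
        · rw [h1]
          exact mem_insert_self _ _
        · exact (mem_filter.1 h1).1
    by_cases h5 : s'.1 = s.1
    · left
      rw [h4, h5]
      exact sw_token hn j
    · right
      refine ⟨s'.1, ?_, h4⟩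
      rcases mem_insert.1 hK with h6 | h6
      · exact absurd h6 h5
      · refine mem_filter.2 ⟨?_, (mem_filter.1 h6).2⟩
        rcases mem_insert.1 hmem with h7 | h7
        · exact absurd h7 h5
        · exact h7

end Pool.Agent.DBP
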