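import Pool.Agent.DBP.Cnt
import Pool.Agent.DBP.AcyT

/-! # DBP: the predecessors of a token have different colours

Let `α = φ u = φ v`, `u ≠ v`, and let `C` be the class of `α` in `G.erase y`. By `cnt_bwd` the colouring
`φ1 = Function.update φ y α` is a colouring of `G.erase u`, so `insert y (C \ {u})` is acyclic; and by `fwd_inj` for the token `u` and `φ1`, `y` is the
only out-neighbour of `u` with colour `α`, so `u` has no out-neighbour in `C`. The same for `v`. By `acy_two` `insert y C` is acyclic, so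
`y` can get the colour `α` and `G` is `Col A 3`, a contradiction.
-/

namespace Pool.Agent.DBP

open Finset Pool.Agent.DBK
open scoped Classical

variable {V : Type*} [Fintype V] {A : V → V → Prop}

theorem in_aux {G : Finset V} (hl : ∀ v, ¬ A v v) (nc : ¬ Col A 3 G) {y : V} {φ : V → ℕ}
    (h : Tok A G y φ) {u : V} (hu : u ∈ G) (hu3 : outd A u G = 3) (huy : A u y)
    (hcu : (cols A (G.erase y)).card ≤ (cols A (G.erase u)).card) :
    (∀ c ∈ {w | w ∈ G ∧ w ≠ y ∧ φ w = φ u}, ¬ A u c) ∧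
      AcyclicOn A (insert y ({w | w ∈ G ∧ w ≠ y ∧ φ w = φ u} \ {u})) := by
  have hne : y ≠ u := by rintro rfl; exact hl _ huy
  have ht := cnt_bwd hl nc hu h.1 huy hu3 hcu h
  constructor
  · intro c hc hac
    have := fwd_inj (hl u) nc ht hu3 h.1 hc.1 huy hac (by
      rw [Function.update_self, Function.update_of_ne hc.2.1]; exact hc.2.2.symm)
    exact hc.2.1 this.symm
  · refine acy_mono (ht.2.2 (φ u)) ?_
    intro w hw
    rcases hw with hw | hw
    · rw [hw]
      exact ⟨h.1, hne, Function.update_self _ _ _⟩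
    · refine ⟨hw.1.1, hw.2, ?_⟩
      rw [Function.update_of_ne hw.1.2.1]
      exact hw.1.2.2

theorem in_inj {G : Finset V} (hl : ∀ v, ¬ A v v) (nc : ¬ Col A 3 G) {y : V} {φ : V → ℕ}
    (h : Tok A G y φ) {u v : V} (hu : u ∈ G) (hv : v ∈ G) (hu3 : outd A u G = 3)
    (hv3 : outd A v G = 3) (huy : A u y) (hvy : A v y)
    (hcu : (cols A (G.erase y)).card ≤ (cols A (G.erase u)).card)
    (hcv : (cols A (G.erase y)).card ≤ (cols A (G.erase v)).card) (e : φ u = φ v) : u = v := by
  by_contra hne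
  have hyu : u ≠ y := by rintro rfl; exact hl _ huy
  obtain ⟨hu1, hu2⟩ := in_aux hl nc h hu hu3 huy hcu
  obtain ⟨hv1, hv2⟩ := in_aux hl nc h hv hv3 hvy hcv
  rw [← e] at hv1 hv2
  have hacy := acy_two hne (h.2.2 (φ u)) (hl y) hu1 hv1 hu2 hv2
  apply nc
  have h1 : ∀ w ∈ G.erase y, φ w < 3 :=
    fun w hw => h.2.1 w (Finset.mem_of_mem_erase hw) (Finset.ne_of_mem_erase hw)
  have h2 : ∀ i, AcyclicOn A {w | w ∈ G.erase y ∧ φ w = i} := by
    intro i
    refine acy_mono (h.2.2 i) ?_
    intro w hw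
    exact ⟨Finset.mem_of_mem_erase hw.1, Finset.ne_of_mem_erase hw.1, hw.2⟩
  have h3 := col_insert_of (A := A) (Finset.notMem_erase y G) h1 h2 (i := φ u)
    (h.2.1 u hu hyu) (by
      refine acy_mono hacy (Set.insert_subset_insert ?_)
      intro w hw
      exact ⟨Finset.mem_of_mem_erase hw.1, Finset.ne_of_mem_erase hw.1, hw.2⟩)
  rwa [Finset.insert_erase h.1] at h3

end Pool.Agent.DBP
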