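import Pool.Agent.DBP.FwdA

/-! # DBP: completing a biclique by moving the token around a triangle

Let `G = insert w Q`; colour `Q` (`Tok A G w φ`). The out-neighbours of `w` in `G` have three different colours (`fwd_inj`). Move the token from `w` to `t`
(`fwd_move`): `w` gets `φ t`. `t` has exactly the three out-neighbours `z, t', w` in `G`; move the token to `z`: `t` gets the colour `φ z`. Now the out-neighbours of `z`
in `G` are `t`, `t'` and possibly `w`; by `tok_out_ge` `A z w`, and there are exactly three. Suppose `¬ A w z`; the third out-neighbour `q` of `w` in `Q` is not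
`z`, and `φ q ≠ φ t, φ t'`; also `φ z ≠ φ t, φ t'` because a digon cannot have one colour; so `φ q = φ z`. Move the token from `z` back to `w`: `z` gets the present colour of
`w`, which is `φ t`. Now `w` has the out-neighbours `t` (colour `φ z`), `t'` (colour `φ t'`), `q` (colour `φ q = φ z`), against `fwd_inj`.
-/

namespace Pool.Agent.DBP

open Finset Pool.Agent.DBK
open scoped Classical

variable {V : Type*} {A : V → V → Prop}

/-- A digon is not monochromatic. -/
theorem tok_digon {G : Finset V} {x : V} {φ : V → ℕ} (h : Tok A G x φ) {a b : V} (ha : a ∈ G)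
    (hb : b ∈ G) (hax : a ≠ x) (hbx : b ≠ x) (hab : A a b) (hba : A b a) : φ a ≠ φ b := by
  intro he
  apply h.2.2 (φ b) a
  refine Relation.TransGen.tail (Relation.TransGen.single (b := b) ?_) ?_
  · exact ⟨⟨ha, hax, he⟩, ⟨hb, hbx, rfl⟩, hab⟩
  · exact ⟨⟨hb, hbx, rfl⟩, ⟨ha, hax, he⟩, hba⟩

/-- A colouring of `Q` is a token colouring of `insert w Q`. -/
theorem tok_of_col {Q : Finset V} {w : V} (hw : w ∉ Q) (hQ : Col A 3 Q) :
    ∃ φ, Tok A (insert w Q) w φ := by
  obtain ⟨φ, h1, h2⟩ := hQ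
  refine ⟨φ, Finset.mem_insert_self _ _, ?_, ?_⟩
  · intro v hv hvw
    exact h1 v (Finset.mem_of_mem_insert_of_ne hv hvw)
  · intro i
    have he : {v | v ∈ insert w Q ∧ v ≠ w ∧ φ v = i} = {v | v ∈ Q ∧ φ v = i} := by
      ext v
      simp only [Set.mem_ofPred_eq, Finset.mem_insert]
      constructor
      · rintro ⟨h3 | h3, h4, h5⟩
        · exact absurd h3 h4
        · exact ⟨h3, h5⟩
      · rintro ⟨h3, h5⟩
        exact ⟨Or.inr h3, fun h6 => hw (h6 ▸ h3), h5⟩
    rw [he]
    exact h2 i

theorem k4s {Q : Finset V} {w z t t' : V} (hl : ∀ v, ¬ A v v) (nc : ¬ Col A 3 (insert w Q))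
    (hQ : Col A 3 Q) (hw : w ∉ Q) (hz : z ∈ Q) (ht : t ∈ Q) (ht' : t' ∈ Q) (h1 : z ≠ t)
    (h2 : z ≠ t') (h3 : t ≠ t') (hzt : A z t ∧ A t z) (hzt' : A z t' ∧ A t' z)
    (htt : A t t' ∧ A t' t) (cz : ∀ v ∈ Q, A z v → v = t ∨ v = t')
    (ct : ∀ v ∈ Q, A t v → v = z ∨ v = t') (hwt : A w t ∧ A t w) (hwt' : A w t' ∧ A t' w)
    (hd : outd A w Q = 3) : A w z ∧ A z w := by
  have hwz : w ≠ z := fun h => hw (h ▸ hz)
  have hwt0 : w ≠ t := fun h => hw (h ▸ ht)
  have hwt0' : w ≠ t' := fun h => hw (h ▸ ht')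
  have hwG : w ∈ insert w Q := Finset.mem_insert_self _ _
  have hzG : z ∈ insert w Q := Finset.mem_insert_of_mem hz
  have htG : t ∈ insert w Q := Finset.mem_insert_of_mem ht
  have htG' : t' ∈ insert w Q := Finset.mem_insert_of_mem ht'
  obtain ⟨φ, hφ⟩ := tok_of_col (A := A) hw hQ
  have hdw : outd A w (insert w Q) = 3 := by
    unfold outd
    rw [Finset.filter_insert, if_neg (hl w)]
    exact hd
  -- the out-neighbours of `t`
  have hdt : outd A t (insert w Q) = 3 := by
    have he : (insert w Q).filter (fun y => A t y) = {w, z, t'} := by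
      ext v
      simp only [Finset.mem_filter, Finset.mem_insert, Finset.mem_singleton]
      constructor
      · rintro ⟨h4 | h4, h5⟩
        · exact Or.inl h4
        · exact Or.inr (ct v h4 h5)
      · rintro (h4 | h4 | h4)
        · exact ⟨Or.inl h4, h4 ▸ hwt.2⟩
        · exact ⟨Or.inr (h4 ▸ hz), h4 ▸ hzt.2⟩
        · exact ⟨Or.inr (h4 ▸ ht'), h4 ▸ htt.1⟩
    unfold outd
    rw [he, Finset.card_eq_three]
    exact ⟨w, z, t', hwz, hwt0', h2, rfl⟩
  -- first move
  have hφ1 := fwd_move (hl w) nc hφ hdw htG hwt.1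
  -- second move
  have hφ2 := fwd_move (hl t) nc hφ1 hdt hzG hzt.2
  -- `A z w`
  have hzw : A z w := by
    by_contra hcon
    have h4 := tok_out_ge (hl z) nc hφ2
    have he : (insert w Q).filter (fun y => A z y) ⊆ {t, t'} := by
      intro v hv
      rw [Finset.mem_filter, Finset.mem_insert] at hv
      rw [Finset.mem_insert, Finset.mem_singleton]
      rcases hv with ⟨h5 | h5, h6⟩
      · exact absurd (h5 ▸ h6) hcon
      · exact cz v h5 h6
    have h5 := Finset.card_le_card he
    have h6 : ({t, t'} : Finset V).card ≤ 2 := Finset.card_le_two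
    unfold outd at h4
    omega
  have hdz : outd A z (insert w Q) = 3 := by
    have he : (insert w Q).filter (fun y => A z y) = {w, t, t'} := by
      ext v
      simp only [Finset.mem_filter, Finset.mem_insert, Finset.mem_singleton]
      constructor
      · rintro ⟨h4 | h4, h5⟩
        · exact Or.inl h4
        · exact Or.inr (cz v h4 h5)
      · rintro (h4 | h4 | h4)
        · exact ⟨Or.inl h4, h4 ▸ hzw⟩
        · exact ⟨Or.inr (h4 ▸ ht), h4 ▸ hzt.1⟩
        · exact ⟨Or.inr (h4 ▸ ht'), h4 ▸ hzt'.1⟩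
    unfold outd
    rw [he, Finset.card_eq_three]
    exact ⟨w, t, t', hwt0, hwt0', h3, rfl⟩
  refine ⟨?_, hzw⟩
  by_contra hnwz
  -- the third out-neighbour of `w`
  obtain ⟨q, hqQ, hwq, hqt, hqt'⟩ : ∃ q ∈ Q, A w q ∧ q ≠ t ∧ q ≠ t' := by
    by_contra hcon
    push Not at hcon
    have he : Q.filter (fun y => A w y) ⊆ {t, t'} := by
      intro v hv
      rw [Finset.mem_filter] at hv
      rw [Finset.mem_insert, Finset.mem_singleton]
      by_cases h5 : v = t
      · exact Or.inl h5
      · exact Or.inr (hcon v hv.1 hv.2 h5)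
    have h5 := Finset.card_le_card he
    have h6 : ({t, t'} : Finset V).card ≤ 2 := Finset.card_le_two
    unfold outd at hd
    omega
  have hqG : q ∈ insert w Q := Finset.mem_insert_of_mem hqQ
  have hqw : q ≠ w := fun h => hw (h ▸ hqQ)
  have hqz : q ≠ z := by
    intro h
    rw [h] at hwq
    exact hnwz hwq
  -- colours
  have c1 : φ q ≠ φ t := fun h => hqt (fwd_inj (hl w) nc hφ hdw hqG htG hwq hwt.1 h)
  have c2 : φ q ≠ φ t' := fun h => hqt' (fwd_inj (hl w) nc hφ hdw hqG htG' hwq hwt'.1 h)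
  have c3 : φ z ≠ φ t := tok_digon hφ hzG htG hwz.symm hwt0.symm hzt.1 hzt.2
  have c4 : φ z ≠ φ t' := tok_digon hφ hzG htG' hwz.symm hwt0'.symm hzt'.1 hzt'.2
  have c5 : φ t ≠ φ t' := tok_digon hφ htG htG' hwt0.symm hwt0'.symm htt.1 htt.2
  have b1 := hφ.2.1 q hqG hqw
  have b2 := hφ.2.1 t htG hwt0.symm
  have b3 := hφ.2.1 t' htG' hwt0'.symm
  have b4 := hφ.2.1 z hzG hwz.symm
  have hqz' : φ q = φ z := by omega
  -- third move
  have hφ3 := fwd_move (hl z) nc hφ2 hdz hwG hzw
  set ψ := Function.update (Function.update (Function.update φ w (φ t)) t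
    (Function.update φ w (φ t) z)) z
    (Function.update (Function.update φ w (φ t)) t (Function.update φ w (φ t) z) w) with hψ
  have e1 : ψ t = φ z := by
    rw [hψ, Function.update_of_ne h1.symm, Function.update_self, Function.update_of_ne hwz.symm]
  have e2 : ψ q = φ q := by
    rw [hψ, Function.update_of_ne hqz, Function.update_of_ne hqt, Function.update_of_ne hqw]
  exact hqt (fwd_inj (hl w) nc hφ3 hdw hqG htG hwq hwt.1 (by rw [e1, e2, hqz']))

end Pool.Agent.DBP
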