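import Pool.Agent.DBP.CoreP
import Pool.Agent.DBK.FinA

/-! # DBP: the main theorem -/

namespace Pool.Agent.DBP

open Finset Pool.Agent.DBK
open scoped Classical

theorem numP {m k β : ℕ} (hk : 3 ≤ k) (hβ : 3 * β ≤ 465)
    (hm : (k + 466) * (2 * k + 937) < 3 * (k * m)) :
    ∃ n, 2 ≤ n ∧ 2 * (n - 1) + 3 * β ≤ 464 + k ∧
      10 * n + 8 * n ^ 2 + 3 * ((465 - 3 * β) * m) + 6 * (n * β) < 6 * (n * m) := by
  obtain ⟨n, hn⟩ : ∃ n, n = (466 + k - 3 * β) / 2 := ⟨_, rfl⟩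
  have h1 : 2 * n + 3 * β ≤ 466 + k := by omega
  have h2 : 465 + k ≤ 2 * n + 3 * β := by omega
  have h3 : 2 * n ≤ 466 + k := by omega
  have h4 : 10 + 8 * n + 6 * β ≤ 1874 + 4 * k := by omega
  refine ⟨n, by omega, by omega, ?_⟩
  have h5 : 2 * n * (10 + 8 * n + 6 * β) ≤ (466 + k) * (1874 + 4 * k) := Nat.mul_le_mul h3 h4
  have h6 : 10 * n + 8 * n ^ 2 + 6 * (n * β) ≤ (k + 466) * (2 * k + 937) := by nlinarith
  obtain ⟨c, hc⟩ : ∃ c, 465 = 3 * β + c := ⟨465 - 3 * β, by omega⟩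
  have h7 : 465 - 3 * β = c := by omega
  rw [h7]
  have h8 : (k + c) * m ≤ 2 * n * m := Nat.mul_le_mul_right m (by omega)
  nlinarith

theorem map_erase_sub' {V : Type*} {W : Finset V} [i : DecidableEq {v // v ∈ W}]
    (v : {v // v ∈ W}) :
    ((univ : Finset {v // v ∈ W}).erase v).map (Function.Embedding.subtype _) =
      W.erase v.1 := by
  ext a
  rw [mem_map, mem_erase]
  constructor
  · rintro ⟨⟨b, hb⟩, h1, rfl⟩
    exact ⟨fun e => (mem_erase.1 h1).1 (Subtype.ext e), hb⟩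
  · rintro ⟨h1, h2⟩
    exact ⟨⟨a, h2⟩, mem_erase.2 ⟨fun e => h1 (congrArg Subtype.val e), mem_univ _⟩, rfl⟩

theorem mainP {V : Type*} [Fintype V] {A : V → V → Prop} {k D : ℕ} (hk : 3 ≤ k)
    (hl : ∀ v, ¬ A v v) (hD : (k + 466) * (2 * k + 937) + 3 * k < k * D)
    (hout : ∀ v, outd A v univ ≤ D)
    (hbic : ∀ K : Finset V, (∀ u ∈ K, ∀ v ∈ K, u ≠ v → A u v) → K.card + (467 + k) ≤ D) :
    Col A (D - 1) (univ : Finset V) := by
  by_contra hnc
  obtain ⟨W, hW, hcr⟩ := exists_critical hnc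
  obtain ⟨m, hm⟩ : ∃ m, m = (D - 1) / 3 := ⟨_, rfl⟩
  obtain ⟨r, hr⟩ : ∃ r, r = (D - 1) % 3 := ⟨_, rfl⟩
  have hD0 : 0 < D := by
    rcases Nat.eq_zero_or_pos D with h | h
    · rw [h] at hD
      omega
    · exact h
  have hmr : 3 * m + r = D - 1 := by rw [hm, hr]; exact Nat.div_add_mod _ _
  have hr3 : r < 3 := by rw [hr]; exact Nat.mod_lt _ (by norm_num)
  have hDm : D ≤ 3 * m + 3 := by omega
  have hkm : (k + 466) * (2 * k + 937) < 3 * (k * m) := by
    have h1 : k * D ≤ k * (3 * m + 3) := Nat.mul_le_mul_left k hDm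
    nlinarith
  have hm0 : 0 < m := by
    rcases Nat.eq_zero_or_pos m with h | h
    · rw [h] at hkm
      omega
    · exact h
  have hB : BaseP (fun a b : {v // v ∈ W} => A a b) m r := by
    refine ⟨fun v => hl v, fun v => ?_, ?_, fun v => ?_⟩
    · have h1 := outd_sub (A := A) v
      have h2 := hout v.1
      omega
    · rw [hmr]
      intro h
      exact hW (col_sub_univ.1 h)
    · rw [hmr]
      refine (col_sub _).2 ?_
      rw [map_erase_sub' (i := fun a b => Classical.propDecidable (a = b)) v]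
      exact hcr v.1 v.2
  obtain ⟨K, hK, hcard⟩ := coreP hB hm0 (t := 464 + k) (fun β hβ => numP hk hβ hkm)
  have h1 := hbic (K.map (Function.Embedding.subtype _)) (by
    intro u hu v hv huv
    rw [mem_map] at hu hv
    obtain ⟨u', hu', rfl⟩ := hu
    obtain ⟨v', hv', rfl⟩ := hv
    exact hK u' hu' v' hv' (fun e => huv (by rw [e])))
  rw [card_map] at h1
  omega

end Pool.Agent.DBP
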