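import Pool.Agent.DBP.In3

/-! # DBP: the local structure of the maximal tokens

For `y ∈ Wt A G` the number of colourings is maximal, so it is positive by `hpos` (`cols_pos`), which gives `tok`
(`tok_of_cols`). `cl`: `cnt_le`. `fwd`, `outinj`: `fwd_move`, `fwd_inj`. `bwd`: `cnt_bwd`. `ininj`: `in_inj`.
-/

namespace Pool.Agent.DBP

open Finset Pool.Agent.DBK
open scoped Classical

variable {V : Type*} [Fintype V] {A : V → V → Prop}

theorem mem_Wt {G : Finset V} {y : V} : y ∈ Wt A G ↔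
    y ∈ G ∧ ∀ y' ∈ G, (cols A (G.erase y')).card ≤ (cols A (G.erase y)).card := by
  unfold Wt
  rw [Finset.mem_filter]

theorem mkLoc {G : Finset V} (hl : ∀ v, ¬ A v v) (nc : ¬ Col A 3 G)
    (hpos : ∃ y ∈ G, Col A 3 (G.erase y)) :
    Loc A G (Wt A G) ((Wt A G).filter (fun y => outd A y G = 3)) where
  loop := hl
  WG := fun y hy => (mem_Wt.1 hy).1
  L0W := Finset.filter_subset _ _
  nc := nc
  tok := by
    intro y hy
    obtain ⟨hyG, hmax⟩ := mem_Wt.1 hy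
    obtain ⟨z, hz, hzc⟩ := hpos
    have h1 := cols_pos.2 hzc
    obtain ⟨f, hf⟩ := Finset.card_pos.1 (lt_of_lt_of_le h1 (hmax z hz))
    exact ⟨_, tok_of_cols hyG hf⟩
  out3 := fun y hy => (Finset.mem_filter.1 hy).2
  cl := by
    intro y hy y' hy' hA
    obtain ⟨hyW, h3⟩ := Finset.mem_filter.1 hy
    obtain ⟨hyG, hmax⟩ := mem_Wt.1 hyW
    exact mem_Wt.2 ⟨hy', fun z hz => (hmax z hz).trans (cnt_le hl nc hyG hy' hA h3)⟩
  fwd := by
    intro y hy y' hy' hA φ hφ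
    obtain ⟨hyW, h3⟩ := Finset.mem_filter.1 hy
    exact fwd_move (hl y) nc hφ h3 hy' hA
  bwd := by
    intro y hy y' hy' hA φ hφ
    obtain ⟨hyW, h3⟩ := Finset.mem_filter.1 hy
    obtain ⟨hyG, hmax⟩ := mem_Wt.1 hyW
    exact cnt_bwd hl nc hyG hy' hA h3 (hmax y' hy') hφ
  outinj := by
    intro y hy φ hφ u hu v hv hyu hyv e
    obtain ⟨hyW, h3⟩ := Finset.mem_filter.1 hy
    exact fwd_inj (hl y) nc hφ h3 hu hv hyu hyv e
  ininj := by
    intro y hy φ hφ u hu v hv huy hvy e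
    obtain ⟨huW, hu3⟩ := Finset.mem_filter.1 hu
    obtain ⟨hvW, hv3⟩ := Finset.mem_filter.1 hv
    obtain ⟨huG, humax⟩ := mem_Wt.1 huW
    obtain ⟨hvG, hvmax⟩ := mem_Wt.1 hvW
    exact in_inj hl nc hφ huG hvG hu3 hv3 huy hvy (humax y hφ.1) (hvmax y hφ.1) e

end Pool.Agent.DBP
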