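import Pool.Agent.DBP.SyB

/-! # DBP: joinedness goes back along a swap

`jnd_back`. Let `x = s.1`, `s' = sw s i y`; `P s' j = P s j`, and `T A s' i = insert x ((T A s i).erase y)`. Let `w' ∈ T A s' i`, `z' ∈ T A s' j` be the pair in `hJ`. By
`jnd_digon` for `s'`: `T A (sw s' j z') i = T A s' i`, and `z'` forms digons with all of `T A s' i`, so with `x` and with all of `(T A s i).erase y`. Since `A x z'` and
`z' ∈ P s' j = P s j`, `z' ∈ T A s j`. Since `z' ∈ T A s' j`, `y` and `z'` form a digon. Claim `Cln A (sw s j z') i` (`cln_mk`): its part `i` is `P s i`; the out-neighbours of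
`z'` in `P s i` are exactly `T A s i`: all of them are (see above), and an out-neighbour `v ≠ y` in `P s i` is in the part `i` of `sw s' j z'` (which is
`insert x ((P s i).erase y)`), so in `T A s' i`, so in `T A s i`. Closedness by `cln_closed` for `s`. So the pair `y`, `z'` shows `Jnd A s i j`
(`Cln A (sw s i y) j` is `hyj`).
`jnd_place`: by `hS.same` `s' = s` or `s'` is a swap of `s` in part `i` or in part `j`; for `j` use `jnd_symm`. See `Pool/Agent/DBK/UnjClass.lean`.
-/

namespace Pool.Agent.DBP

open Finset Pool.Agent.DBK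
open scoped Classical

variable {V : Type*} [Fintype V] {m : ℕ} {A : V → V → Prop}


theorem jnd_back {O : Finset (St V m)} (hS : SysP A m O) {i j : Fin m}
    (hij : i ≠ j) {s : St V m} (hs : s ∈ O) (hi : Cln A s i) (hj : Cln A s j) {y : V}
    (hy : y ∈ T A s i) (hyj : Cln A (sw s i y) j) (hJ : Jnd A (sw s i y) i j) :
    Jnd A s i j := by
  have hn := hS.norm s hs
  obtain ⟨hs', hi'⟩ := hS.swap s hs i hi y hy
  have hyP : y ∈ P s i := T_sub s i hy
  have hyI : y ∈ insert s.1 (P s i) := mem_insert_of_mem hyP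
  have hyx : y ≠ s.1 := by
    intro e
    rw [e] at hyP
    simp [P] at hyP
  have hPj : P (sw s i y) j = P s j := P_sw_other hn hij.symm hyI
  have hPi : P (sw s i y) i = insert s.1 ((P s i).erase y) := P_sw_self hn hyP
  have hn' : (sw s i y).2 (sw s i y).1 = none := sw_norm s i y
  obtain ⟨w', hw', z', hz', hcw, hcz, hadj⟩ := hJ
  obtain ⟨-, d2, -, d4⟩ := jnd_digon hS hij hs' hi' hyj hw' hz' hcw hcz hadj
  have hz'P : z' ∈ P (sw s i y) j := T_sub _ j hz'
  have hz'Ps : z' ∈ P s j := hPj ▸ hz'P
  have hyz : A y z' := (mem_filter.1 hz').2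
  have hbs := cln_bic hS.loop hn hi
  have hxT : s.1 ∈ T A (sw s i y) i := by
    refine mem_filter.2 ⟨?_, ?_⟩
    · rw [hPi]
      exact mem_insert_self _ _
    · exact hbs y (mem_insert_of_mem hy) s.1 (mem_insert_self _ _) hyx
  have hzT : z' ∈ T A s j := mem_filter.2 ⟨hz'Ps, (d4 _ hxT).2⟩
  have hyz' : y ≠ z' := by
    intro e
    rw [← e] at hyz
    exact hS.loop _ hyz
  have hzy : A z' y :=
    cln_bic hS.loop hn' hyj z' (mem_insert_of_mem hz') y (mem_insert_self _ _) hyz'.symm
  have hdig : ∀ u ∈ T A s i, A z' u ∧ A u z' := by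
    intro u hu
    by_cases huy : u = y
    · rw [huy]
      exact ⟨hzy, hyz⟩
    · refine d4 u (mem_filter.2 ⟨?_, ?_⟩)
      · rw [hPi]
        exact mem_insert_of_mem (mem_erase.2 ⟨huy, T_sub s i hu⟩)
      · exact hbs y (mem_insert_of_mem hy) u (mem_insert_of_mem hu) (Ne.symm huy)
  have hn4 : (sw s j z').2 (sw s j z').1 = none := sw_norm s j z'
  have hP4 : P (sw s j z') i = P s i := P_sw_other hn hij (mem_insert_of_mem hz'Ps)
  have hP3 : P (sw (sw s i y) j z') i = P (sw s i y) i :=
    P_sw_other hn' hij (mem_insert_of_mem hz'P)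
  have hTT : T A (sw s j z') i = T A s i := by
    apply Finset.Subset.antisymm
    · intro v hv
      obtain ⟨hv1, hv2⟩ := mem_filter.1 hv
      rw [hP4] at hv1
      have hv2' : A z' v := hv2
      by_cases hvy : v = y
      · rw [hvy]
        exact hy
      · have hv3 : v ∈ P (sw s i y) i := by
          rw [hPi]
          exact mem_insert_of_mem (mem_erase.2 ⟨hvy, hv1⟩)
        have hv4 : v ∈ T A (sw (sw s i y) j z') i :=
          mem_filter.2 ⟨by rw [hP3]; exact hv3, hv2'⟩
        rw [d2] at hv4
        have hyv : A y v := (mem_filter.1 hv4).2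
        exact cln_closed hS.loop hn hi hy hv1 hyv
    · intro v hv
      exact mem_filter.2 ⟨by rw [hP4]; exact T_sub s i hv, (hdig v hv).1⟩
  have hcl : Cln A (sw s j z') i := by
    refine cln_mk hS.loop hn4 ?_ ?_ ?_
    · rw [hTT]
      exact cln_card hS.loop hn hi
    · rw [hTT]
      have e4 : (sw s j z').1 = z' := rfl
      rw [e4]
      intro u hu v hv huv
      rcases mem_insert.1 hu with hu | hu
      · rcases mem_insert.1 hv with hv | hv
        · exact absurd (hu.trans hv.symm) huv
        · rw [hu]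
          exact (hdig v hv).1
      · rcases mem_insert.1 hv with hv | hv
        · rw [hv]
          exact (hdig u hu).2
        · exact hbs u (mem_insert_of_mem hu) v (mem_insert_of_mem hv) huv
    · rw [hTT, hP4]
      intro u hu v hv huv
      exact cln_closed hS.loop hn hi hu hv huv
  exact ⟨y, hy, z', hzT, hyj, hcl, Or.inl hyz⟩

theorem jnd_place {O : Finset (St V m)} (hS : SysP A m O) {i j : Fin m}
    (hij : i ≠ j) {s s' : St V m} (hs : s ∈ O) (hs' : s' ∈ O) (hi : Cln A s i)
    (hj : Cln A s j) (hi' : Cln A s' i) (hj' : Cln A s' j)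
    (hp : place s i = place s' i ∨ place s j = place s' j) (hJ : Jnd A s' i j) :
    Jnd A s i j := by
  rcases hp with hp | hp
  · rcases hS.same s hs s' hs' i hi hi' hp with h | ⟨y, hy, h⟩
    · rw [h] at hJ
      exact hJ
    · rw [h] at hJ hj'
      exact jnd_back hS hij hs hi hj hy hj' hJ
  · rcases hS.same s hs s' hs' j hj hj' hp with h | ⟨y, hy, h⟩
    · rw [h] at hJ
      exact hJ
    · rw [h] at hJ hi'
      exact jnd_symm (jnd_back hS hij.symm hs hj hi hy hi' (jnd_symm hJ))

end Pool.Agent.DBP
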