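import Pool.Agent.DBP.WkC
import Pool.Agent.DBP.UnP

/-! # DBP: no leafless set of unjoined states

Copy `Pool/Agent/DBK/NoF.lean`.
-/

namespace Pool.Agent.DBP

open Finset Pool.Agent.DBK
open scoped Classical

variable {V : Type*} [Fintype V] {m : ℕ} {A : V → V → Prop}


theorem noP {O : Finset (St V m)} (hS : SysP A m O) {i j : Fin m} (hij : i ≠ j)
    (F : Finset (St V m)) (hF : F.Nonempty)
    (hFO : ∀ s ∈ F, s ∈ O ∧ Cln A s i ∧ Cln A s j)
    (hf : ∀ s ∈ F, ∃ s' ∈ F, s' ≠ s ∧ place s' i = place s i)
    (hg : ∀ s ∈ F, ∃ s' ∈ F, s' ≠ s ∧ place s' j = place s j) :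
    ∃ s ∈ F, Jnd A s i j := by
  have hstep : ∀ (l : Fin m), (l = i ∨ l = j) → ∀ s ∈ F,
      ∃ s' ∈ F, ∃ y ∈ T A s l, s' = sw s l y := by
    intro l hl s hs
    obtain ⟨hsO, hci, hcj⟩ := hFO s hs
    rcases hl with rfl | rfl
    · obtain ⟨s', hs', hne, hp⟩ := hf s hs
      rcases hS.same s hsO s' (hFO s' hs').1 l hci (hFO s' hs').2.1 hp.symm with h | h
      · exact absurd h hne
      · exact ⟨s', hs', h⟩
    · obtain ⟨s', hs', hne, hp⟩ := hg s hs
      rcases hS.same s hsO s' (hFO s' hs').1 l hcj (hFO s' hs').2.2 hp.symm with h | h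
      · exact absurd h hne
      · exact ⟨s', hs', h⟩
  obtain ⟨s0, hs0⟩ := hF
  haveI : Nonempty (St V m) := ⟨s0⟩
  choose! nx hnxF hnx using hstep
  obtain ⟨t, ht0, htS⟩ : ∃ t : ℕ → St V m, t 0 = s0 ∧
      ∀ k, t (k + 1) = nx (if Even k then j else i) (t k) :=
    ⟨fun n => Nat.rec s0 (fun k s => nx (if Even k then j else i) s) n, rfl, fun k => rfl⟩
  have hl : ∀ k : ℕ, (if Even k then j else i) = i ∨ (if Even k then j else i) = j := by
    intro k
    by_cases hk : Even k
    · right
      rw [if_pos hk]
    · left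
      rw [if_neg hk]
  have htF : ∀ k, t k ∈ F := by
    intro k
    induction k with
    | zero => rw [ht0]; exact hs0
    | succ k ih => rw [htS]; exact hnxF _ (hl k) _ ih
  have hts : ∀ k, ∃ y ∈ T A (t k) (if Even k then j else i),
      t (k + 1) = sw (t k) (if Even k then j else i) y := by
    intro k
    obtain ⟨y, hy, e⟩ := hnx _ (hl k) _ (htF k)
    exact ⟨y, hy, (htS k).trans e⟩
  have hex : ∃ q, ∃ p < q, (t q).1 = (t p).1 := by
    obtain ⟨a, c, hac, hh⟩ := Finite.exists_ne_map_eq_of_infinite (fun n => (t n).1)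
    rcases Nat.lt_or_gt_of_ne hac with h | h
    · exact ⟨c, a, h, hh.symm⟩
    · exact ⟨a, c, h, hh⟩
  obtain ⟨p, hpq, hp⟩ := Nat.find_spec hex
  set q := Nat.find hex with hq
  have hinj : ∀ k l, k < q → l < q → (t k).1 = (t l).1 → k = l := by
    intro k l hk hl' he
    by_contra hne
    rcases Nat.lt_or_gt_of_ne hne with h | h
    · exact Nat.find_min hex hl' ⟨k, h, he.symm⟩
    · exact Nat.find_min hex hk ⟨l, h, he⟩
  refine ⟨t p, htF p, ?_⟩
  by_cases hpe : Even p
  · have hw : AltW A O i j (q - p) (fun k => t (p + k)) := by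
      refine ⟨hij, by omega, fun k _ => hFO _ (htF _), ?_, ?_, ?_⟩
      · intro k _
        obtain ⟨y, hy, e⟩ := hts (p + k)
        have hE : Even (p + k) ↔ Even k := by
          rw [Nat.even_add]
          tauto
        simp only [hE] at hy e
        exact ⟨y, hy, e⟩
      · intro k l hk hl' he
        have := hinj (p + k) (p + l) (by omega) (by omega) he
        omega
      · have e : p + (q - p) = q := by omega
        simp only [e, Nat.add_zero]
        exact hp
    exact walkP hS hw
  · have hw : AltW A O j i (q - p) (fun k => t (p + k)) := by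
      refine ⟨hij.symm, by omega, fun k _ => ⟨(hFO _ (htF _)).1, (hFO _ (htF _)).2.2,
        (hFO _ (htF _)).2.1⟩, ?_, ?_, ?_⟩
      · intro k _
        obtain ⟨y, hy, e⟩ := hts (p + k)
        have hE : (if Even (p + k) then j else i) = (if Even k then i else j) := by
          by_cases hk : Even k
          · have : ¬ Even (p + k) := by
              rw [Nat.even_add]
              tauto
            rw [if_neg this, if_pos hk]
          · have : Even (p + k) := by
              rw [Nat.even_add]
              tauto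
            rw [if_pos this, if_neg hk]
        rw [hE] at hy e
        exact ⟨y, hy, e⟩
      · intro k l hk hl' he
        have := hinj (p + k) (p + l) (by omega) (by omega) he
        omega
      · have e : p + (q - p) = q := by omega
        simp only [e, Nat.add_zero]
        exact hp
    exact jnd_symm (walkP hS hw)

end Pool.Agent.DBP
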