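import Pool.Agent.DBP.CyA

/-! # DBP: the end of a longest path

Take a path `u 0, ..., u r` in `S` (different vertices, consecutive ones adjacent) with `r` maximal, `p = u 0`. All neighbours of `p` in `S` are
on the path. If `p` has no neighbour `u a` with `a ≥ 2` then it has at most one neighbour and the sum is at most two. Otherwise let `a` be the largest such
index; the cycle `u 0, ..., u a` contains all neighbours of `p`; if it is directed the sum is at most two; otherwise it is bidirected and `a + 1` is odd. If `p` has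
another neighbour `u c`, `2 ≤ c < a`: the cycle `u 0, ..., u c` contains the digon `u 0`, `u 1`, so it is bidirected and `c + 1` is
odd; the cycle `u 0, u c, u (c+1), ..., u a` contains the digon `u c`, `u (c+1)`, so it is bidirected and `a - c + 2` is odd. Contradiction.
-/

namespace Pool.Agent.DBP

open Finset Pool.Agent.DBK
open scoped Classical

variable {V : Type*} {A : V → V → Prop}

/-- A path with `r + 1` vertices in `S`. -/
def PthS (A : V → V → Prop) (S : Finset V) (r : ℕ) (u : ℕ → V) : Prop :=
  (∀ i ≤ r, u i ∈ S) ∧ (∀ i j, i ≤ r → j ≤ r → u i = u j → i = j) ∧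
    ∀ i < r, A (u i) (u (i + 1)) ∨ A (u (i + 1)) (u i)

theorem pthS_card {S : Finset V} {r : ℕ} {u : ℕ → V} (h : PthS A S r u) : r + 1 ≤ S.card := by
  have h1 : ((range (r + 1)).image u).card = r + 1 := by
    rw [card_image_of_injOn, card_range]
    intro i hi j hj hij
    simp only [coe_range, Set.mem_Iio] at hi hj
    exact h.2.1 i j (by omega) (by omega) hij
  rw [← h1]
  apply card_le_card
  intro v hv
  obtain ⟨i, hi, rfl⟩ := mem_image.1 hv
  exact h.1 i (by simpa [Nat.lt_succ_iff] using hi)

theorem pthS_max {S : Finset V} (hne : S.Nonempty) :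
    ∃ r u, PthS A S r u ∧ ∀ r' u', PthS A S r' u' → r' ≤ r := by
  obtain ⟨p, hp⟩ := hne
  have h0 : ∃ u, PthS A S 0 u := ⟨fun _ => p, fun _ _ => hp, fun i j hi hj _ => by omega,
    fun i hi => by omega⟩
  have hb : ∀ r, (∃ u, PthS A S r u) → r ≤ S.card := by
    rintro r ⟨u, hu⟩
    have := pthS_card hu
    omega
  refine ⟨Nat.findGreatest (fun r => ∃ u, PthS A S r u) S.card, ?_⟩
  obtain ⟨u, hu⟩ := Nat.findGreatest_spec (P := fun r => ∃ u, PthS A S r u) (Nat.zero_le S.card) h0
  exact ⟨u, hu, fun r' u' h' => Nat.le_findGreatest (hb r' ⟨u', h'⟩) ⟨u', h'⟩⟩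

/-- All neighbours of the first vertex of a longest path are on the path. -/
theorem pthS_nb {S : Finset V} (hl : ∀ v, ¬ A v v) {r : ℕ} {u : ℕ → V} (h : PthS A S r u)
    (hm : ∀ r' u', PthS A S r' u' → r' ≤ r) {v : V} (hv : v ∈ S) (hav : A (u 0) v ∨ A v (u 0)) :
    ∃ a, 1 ≤ a ∧ a ≤ r ∧ v = u a := by
  by_contra hcon
  push Not at hcon
  have h0 : v ≠ u 0 := by
    rintro rfl
    rcases hav with h | h <;> exact hl _ h
  have hne : ∀ a ≤ r, v ≠ u a := by
    intro a ha
    rcases Nat.eq_zero_or_pos a with rfl | hp
    · exact h0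
    · exact hcon a hp ha
  have : r + 1 ≤ r := by
    refine hm (r + 1) (fun i => if i = 0 then v else u (i - 1)) ⟨?_, ?_, ?_⟩
    · intro i hi
      by_cases h1 : i = 0
      · simp only [h1, if_true]; exact hv
      · simp only [h1, if_false]; exact h.1 _ (by omega)
    · intro i j hi hj hij
      by_cases h1 : i = 0 <;> by_cases h2 : j = 0
      · omega
      · simp only [h1, h2, if_true, if_false] at hij
        exact absurd hij (hne _ (by omega))
      · simp only [h1, h2, if_true, if_false] at hij
        exact absurd hij.symm (hne _ (by omega))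
      · simp only [h1, h2, if_false] at hij
        have := h.2.1 _ _ (by omega) (by omega) hij
        omega
    · intro i hi
      by_cases h1 : i = 0
      · subst h1
        simp only [if_true, zero_add, one_ne_zero, if_false, Nat.sub_self]
        exact hav.symm
      · have h2 : i + 1 ≠ 0 := by omega
        simp only [h1, h2, if_false, Nat.add_sub_cancel]
        have := h.2.2 (i - 1) (by omega)
        rwa [Nat.sub_add_cancel (by omega)] at this
  omega

/-- The closed initial segment of a path. -/
theorem pthS_cy {L S : Finset V} (hS : S ⊆ L) {r : ℕ} {u : ℕ → V} (h : PthS A S r u) {a : ℕ}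
    (ha : 2 ≤ a) (har : a ≤ r) (hav : A (u 0) (u a) ∨ A (u a) (u 0)) :
    Cy A L (a + 1) (fun i => u (i % (a + 1))) := by
  apply cy_mk (by omega)
  · intro i j hi hj hij
    exact h.2.1 i j (by omega) (by omega) hij
  · intro i hi
    exact hS (h.1 i (by omega))
  · intro i hi
    exact h.2.2 i (by omega)
  · simpa using hav.symm

theorem card_le_one_of {S : Finset V} {P : V → Prop} {v : V} (h : ∀ x ∈ S, P x → x = v) :
    (S.filter P).card ≤ 1 := by
  rw [card_le_one]
  intro x hx y hy
  rw [mem_filter] at hx hy
  rw [h x hx.1 hx.2, h y hy.1 hy.2]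

theorem card_le_two_of {S : Finset V} {P : V → Prop} {v w : V}
    (h : ∀ x ∈ S, P x → x = v ∨ x = w) : (S.filter P).card ≤ 2 := by
  refine le_trans (card_le_card (t := {v, w}) ?_) card_le_two
  intro x hx
  rw [mem_filter] at hx
  rw [mem_insert, mem_singleton]
  exact h x hx.1 hx.2

/-- In a directed cycle through `p` which contains all neighbours of `p`, the sum is at most two. -/
theorem sum_of_dirF {L S : Finset V} {N : ℕ} {w : ℕ → V} {p : V} (hc : Cy A L N w)
    (hd : DirF A w) (hp : w 0 = p) (hn : ∀ v ∈ S, A p v ∨ A v p → ∃ j, v = w j) :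
    outd A p S ≤ 1 ∧ ind A p S ≤ 1 := by
  subst hp
  have hN := hc.N3
  constructor
  · apply card_le_one_of (v := w (0 + 1))
    intro x hx hax
    obtain ⟨j, rfl⟩ := hn x hx (Or.inl hax)
    exact hd.2 0 j hax
  · apply card_le_one_of (v := w (N - 1))
    intro x hx hax
    obtain ⟨j, rfl⟩ := hn x hx (Or.inr hax)
    apply dirF_in hc hd
    have : w (N - 1 + 1) = w 0 := by
      have := hc.per 0
      rw [Nat.sub_add_cancel (by omega)]
      simpa using this
    rwa [this]

theorem peelA {L : Finset V} (hl : ∀ v, ¬ A v v) (ht : Tri A L) {S : Finset V} (hS : S ⊆ L)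
    (hne : S.Nonempty) :
    ∃ p ∈ S, outd A p S + ind A p S ≤ 2 ∨ (outd A p S + ind A p S ≤ 4 ∧
      ∃ N w, Cy A L N w ∧ Bid A w ∧ (∀ i, w i ∈ S) ∧ w 0 = p) := by
  obtain ⟨r, u, hu, hm⟩ := pthS_max (A := A) hne
  refine ⟨u 0, hu.1 0 (Nat.zero_le _), ?_⟩
  have hnb := fun v (hv : v ∈ S) h => pthS_nb hl hu hm hv h
  by_cases h2 : ∃ a, 2 ≤ a ∧ a ≤ r ∧ (A (u 0) (u a) ∨ A (u a) (u 0))
  · -- the largest such index
    obtain ⟨a, ⟨ha2, har, haa⟩, hmax⟩ : ∃ a, (2 ≤ a ∧ a ≤ r ∧ (A (u 0) (u a) ∨ A (u a) (u 0))) ∧
        ∀ b, (2 ≤ b ∧ b ≤ r ∧ (A (u 0) (u b) ∨ A (u b) (u 0))) → b ≤ a := by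
      obtain ⟨a, ha⟩ := h2
      refine ⟨Nat.findGreatest
        (fun a => 2 ≤ a ∧ a ≤ r ∧ (A (u 0) (u a) ∨ A (u a) (u 0))) r, ?_, ?_⟩
      · exact Nat.findGreatest_spec
          (P := fun a => 2 ≤ a ∧ a ≤ r ∧ (A (u 0) (u a) ∨ A (u a) (u 0))) ha.2.1 ha
      · intro b hb
        exact Nat.le_findGreatest hb.2.1 hb
    have hc := pthS_cy hS hu ha2 har haa
    have hw0 : (fun i => u (i % (a + 1))) 0 = u 0 := by simp
    have hn : ∀ v ∈ S, A (u 0) v ∨ A v (u 0) → ∃ j, v = (fun i => u (i % (a + 1))) j := by
      intro v hv hav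
      obtain ⟨b, hb1, hbr, rfl⟩ := hnb v hv hav
      have hba : b ≤ a := by
        by_cases hb2 : 2 ≤ b
        · exact hmax b ⟨hb2, hbr, hav⟩
        · omega
      refine ⟨b, ?_⟩
      simp only
      rw [Nat.mod_eq_of_lt (by omega)]
    rcases ht _ _ hc with hd | hd | ⟨hb, hodd⟩
    · left
      have := sum_of_dirF (S := S) hc hd hw0 hn
      omega
    · left
      have := sum_of_dirF (S := S) (A := fun a b => A b a) (cy_flip hc) hd hw0
        (fun v hv h => hn v hv h.symm)
      have e1 : outd (fun a b => A b a) (u 0) S = ind A (u 0) S := rfl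
      have e2 : ind (fun a b => A b a) (u 0) S = outd A (u 0) S := rfl
      rw [e1, e2] at this
      omega
    · right
      have hdig : A (u 0) (u 1) ∧ A (u 1) (u 0) := by
        have := hb 0
        simp only [zero_add] at this
        rwa [Nat.zero_mod, Nat.mod_eq_of_lt (by omega : 1 < a + 1)] at this
      have key : ∀ b, 2 ≤ b → b < a → (A (u 0) (u b) ∨ A (u b) (u 0)) → False := by
        intro b hb2 hba hab
        have hcb := pthS_cy hS hu hb2 (by omega) hab
        have hob : Odd (b + 1) := by
          rcases ht _ _ hcb with hd | hd | ⟨_, ho⟩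
          · exfalso
            refine (not_dirF hcb (i := 0) ?_ ?_).1 hd
            · simp only [zero_add]
              rw [Nat.zero_mod, Nat.mod_eq_of_lt (by omega : 1 < b + 1)]
              exact hdig.1
            · simp only [zero_add]
              rw [Nat.zero_mod, Nat.mod_eq_of_lt (by omega : 1 < b + 1)]
              exact hdig.2
          · exfalso
            refine (not_dirF hcb (i := 0) ?_ ?_).2 hd
            · simp only [zero_add]
              rw [Nat.zero_mod, Nat.mod_eq_of_lt (by omega : 1 < b + 1)]
              exact hdig.1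
            · simp only [zero_add]
              rw [Nat.zero_mod, Nat.mod_eq_of_lt (by omega : 1 < b + 1)]
              exact hdig.2
          · exact ho
        -- the cycle `u 0, u b, ..., u a`
        obtain ⟨q, q0, qs⟩ : ∃ q : ℕ → V, q 0 = u 0 ∧ ∀ i, 1 ≤ i → q i = u (b + (i - 1)) := by
          refine ⟨fun i => if i = 0 then u 0 else u (b + (i - 1)), by simp, fun i hi => ?_⟩
          have : i ≠ 0 := by omega
          simp [this]
        have hc3 : Cy A L (a - b + 2) (fun i => q (i % (a - b + 2))) := by
          apply cy_mk (by omega)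
          · intro i j hi hj hij
            by_cases h1 : i = 0 <;> by_cases h2 : j = 0
            · omega
            · rw [h1, q0, qs j (by omega)] at hij
              have := hu.2.1 _ _ (by omega) (by omega) hij
              omega
            · rw [h2, q0, qs i (by omega)] at hij
              have := hu.2.1 _ _ (by omega) (by omega) hij
              omega
            · rw [qs i (by omega), qs j (by omega)] at hij
              have := hu.2.1 _ _ (by omega) (by omega) hij
              omega
          · intro i hi
            by_cases h1 : i = 0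
            · rw [h1, q0]; exact hS (hu.1 _ (by omega))
            · rw [qs i (by omega)]; exact hS (hu.1 _ (by omega))
          · intro i hi
            by_cases h1 : i = 0
            · subst h1
              rw [q0, qs _ (by omega)]
              simpa using hab
            · rw [qs i (by omega), qs (i + 1) (by omega)]
              have := hu.2.2 (b + (i - 1)) (by omega)
              have e : b + (i - 1) + 1 = b + (i + 1 - 1) := by omega
              rwa [e] at this
          · rw [q0, qs (a - b + 2 - 1) (by omega)]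
            have e : b + (a - b + 2 - 1 - 1) = a := by omega
            rw [e]
            exact haa.symm
        have hd2 : A (u b) (u (b + 1)) ∧ A (u (b + 1)) (u b) := by
          have := hb b
          simp only at this
          rwa [Nat.mod_eq_of_lt (by omega : b < a + 1),
            Nat.mod_eq_of_lt (by omega : b + 1 < a + 1)] at this
        have e1 : q (1 % (a - b + 2)) = u b := by
          rw [Nat.mod_eq_of_lt (by omega : 1 < a - b + 2), qs 1 le_rfl]
          rfl
        have e2 : q ((1 + 1) % (a - b + 2)) = u (b + 1) := by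
          rw [Nat.mod_eq_of_lt (by omega : 1 + 1 < a - b + 2), qs (1 + 1) (by omega)]
        have hnd := not_dirF hc3 (i := 1) (by rw [e1, e2]; exact hd2.1)
          (by rw [e1, e2]; exact hd2.2)
        have ho3 : Odd (a - b + 2) := by
          rcases ht _ _ hc3 with hd | hd | ⟨_, ho⟩
          · exact absurd hd hnd.1
          · exact absurd hd hnd.2
          · exact ho
        obtain ⟨x, hx⟩ := hodd
        obtain ⟨y, hy⟩ := hob
        obtain ⟨z, hz⟩ := ho3
        omega
      have hvv : ∀ v ∈ S, A (u 0) v ∨ A v (u 0) → v = u 1 ∨ v = u a := by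
        intro v hv hav
        obtain ⟨b, hb1, hbr, rfl⟩ := hnb v hv hav
        by_cases hb2 : 2 ≤ b
        · right
          have hba := hmax b ⟨hb2, hbr, hav⟩
          by_cases hlt : b < a
          · exact (key b hb2 hlt hav).elim
          · rw [le_antisymm hba (not_lt.1 hlt)]
        · left
          rw [show b = 1 by omega]
      refine ⟨?_, a + 1, _, hc, hb, ?_, hw0⟩
      · have h1 : outd A (u 0) S ≤ 2 := card_le_two_of (fun x hx h => hvv x hx (Or.inl h))
        have h2 : ind A (u 0) S ≤ 2 := card_le_two_of (fun x hx h => hvv x hx (Or.inr h))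
        omega
      · intro i
        exact hu.1 _ (by have := Nat.mod_lt i (by omega : 0 < a + 1); omega)
  · left
    push Not at h2
    have hvv : ∀ v ∈ S, A (u 0) v ∨ A v (u 0) → v = u 1 := by
      intro v hv hav
      obtain ⟨b, hb1, hbr, rfl⟩ := hnb v hv hav
      by_cases hb2 : 2 ≤ b
      · have := h2 b hb2 hbr
        tauto
      · rw [show b = 1 by omega]
    have h1 : outd A (u 0) S ≤ 1 := card_le_one_of (fun x hx h => hvv x hx (Or.inl h))
    have h2 : ind A (u 0) S ≤ 1 := card_le_one_of (fun x hx h => hvv x hx (Or.inr h))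
    omega

end Pool.Agent.DBP
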