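import Pool.Agent.DBP.RotF

/-! # DBP: constant colours on a cycle

As in `Pool/Agent/DBK/Rot.lean`. Start with a colouring for the token `w 0` (`h.tok`) and use `rotF`. Let `f ≡ e + k` modulo `N`, `0 < k < N`. At the times
`e + t * N` the token is `w e`; the colours of `n1`, `n2` are always the original ones, so the colour of `w f`, `C (e + t * N + k)`, is the third
colour and does not depend on `t`; it is `C (e + k + t)`. So `C` is constant on `n ≥ e + k`, hence on `n ≥ 1`.
-/

namespace Pool.Agent.DBP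

open Finset Pool.Agent.DBK
open scoped Classical

variable {V : Type*} {A : V → V → Prop}

theorem rotC_exk {N : ℕ} (hN : 3 ≤ N) {w : ℕ → V} (per : ∀ i, w (i + N) = w i) {i j : ℕ}
    (hne : w j ≠ w i) : ∃ k, 0 < k ∧ k < N ∧ w (i + k) = w j := by
  have hper : Function.Periodic w N := per
  have hmod : ∀ n, w (n % N) = w n := fun n => hper.map_mod_nat n
  have hlt : i % N < N := Nat.mod_lt _ (by omega)
  have hk : w (i + (j + (N - i % N)) % N) = w j := by
    rw [← hmod (i + (j + (N - i % N)) % N), Nat.add_mod_mod]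
    have e1 : i + (j + (N - i % N)) = j + N * (i / N + 1) := by
      have h1 := Nat.div_add_mod i N
      rw [Nat.mul_add, Nat.mul_one]
      omega
    rw [e1, Nat.add_mul_mod_self_left, hmod]
  refine ⟨(j + (N - i % N)) % N, ?_, Nat.mod_lt _ (by omega), hk⟩
  rcases Nat.eq_zero_or_pos ((j + (N - i % N)) % N) with h0 | h0
  · exfalso
    rw [h0, Nat.add_zero] at hk
    exact hne hk.symm
  · exact h0

theorem rotC {G W L0 : Finset V} (h : Loc A G W L0) {N : ℕ} {w : ℕ → V}
    (hC : Cy A (Lf A L0) N w) {e f : ℕ} {n1 n2 : V} (hn1 : ∀ t, n1 ≠ w t)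
    (hn2 : ∀ t, n2 ≠ w t) (hf : w f ≠ w e)
    (hd : ∀ ψ, Tok A G (w e) ψ → ψ (w f) < 3 ∧ ψ n1 < 3 ∧ ψ n2 < 3 ∧ ψ (w f) ≠ ψ n1 ∧
      ψ (w f) ≠ ψ n2 ∧ ψ n1 ≠ ψ n2) :
    ∃ (κ : ℕ) (ψ : ℕ → V → ℕ), (∀ i, Tok A G (w i) (ψ i)) ∧
      ∀ i j, w j ≠ w i → ψ i (w j) = κ := by
  have hN3 := hC.N3
  have hw0 : w 0 ∈ W := h.L0W ((mem_filter.1 (hC.mem 0)).1)
  obtain ⟨φ, hφ⟩ := h.tok _ hw0
  obtain ⟨ψ, C, hψ0, htok, hoff, hwalk, hCper⟩ :=
    rotF (by omega) w hC.per hC.inj (loc_step h hC) hφ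
  obtain ⟨k, hk0, hkN, hk⟩ := rotC_exk hN3 hC.per hf
  have hperN : ∀ t n, w (n + t * N) = w n := by
    intro t n
    induction t with
    | zero => rw [Nat.zero_mul, Nat.add_zero]
    | succ t ih => rw [Nat.succ_mul, ← Nat.add_assoc, hC.per, ih]
  have hconst : ∀ t, C (e + t * N + k) + (φ n1 + φ n2) = 3 := by
    intro t
    have e1 : w (e + t * N) = w e := hperN t e
    have e2 : w (e + t * N + k) = w f := by
      rw [show e + t * N + k = e + k + t * N by ring, hperN, hk]
    have h1 : Tok A G (w e) (ψ (e + t * N)) := by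
      have := htok (e + t * N)
      rw [e1] at this
      exact this
    have h3 : ψ (e + t * N) (w f) = C (e + t * N + k) := by
      rw [← e2]
      exact hwalk _ _ hk0 hkN
    have h4 := hd _ h1
    rw [hoff _ n1 hn1, hoff _ n2 hn2, h3] at h4
    omega
  have hCper' : ∀ t n, 0 < n → C (n + t * (N - 1)) = C n := by
    intro t
    induction t with
    | zero =>
      intro n _
      simp
    | succ t ih =>
      intro n hn
      rw [show n + (t + 1) * (N - 1) = (n + t * (N - 1)) + (N - 1) by ring]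
      rw [hCper _ (by omega)]
      exact ih n hn
  have hC1 : ∀ t, C (e + k + t) + (φ n1 + φ n2) = 3 := by
    intro t
    have h1 := hconst t
    have e1 : e + t * N + k = (e + k + t) + t * (N - 1) := by
      obtain ⟨M, rfl⟩ : ∃ M, N = M + 1 := ⟨N - 1, by omega⟩
      rw [Nat.add_sub_cancel]
      ring
    rw [e1, hCper' t _ (by omega)] at h1
    exact h1
  have hC2 : ∀ n, 0 < n → C n + (φ n1 + φ n2) = 3 := by
    intro n hn
    have h1 := hCper' (e + k) n hn
    have h2 : e + k ≤ n + (e + k) * (N - 1) := by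
      have : (e + k) * 1 ≤ (e + k) * (N - 1) := Nat.mul_le_mul_left _ (by omega)
      omega
    obtain ⟨t, ht⟩ := Nat.exists_eq_add_of_le h2
    rw [← h1, ht]
    exact hC1 t
  refine ⟨3 - (φ n1 + φ n2), ψ, htok, ?_⟩
  intro i j hij
  obtain ⟨l, hl0, hlN, hl⟩ := rotC_exk hN3 hC.per hij
  rw [← hl, hwalk i l hl0 hlN]
  have := hC2 (i + l) (by omega)
  omega

end Pool.Agent.DBP
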