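import Pool.Agent.DBP.DefsP

/-! # DBP: rotation of the token, abstract version

`rotF`: copy the proof of `rotA` in `Pool/Agent/DBK/RotA.lean` (there `step` was `tok_move`). `loc_step`: `h.fwd` or
`h.bwd` according to the direction of the arc; all `w i` are in `L0`.
-/

namespace Pool.Agent.DBP

open Finset Pool.Agent.DBK
open scoped Classical

variable {V : Type*} {A : V → V → Prop}


/-- The colourings along the walk. -/
noncomputable def rotPsiF (w : ℕ → V) (φ : V → ℕ) : ℕ → V → ℕ
  | 0 => φ
  | i + 1 => Function.update (rotPsiF w φ i) (w i) (rotPsiF w φ i (w (i + 1)))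

theorem rotF {G : Finset V} {φ : V → ℕ} {N : ℕ} (hN : 2 ≤ N) (w : ℕ → V)
    (per : ∀ i, w (i + N) = w i) (inj : ∀ i j, i < N → j < N → w i = w j → i = j)
    (step : ∀ i ψ, Tok A G (w i) ψ →
      Tok A G (w (i + 1)) (Function.update ψ (w i) (ψ (w (i + 1)))))
    (h0 : Tok A G (w 0) φ) :
    ∃ (ψ : ℕ → V → ℕ) (C : ℕ → ℕ), ψ 0 = φ ∧ (∀ i, Tok A G (w i) (ψ i)) ∧
      (∀ i v, (∀ t, v ≠ w t) → ψ i v = φ v) ∧
      (∀ i k, 0 < k → k < N → ψ i (w (i + k)) = C (i + k)) ∧
      (∀ n, 0 < n → C (n + (N - 1)) = C n) := by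
  have hper : Function.Periodic w N := per
  have hmod : ∀ n, w (n % N) = w n := fun n => hper.map_mod_nat n
  have hne : ∀ i d, 0 < d → d < N → w i ≠ w (i + d) := by
    intro i d hd hdN h
    rw [← hmod i, ← hmod (i + d)] at h
    have h1 := inj _ _ (Nat.mod_lt _ (by omega)) (Nat.mod_lt _ (by omega)) h
    have h2 : (i + 0) ≡ (i + d) [MOD N] := by
      change (i + 0) % N = (i + d) % N
      rw [Nat.add_zero]
      exact h1
    have h3 := Nat.ModEq.add_left_cancel' i h2
    have h4 := (Nat.modEq_zero_iff_dvd).1 h3.symm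
    have h5 := Nat.le_of_dvd hd h4
    omega
  have hC : ∀ n, 0 < n → φ (w ((n + (N - 1) - 1) % (N - 1) + 1)) =
      φ (w ((n - 1) % (N - 1) + 1)) := by
    intro n hn
    have e1 : n + (N - 1) - 1 = (n - 1) + (N - 1) := by omega
    rw [e1, Nat.add_mod_right]
  refine ⟨rotPsiF w φ, fun n => φ (w ((n - 1) % (N - 1) + 1)), rfl, ?_, ?_, ?_, hC⟩
  · intro i
    induction i with
    | zero => exact h0
    | succ i ih => exact step i _ ih
  · intro i v hv
    induction i with
    | zero => rfl
    | succ i ih =>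
      change Function.update (rotPsiF w φ i) (w i) (rotPsiF w φ i (w (i + 1))) v = φ v
      rw [Function.update_of_ne (hv i)]
      exact ih
  · intro i
    induction i with
    | zero =>
      intro k hk hkN
      change φ (w (0 + k)) = φ (w ((0 + k - 1) % (N - 1) + 1))
      rw [Nat.zero_add, Nat.mod_eq_of_lt (by omega)]
      congr 2
      omega
    | succ i ih =>
      intro k hk hkN
      change Function.update (rotPsiF w φ i) (w i) (rotPsiF w φ i (w (i + 1))) (w (i + 1 + k)) = _
      rcases lt_or_eq_of_le (show k ≤ N - 1 by omega) with h1 | h1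
      · have e1 : i + 1 + k = i + (k + 1) := by omega
        rw [e1, Function.update_of_ne (hne i (k + 1) (by omega) (by omega)).symm]
        exact ih (k + 1) (by omega) (by omega)
      · have e1 : w (i + 1 + k) = w i := by
          have : i + 1 + k = i + N := by omega
          rw [this]
          exact per i
        rw [e1, Function.update_self, ih 1 (by omega) (by omega)]
        have e2 : i + 1 + k = (i + 1) + (N - 1) := by omega
        rw [e2]
        exact (hC (i + 1) (by omega)).symm

theorem loc_step {G W L0 : Finset V} (h : Loc A G W L0) {N : ℕ} {w : ℕ → V}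
    (hC : Cy A (Lf A L0) N w) : ∀ i ψ, Tok A G (w i) ψ →
      Tok A G (w (i + 1)) (Function.update ψ (w i) (ψ (w (i + 1)))) := by
  intro i ψ hψ
  have h1 : ∀ t, w t ∈ L0 := fun t => (mem_filter.1 (hC.mem t)).1
  rcases hC.adj i with h2 | h2
  · exact h.fwd (w i) (h1 i) (w (i + 1)) (h.WG (h.L0W (h1 (i + 1)))) h2 ψ hψ
  · exact h.bwd (w (i + 1)) (h1 (i + 1)) (w i) (h.WG (h.L0W (h1 i))) h2 ψ hψ

end Pool.Agent.DBP
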