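import Pool.Agent.DBP.RotF

/-! # DBP: parity of a cycle

Use `rotF`. At the time `i = e + 1 + t * N` the token is `w (e+1)`, the colour of `w (e+2)` is `C (i+1)`, the colour of `w e` is `C (i + N - 1) = C i`,
and the colour of `n1` is always the same `κ`. By periodicity `C (i+1) = C (e+2+t)` and `C i = C (e+1+t)`. So for `n ≥ e + 1`:
`C n ≠ C (n+1)`, both are different from `κ` and `< 3`; hence `C (n+2) = C n`. If `N - 1` were odd then `C (n + (N-1)) = C (n+1) ≠ C n`, against the
periodicity.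
-/

namespace Pool.Agent.DBP

open Finset Pool.Agent.DBK
open scoped Classical

variable {V : Type*} {A : V → V → Prop}

theorem rotP {G W L0 : Finset V} (h : Loc A G W L0) {N : ℕ} {w : ℕ → V}
    (hC : Cy A (Lf A L0) N w) {e : ℕ} {n1 : V} (hn1 : ∀ t, n1 ≠ w t)
    (hd : ∀ ψ, Tok A G (w (e + 1)) ψ → ψ (w (e + 2)) < 3 ∧ ψ (w e) < 3 ∧ ψ n1 < 3 ∧
      ψ (w (e + 2)) ≠ ψ (w e) ∧ ψ (w (e + 2)) ≠ ψ n1 ∧ ψ (w e) ≠ ψ n1) : Odd N := by
  have hN3 := hC.N3
  have hw0 : w 0 ∈ W := h.L0W ((mem_filter.1 (hC.mem 0)).1)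
  obtain ⟨φ, hφ⟩ := h.tok _ hw0
  obtain ⟨ψ, C, hψ0, htok, hoff, hwalk, hCper⟩ :=
    rotF (by omega) w hC.per hC.inj (loc_step h hC) hφ
  have hperN : ∀ t n, w (n + t * N) = w n := by
    intro t n
    induction t with
    | zero => rw [Nat.zero_mul, Nat.add_zero]
    | succ t ih => rw [Nat.succ_mul, ← Nat.add_assoc, hC.per, ih]
  have hCper' : ∀ t n, 0 < n → C (n + t * (N - 1)) = C n := by
    intro t
    induction t with
    | zero =>
      intro n _
      simp
    | succ t ih =>
      intro n hn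
      rw [show n + (t + 1) * (N - 1) = (n + t * (N - 1)) + (N - 1) by ring]
      rw [hCper _ (by omega)]
      exact ih n hn
  have key : ∀ t, C (e + 2 + t) < 3 ∧ C (e + 1 + t) < 3 ∧ φ n1 < 3 ∧
      C (e + 2 + t) ≠ C (e + 1 + t) ∧ C (e + 2 + t) ≠ φ n1 ∧ C (e + 1 + t) ≠ φ n1 := by
    intro t
    have e1 : w (e + 1 + t * N) = w (e + 1) := hperN t (e + 1)
    have h1 : Tok A G (w (e + 1)) (ψ (e + 1 + t * N)) := by
      have := htok (e + 1 + t * N)
      rw [e1] at this
      exact this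
    have h2 : ψ (e + 1 + t * N) (w (e + 2)) = C (e + 2 + t) := by
      have e2 : w (e + 1 + t * N + 1) = w (e + 2) := by
        rw [show e + 1 + t * N + 1 = e + 2 + t * N by ring, hperN]
      rw [← e2, hwalk _ 1 (by omega) (by omega)]
      have e3 : e + 1 + t * N + 1 = (e + 2 + t) + t * (N - 1) := by
        obtain ⟨M, rfl⟩ : ∃ M, N = M + 1 := ⟨N - 1, by omega⟩
        rw [Nat.add_sub_cancel]
        ring
      rw [e3, hCper' t _ (by omega)]
    have h3 : ψ (e + 1 + t * N) (w e) = C (e + 1 + t) := by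
      have e2 : w (e + 1 + t * N + (N - 1)) = w e := by
        have e4 : e + 1 + t * N + (N - 1) = e + (t + 1) * N := by
          obtain ⟨M, rfl⟩ : ∃ M, N = M + 1 := ⟨N - 1, by omega⟩
          rw [Nat.add_sub_cancel]
          ring
        rw [e4, hperN]
      rw [← e2, hwalk _ (N - 1) (by omega) (by omega)]
      rw [hCper _ (by omega)]
      have e3 : e + 1 + t * N = (e + 1 + t) + t * (N - 1) := by
        obtain ⟨M, rfl⟩ : ∃ M, N = M + 1 := ⟨N - 1, by omega⟩
        rw [Nat.add_sub_cancel]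
        ring
      rw [e3, hCper' t _ (by omega)]
    have h4 := hd _ h1
    rw [hoff _ n1 hn1, h2, h3] at h4
    exact h4
  have key2 : ∀ t, C (e + 1 + (t + 2)) = C (e + 1 + t) := by
    intro t
    have h1 := key t
    have h2 := key (t + 1)
    rw [show e + 2 + (t + 1) = e + 1 + (t + 2) by ring,
      show e + 1 + (t + 1) = e + 2 + t by ring] at h2
    omega
  have key3 : ∀ m t, C (e + 1 + (t + 2 * m)) = C (e + 1 + t) := by
    intro m
    induction m with
    | zero =>
      intro t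
      rfl
    | succ m ih =>
      intro t
      rw [show t + 2 * (m + 1) = (t + 2 * m) + 2 by ring, key2, ih]
  rcases Nat.even_or_odd N with hE | hO
  · exfalso
    obtain ⟨r, hr⟩ := hE
    have h1 := hCper (e + 1) (by omega)
    rw [show e + 1 + (N - 1) = e + 1 + (1 + 2 * (r - 1)) by omega, key3] at h1
    have h2 := (key 0).2.2.2.1
    rw [show e + 2 + 0 = e + 1 + 1 by ring, Nat.add_zero] at h2
    exact h2 h1
  · exact hO

end Pool.Agent.DBP
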