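import Pool.Agent.DBP.SyA

/-! # DBP: joined pairs

Suppose `A w z` (the other case is symmetric). The part `j` of `sw s i w` is `P s j` (`P_sw_other`), and `z` is an out-neighbour of its token `w`, so
`z ∈ T A (sw s i w) j`, and by `comp_eqP` this club is `T A s j`. By `cln_bic` `w` forms digons with all of `T A s j`, in particular `A z w`. So
`w ∈ T A (sw s j z) i`, and in the same way `T A (sw s j z) i = T A s i`.
-/

namespace Pool.Agent.DBP

open Finset Pool.Agent.DBK
open scoped Classical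

variable {V : Type*} [Fintype V] {m : ℕ} {A : V → V → Prop}

theorem parts_ne {s : St V m} {i j : Fin m} (hij : i ≠ j) {u v : V} (hu : u ∈ P s i)
    (hv : v ∈ P s j) : u ≠ v := by
  intro he
  rw [he] at hu
  simp only [P, Finset.mem_filter] at hu hv
  exact hij (Option.some_injective _ (hu.2.2.symm.trans hv.2.2))

theorem jnd_half {O : Finset (St V m)} (hS : SysP A m O) {i j : Fin m} (hij : i ≠ j)
    {s : St V m} (hs : s ∈ O) (hi : Cln A s i) (hj : Cln A s j) {w z : V} (hw : w ∈ T A s i)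
    (hz : z ∈ T A s j) (hwj : Cln A (sw s i w) j) (hA : A w z) :
    T A (sw s i w) j = T A s j ∧ ∀ u ∈ T A s j, A w u ∧ A u w := by
  have hl := hS.loop
  have hn := hS.norm s hs
  have hwP : w ∈ P s i := T_sub s i hw
  have hs1 := (hS.swap s hs i hi w hw).1
  have hn1 := hS.norm _ hs1
  have hP : P (sw s i w) j = P s j := P_sw_other hn hij.symm (mem_insert_of_mem hwP)
  have hzT : z ∈ T A (sw s i w) j := by
    refine mem_filter.2 ⟨?_, hA⟩
    rw [hP]
    exact T_sub s j hz
  have hT : T A (sw s i w) j = T A s j := comp_eqP hl hn1 hn hwj hj hP hzT hz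
  refine ⟨hT, ?_⟩
  intro u hu
  have huP : u ∈ P s j := T_sub s j hu
  have hne : w ≠ u := parts_ne hij hwP huP
  have hu1 : u ∈ insert (sw s i w).1 (T A (sw s i w) j) := by
    rw [hT]
    exact mem_insert_of_mem hu
  have hw1 : w ∈ insert (sw s i w).1 (T A (sw s i w) j) := mem_insert_self _ _
  exact ⟨cln_bic hl hn1 hwj w hw1 u hu1 hne, cln_bic hl hn1 hwj u hu1 w hw1 hne.symm⟩

theorem jnd_digon {O : Finset (St V m)} (hS : SysP A m O) {i j : Fin m} (hij : i ≠ j)
    {s : St V m} (hs : s ∈ O) (hi : Cln A s i) (hj : Cln A s j) {w z : V} (hw : w ∈ T A s i)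
    (hz : z ∈ T A s j) (hwj : Cln A (sw s i w) j) (hzi : Cln A (sw s j z) i)
    (hA : A w z ∨ A z w) :
    T A (sw s i w) j = T A s j ∧ T A (sw s j z) i = T A s i ∧ (∀ u ∈ T A s j, A w u ∧ A u w) ∧
      ∀ u ∈ T A s i, A z u ∧ A u z := by
  rcases hA with hA | hA
  · have h1 := jnd_half hS hij hs hi hj hw hz hwj hA
    have h2 := jnd_half hS hij.symm hs hj hi hz hw hzi (h1.2 z hz).2
    exact ⟨h1.1, h2.1, h1.2, h2.2⟩
  · have h2 := jnd_half hS hij.symm hs hj hi hz hw hzi hA
    have h1 := jnd_half hS hij hs hi hj hw hz hwj (h2.2 w hw).2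
    exact ⟨h1.1, h2.1, h1.2, h2.2⟩

end Pool.Agent.DBP
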