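import Pool.Agent.DBP.DefsP
import Pool.Agent.DBK.ColB
import Pool.Agent.DBK.ColC
import Pool.Agent.DBK.ValB

/-! # DBP: valid states without a bound on the in-degrees

The proofs of `valid_part`, `valid_rest`, `valid_out`, `exists_valid` in `Pool/Agent/DBK/ValA.lean` do not use the bound on the
in-degrees: copy them. `out_bad`: `outd A s.1 univ = ∑ j, outd A s.1 (P s j) + outd A s.1 (P0 s)` (see `Pool/Agent/DBK/ValD.lean`), all
summands are at least three (`r` for the rest, by `validP_rest` and `outd_ge`), and the sum is at most `3m + r + 1`.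
-/

namespace Pool.Agent.DBP

open Finset Pool.Agent.DBK
open scoped Classical

variable {V : Type*} [Fintype V] {m : ℕ} {A : V → V → Prop}


theorem validP_part {r : ℕ} (hB : BaseP A m r) {s : St V m} (hs : Valid A r s) (j : Fin m) :
    ¬ Col A 3 (insert s.1 (P s j)) := by
  intro hc
  obtain ⟨_, h3, h0⟩ := hs
  apply hB.nc
  refine col_glue (place s j) (col_mono h0 ?_) ?_
  · intro v hv
    rw [Finset.mem_filter] at hv
    have hv2 := hv.2
    rw [P0, Finset.mem_filter]
    by_cases h : v = s.1
    · rw [h] at hv2
      simp [place] at hv2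
    · simp only [place, Function.update_of_ne h] at hv2
      exact ⟨Finset.mem_univ _, h, hv2⟩
  · intro i
    by_cases hij : i = j
    · refine col_mono hc ?_
      intro v hv
      rw [Finset.mem_filter] at hv
      have hv2 := hv.2
      rw [Finset.mem_insert]
      by_cases h : v = s.1
      · exact Or.inl h
      · right
        simp only [place, Function.update_of_ne h] at hv2
        rw [P, Finset.mem_filter]
        exact ⟨Finset.mem_univ _, h, by rw [hv2, hij]⟩
    · refine col_mono (h3 i) ?_
      intro v hv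
      rw [Finset.mem_filter] at hv
      have hv2 := hv.2
      by_cases h : v = s.1
      · rw [h] at hv2
        simp only [place, Function.update_self, Option.some.injEq] at hv2
        exact absurd hv2.symm hij
      · simp only [place, Function.update_of_ne h] at hv2
        rw [P, Finset.mem_filter]
        exact ⟨Finset.mem_univ _, h, hv2⟩

theorem validP_rest {r : ℕ} (hB : BaseP A m r) {s : St V m} (hs : Valid A r s) :
    ¬ Col A r (insert s.1 (P0 s)) := by
  intro hc
  obtain ⟨hn, h3, h0⟩ := hs
  apply hB.nc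
  refine col_glue s.2 (col_mono hc ?_) ?_
  · intro v hv
    rw [Finset.mem_filter] at hv
    rw [Finset.mem_insert]
    by_cases h : v = s.1
    · exact Or.inl h
    · right
      rw [P0, Finset.mem_filter]
      exact ⟨Finset.mem_univ _, h, hv.2⟩
  · intro i
    refine col_mono (h3 i) ?_
    intro v hv
    rw [Finset.mem_filter] at hv
    by_cases h : v = s.1
    · have hv2 := hv.2
      rw [h, hn] at hv2
      exact absurd hv2 (by simp)
    · rw [P, Finset.mem_filter]
      exact ⟨Finset.mem_univ _, h, hv.2⟩

theorem validP_out {r : ℕ} (hB : BaseP A m r) {s : St V m} (hs : Valid A r s) (j : Fin m) :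
    3 ≤ outd A s.1 (P s j) := by
  exact outd_ge (by simp [P]) (hB.loop _) (hs.2.1 j) (validP_part hB hs j)

theorem exists_validP {r : ℕ} (hB : BaseP A m r) : ∃ s : St V m, Valid A r s := by
  have hne : Nonempty V := by
    by_contra hne
    rw [not_nonempty_iff] at hne
    apply hB.nc
    rw [Finset.univ_eq_empty]
    exact col_le col_empty (Nat.zero_le _)
  obtain ⟨v⟩ := hne
  obtain ⟨p, h0, h3⟩ := col_split (hB.cr v)
  refine ⟨(v, Function.update p v none), ?_, ?_, ?_⟩
  · simp
  · intro j
    refine col_mono (h3 j) ?_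
    intro u hu
    rw [P, Finset.mem_filter] at hu
    obtain ⟨_, hu1, hu2⟩ := hu
    have hu1' : u ≠ v := hu1
    have hu2' : Function.update p v none u = some j := hu2
    rw [Function.update_of_ne hu1'] at hu2'
    rw [Finset.mem_filter]
    exact ⟨Finset.mem_erase.2 ⟨hu1', Finset.mem_univ _⟩, hu2'⟩
  · refine col_mono h0 ?_
    intro u hu
    rw [P0, Finset.mem_filter] at hu
    obtain ⟨_, hu1, hu2⟩ := hu
    have hu1' : u ≠ v := hu1
    have hu2' : Function.update p v none u = none := hu2
    rw [Function.update_of_ne hu1'] at hu2'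
    rw [Finset.mem_filter]
    exact ⟨Finset.mem_erase.2 ⟨hu1', Finset.mem_univ _⟩, hu2'⟩

theorem cardP_split (s : St V m) (Q : V → Prop) (hQ : ¬ Q s.1) :
    ((univ : Finset V).filter Q).card =
      ∑ j, ((P s j).filter Q).card + ((P0 s).filter Q).card := by
  have h1 : ((univ : Finset V).filter Q).card = ∑ o : Option (Fin m),
      (((univ : Finset V).filter Q).filter (fun v => s.2 v = o)).card :=
    Finset.card_eq_sum_card_fiberwise (fun _ _ => Finset.mem_coe.2 (Finset.mem_univ _))
  rw [h1, Fintype.sum_option, add_comm]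
  congr 1
  · refine Finset.sum_congr rfl (fun j _ => ?_)
    congr 1
    ext v
    simp only [Finset.mem_filter, P, Finset.mem_univ, true_and]
    constructor
    · rintro ⟨h2, h3⟩
      exact ⟨⟨fun h => hQ (h ▸ h2), h3⟩, h2⟩
    · rintro ⟨⟨_, h3⟩, h2⟩
      exact ⟨h2, h3⟩
  · congr 1
    ext v
    simp only [Finset.mem_filter, P0, Finset.mem_univ, true_and]
    constructor
    · rintro ⟨h2, h3⟩
      exact ⟨⟨fun h => hQ (h ▸ h2), h3⟩, h2⟩
    · rintro ⟨⟨_, h3⟩, h2⟩
      exact ⟨h2, h3⟩

/-- At most one part has more than three out-neighbours of the token, and it has four. -/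
theorem out_bad {r : ℕ} (hB : BaseP A m r) {s : St V m} (hs : Valid A r s) :
    (univ.filter (fun j => 4 ≤ outd A s.1 (P s j))).card ≤ 1 := by
  have ho := hB.od s.1
  have eo : outd A s.1 univ = ∑ j, outd A s.1 (P s j) + outd A s.1 (P0 s) :=
    cardP_split s (fun y => A s.1 y) (hB.loop _)
  have h1 : r ≤ outd A s.1 (P0 s) :=
    outd_ge (by simp [P0]) (hB.loop _) hs.2.2 (validP_rest hB hs)
  have h4 : ∑ j : Fin m, (3 + if 4 ≤ outd A s.1 (P s j) then 1 else 0) ≤
      ∑ j, outd A s.1 (P s j) := by
    refine Finset.sum_le_sum (fun j _ => ?_)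
    have a1 := validP_out hB hs j
    by_cases hc : 4 ≤ outd A s.1 (P s j)
    · rw [if_pos hc]
      omega
    · rw [if_neg hc]
      omega
  have h5 : ∑ j : Fin m, (3 + if 4 ≤ outd A s.1 (P s j) then 1 else 0) =
      3 * m + (univ.filter (fun j => 4 ≤ outd A s.1 (P s j))).card := by
    rw [Finset.sum_add_distrib, Finset.card_filter]
    simp [mul_comm]
  omega

end Pool.Agent.DBP
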