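import Pool.Agent.DBP.WkA

/-! # DBP: the club of the first swap is the club when the first token is in a club again

Let `x = (s 0).1`, `K = T A (s 1) j`; it contains `x` (`cln_bic` for `s 1`, whose part `j` contains `x`; or: the club of `s 0` in part `j` with the roles exchanged),
it is a biclique with three vertices. Claim `K ⊆ P (s l) j` for `1 ≤ l ≤ k` by induction: an odd step does not change part `j` (`P_sw_other`); at an
even `l`, `2 ≤ l < k`, the new token `y ∈ T A (s l) j` is not in `K`: `y ≠ x` by `hmin`, and if `y ∈ K`, `y ≠ x`, then `A y x` and `cln_closed` give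
`x ∈ T A (s l) j`, against `hmin`; so `K` stays (`P_sw_self`). At `k`: the two other vertices of `K` are out-neighbours of `x ∈ T A (s k) j` in `P (s k) j`, so they are in
`T A (s k) j` (`cln_closed`); both sets have three elements.
-/

namespace Pool.Agent.DBP

open Finset Pool.Agent.DBK
open scoped Classical

variable {V : Type*} [Fintype V] {m : ℕ} {A : V → V → Prop}

theorem wkP_x_mem {O : Finset (St V m)} (hS : SysP A m O) {i j : Fin m} {L : ℕ}
    {s : ℕ → St V m} (hw : AltW A O i j L s) (hL : 1 < L) : (s 0).1 ∈ T A (s 1) j := by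
  have hx := wkP_x hS hw 1 (by omega) hL
  have h0 := hw.mem 0 (by omega)
  obtain ⟨y, hy, hs⟩ := hw.step 0 (by omega)
  rw [if_pos (by simp)] at hy hs
  have hy1 : (s (0 + 1)).1 = y := by rw [hs]; rfl
  rw [zero_add] at hy1
  have hne : y ≠ (s 0).1 := by
    intro he
    have h2 := (Finset.mem_filter.1 hy).2
    rw [he] at h2
    exact hS.loop _ h2
  have hA : A y (s 0).1 := cln_bic hS.loop (hS.norm _ h0.1) h0.2.2 y (Finset.mem_insert_of_mem hy)
    (s 0).1 (Finset.mem_insert_self _ _) hne
  unfold T
  rw [Finset.mem_filter]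
  refine ⟨hx, ?_⟩
  rw [hy1]
  exact hA

theorem wkP_comp {O : Finset (St V m)} (hS : SysP A m O) {i j : Fin m} {L : ℕ}
    {s : ℕ → St V m} (hw : AltW A O i j L s) {k : ℕ} (hk : Even k) (hk2 : 2 ≤ k)
    (hkL : k < L) (hx : (s 0).1 ∈ T A (s k) j)
    (hmin : ∀ l, Even l → 2 ≤ l → l < k → (s 0).1 ∉ T A (s l) j) :
    T A (s k) j = T A (s 1) j := by
  have h1m := hw.mem 1 (by omega)
  have hxK := wkP_x_mem hS hw (by omega)
  have hbic := cln_bic hS.loop (hS.norm _ h1m.1) h1m.2.2
  have key : ∀ l, l + 1 ≤ k → T A (s 1) j ⊆ P (s (l + 1)) j := by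
    intro l
    induction l with
    | zero =>
      intro _
      exact T_sub _ _
    | succ l ih =>
      intro hl
      have ih1 := ih (by omega)
      have hm := hw.mem (l + 1) (by omega)
      have hn := hS.norm _ hm.1
      obtain ⟨y, hy, hs⟩ := hw.step (l + 1) (by omega)
      by_cases hev : Even (l + 1)
      · rw [if_pos hev] at hy hs
        have hl2 : 2 ≤ l + 1 := by
          rcases Nat.eq_zero_or_pos l with h0 | h0
          · rw [h0] at hev
            exact absurd hev (by decide)
          · omega
        have hxn := hmin (l + 1) hev hl2 (by omega)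
        have hyK : y ∉ T A (s 1) j := by
          intro hyk
          by_cases hyx : y = (s 0).1
          · rw [hyx] at hy
            exact hxn hy
          · have h2 := hbic y (Finset.mem_insert_of_mem hyk) (s 0).1
              (Finset.mem_insert_of_mem hxK) hyx
            exact hxn (cln_closed hS.loop hn hm.2.2 hy (ih1 hxK) h2)
        rw [hs, P_sw_self hn (T_sub _ _ hy)]
        intro u hu
        refine Finset.mem_insert_of_mem (Finset.mem_erase.2 ⟨fun he => ?_, ih1 hu⟩)
        rw [he] at hu
        exact hyK hu
      · rw [if_neg hev] at hy hs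
        have hP : P (s (l + 1 + 1)) j = P (s (l + 1)) j := by
          rw [hs]
          exact P_sw_other hn hw.ij.symm (Finset.mem_insert_of_mem (T_sub _ _ hy))
        rw [hP]
        exact ih1
  have h := key (k - 1) (by omega)
  rw [Nat.sub_add_cancel (by omega)] at h
  have hkm := hw.mem k (by omega)
  have hnk := hS.norm _ hkm.1
  symm
  apply Finset.eq_of_subset_of_card_le
  · intro u hu
    by_cases hux : (s 0).1 = u
    · rw [← hux]
      exact hx
    · exact cln_closed hS.loop hnk hkm.2.2 hx (h hu)
        (hbic (s 0).1 (Finset.mem_insert_of_mem hxK) u (Finset.mem_insert_of_mem hu) hux)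
  · rw [cln_card hS.loop hnk hkm.2.2, cln_card hS.loop (hS.norm _ h1m.1) h1m.2.2]

end Pool.Agent.DBP
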