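import Pool.Agent.DBP.WkB
import Pool.Agent.DBP.K4s

/-! # DBP: a closed alternating walk shows joinedness

Let `x = (s 0).1`, `z = (s 1).1 ∈ T A (s 0) j`, `T A (s 0) j = {z, t, t'}`; then `T A (s 1) j = {x, t, t'}`. By `wkP_L` there is an even `k`, `2 ≤ k < L`, with
`x ∈ T A (s k) j`; take the least one, `w = (s k).1`. By `wkP_comp`, `T A (s k) j = {x, t, t'}`, so `w` forms digons with `x`, `t`, `t'`. `w ∈ P (s 0) i`: at the
(odd) time `k - 1` it is in part `i` (it is picked from it), and it was not a token before (`wkP_i`, `hw.inj`). `A x w`, so `w ∈ T A (s 0) i`. Let `s' = sw (s 0) i w ∈ O`;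
`Cln A s' i` (`hS.swap`), `P s' j = P (s 0) j =: Q`. `outd A w Q = 3`: by `outd_Vp`, `wkP_Vp`, `Vp_sw_left` and `cln_out`, `outd A w (Vp (s 0) i j) = 6` (from `s k`), and
`outd A w (P s' i) = 3`. By `k4s` (with `hS.nc s' j`, `hS.cp s' j`, `cln_closed` for `s 0`) `w` and `z` form a digon. So `T A s' j` contains `z, t, t'`, hence is equal to
`T A (s 0) j`, and `Cln A s' j` by `cln_mk`. `Cln A (sw (s 0) j z) i` because `sw (s 0) j z = s 1`. The pair `w`, `z` shows the claim.
-/

namespace Pool.Agent.DBP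

open Finset Pool.Agent.DBK
open scoped Classical

variable {V : Type*} [Fintype V] {m : ℕ} {A : V → V → Prop}

theorem walkP {O : Finset (St V m)} (hS : SysP A m O) {i j : Fin m} {L : ℕ}
    {s : ℕ → St V m} (hw : AltW A O i j L s) : Jnd A (s 0) i j := by
  obtain ⟨hL3, hLo, hLx⟩ := wkP_L hS hw
  have hl := hS.loop
  -- the least even time at which the first token is in a club again
  have hex : ∃ k, Even k ∧ 2 ≤ k ∧ k < L ∧ (s 0).1 ∈ T A (s k) j := by
    refine ⟨L - 1, ?_, by omega, by omega, hLx⟩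
    rcases Nat.even_or_odd (L - 1) with h | h
    · exact h
    · exfalso
      apply hLo
      have h1 := h.add_one
      rwa [Nat.sub_add_cancel (by omega)] at h1
  obtain ⟨hk, hk2, hkL, hxk⟩ := Nat.find_spec hex
  have hminf := fun l (hlt : l < Nat.find hex) => Nat.find_min hex hlt
  set k := Nat.find hex with hkdef
  have hmin : ∀ l, Even l → 2 ≤ l → l < k → (s 0).1 ∉ T A (s l) j := by
    intro l h1 h2 h3 h4
    exact hminf l h3 ⟨h1, h2, by omega, h4⟩
  have hcomp := wkP_comp hS hw hk hk2 hkL hxk hmin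
  have m0 := hw.mem 0 (by omega)
  have m1 := hw.mem 1 (by omega)
  have mk := hw.mem k (by omega)
  have n0 := hS.norm _ m0.1
  have n1 := hS.norm _ m1.1
  have nk := hS.norm _ mk.1
  -- the first step
  obtain ⟨z, hz, hs1⟩ := hw.step 0 (by omega)
  rw [if_pos (by simp)] at hz hs1
  rw [zero_add] at hs1
  have bic0 := cln_bic hl n0 m0.2.2
  have bick := cln_bic hl nk mk.2.2
  -- the other two elements
  have hc0 := cln_card hl n0 m0.2.2
  have hc1 : ((T A (s 0) j).erase z).card = 2 := by rw [Finset.card_erase_of_mem hz, hc0]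
  obtain ⟨t, t', htt, hTe⟩ := Finset.card_eq_two.1 hc1
  have htm : t ∈ (T A (s 0) j).erase z := by rw [hTe]; exact Finset.mem_insert_self _ _
  have htm' : t' ∈ (T A (s 0) j).erase z := by
    rw [hTe]; exact Finset.mem_insert_of_mem (Finset.mem_singleton_self _)
  have htz := Finset.ne_of_mem_erase htm
  have htz' := Finset.ne_of_mem_erase htm'
  have htT := Finset.mem_of_mem_erase htm
  have htT' := Finset.mem_of_mem_erase htm'
  have hcases : ∀ v ∈ T A (s 0) j, v = z ∨ v = t ∨ v = t' := by
    intro v hv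
    by_cases hvz : v = z
    · exact Or.inl hvz
    · have h1 : v ∈ (T A (s 0) j).erase z := Finset.mem_erase.2 ⟨hvz, hv⟩
      rw [hTe, Finset.mem_insert, Finset.mem_singleton] at h1
      exact Or.inr h1
  -- they are in the club of `s 1`, hence in the club of `s k`
  have hK : ∀ v ∈ T A (s 0) j, v ≠ z → v ∈ T A (s k) j := by
    intro v hv hvz
    rw [hcomp]
    unfold T
    rw [Finset.mem_filter]
    constructor
    · rw [hs1, P_sw_self n0 (T_sub _ _ hz)]
      exact Finset.mem_insert_of_mem (Finset.mem_erase.2 ⟨hvz, T_sub _ _ hv⟩)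
    · have h1 : (s 1).1 = z := by rw [hs1]; rfl
      rw [h1]
      exact bic0 z (Finset.mem_insert_of_mem hz) v (Finset.mem_insert_of_mem hv) (Ne.symm hvz)
  have hdig : ∀ v ∈ T A (s k) j, A (s k).1 v ∧ A v (s k).1 := by
    intro v hv
    have h1 : A (s k).1 v := (Finset.mem_filter.1 hv).2
    refine ⟨h1, bick v (Finset.mem_insert_of_mem hv) _ (Finset.mem_insert_self _ _) ?_⟩
    intro he
    rw [he] at h1
    exact hl _ h1
  -- `w` is in part `i` of `s 0`
  have hwi : (s k).1 ∈ P (s 0) i := by
    obtain ⟨y, hy, hsk⟩ := hw.step (k - 1) (by omega)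
    have hodd : ¬ Even (k - 1) := by
      intro h
      have h1 := h.add_one
      rw [Nat.sub_add_cancel (by omega)] at h1
      exact (Nat.not_odd_iff_even.2 hk) h1
    rw [if_neg hodd] at hy hsk
    rw [Nat.sub_add_cancel (by omega)] at hsk
    have h1 : (s k).1 = y := by rw [hsk]; rfl
    rw [h1, ← wkP_i hS hw (v := y) (k := k - 1) (by omega) ?_]
    · exact T_sub _ _ hy
    · intro l hlk he
      rw [← h1] at he
      have := hw.inj l k (by omega) hkL he
      omega
  have hxw : A (s 0).1 (s k).1 := (hdig _ hxk).2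
  have hwT : (s k).1 ∈ T A (s 0) i := by
    unfold T
    rw [Finset.mem_filter]
    exact ⟨hwi, hxw⟩
  obtain ⟨hO', hcl'⟩ := hS.swap (s 0) m0.1 i m0.2.1 _ hwT
  have n' := hS.norm _ hO'
  have hPj : P (sw (s 0) i (s k).1) j = P (s 0) j :=
    P_sw_other n0 hw.ij.symm (Finset.mem_insert_of_mem hwi)
  have htok : (sw (s 0) i (s k).1).1 = (s k).1 := rfl
  -- the out-degree of `w` in part `j`
  have hout : outd A (s k).1 (P (s 0) j) = 3 := by
    have e1 := outd_Vp (A := A) hl (s := s k) hw.ij
    have e2 := outd_Vp (A := A) hl (s := sw (s 0) i (s k).1) hw.ij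
    rw [Vp_sw_left n0 hw.ij (Finset.mem_insert_of_mem hwi), htok] at e2
    rw [wkP_Vp hS hw k (by omega)] at e1
    have e3 := cln_out hl nk mk.2.1
    have e4 := cln_out hl nk mk.2.2
    have e5 := cln_out hl n' hcl'
    rw [htok] at e5
    rw [hPj] at e2
    omega
  have hwQ : (s k).1 ∉ P (s 0) j := by
    rw [← hPj]
    unfold P
    rw [Finset.mem_filter]
    rintro ⟨-, h, -⟩
    exact h rfl
  have hnc := hS.nc _ hO' j
  have hcp := hS.cp _ hO' j
  rw [hPj] at hnc hcp
  rw [htok] at hnc
  have hwz := k4s hl hnc hcp hwQ (T_sub _ _ hz) (T_sub _ _ htT) (T_sub _ _ htT') htz.symm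
    htz'.symm htt
    ⟨bic0 _ (Finset.mem_insert_of_mem hz) _ (Finset.mem_insert_of_mem htT) htz.symm,
      bic0 _ (Finset.mem_insert_of_mem htT) _ (Finset.mem_insert_of_mem hz) htz⟩
    ⟨bic0 _ (Finset.mem_insert_of_mem hz) _ (Finset.mem_insert_of_mem htT') htz'.symm,
      bic0 _ (Finset.mem_insert_of_mem htT') _ (Finset.mem_insert_of_mem hz) htz'⟩
    ⟨bic0 _ (Finset.mem_insert_of_mem htT) _ (Finset.mem_insert_of_mem htT') htt,
      bic0 _ (Finset.mem_insert_of_mem htT') _ (Finset.mem_insert_of_mem htT) htt.symm⟩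
    (by
      intro v hv hzv
      rcases hcases v (cln_closed hl n0 m0.2.2 hz hv hzv) with h | h
      · rw [h] at hzv
        exact absurd hzv (hl z)
      · exact h)
    (by
      intro v hv htv
      rcases hcases v (cln_closed hl n0 m0.2.2 htT hv htv) with h | h | h
      · exact Or.inl h
      · rw [h] at htv
        exact absurd htv (hl t)
      · exact Or.inr h)
    (hdig t (hK t htT htz)) (hdig t' (hK t' htT' htz')) hout
  -- the club of `w` in part `j`
  have hdw : ∀ v ∈ T A (s 0) j, A (s k).1 v ∧ A v (s k).1 := by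
    intro v hv
    by_cases hvz : v = z
    · rw [hvz]
      exact hwz
    · exact hdig v (hK v hv hvz)
  have hTT : T A (s 0) j = T A (sw (s 0) i (s k).1) j := by
    apply Finset.eq_of_subset_of_card_le
    · intro v hv
      unfold T
      rw [Finset.mem_filter, hPj, htok]
      exact ⟨T_sub _ _ hv, (hdw v hv).1⟩
    · rw [hc0]
      have h1 : (T A (sw (s 0) i (s k).1) j).card = outd A (s k).1 (P (s 0) j) := by
        unfold T outd
        rw [hPj, htok]
      rw [h1, hout]
  have hclj : Cln A (sw (s 0) i (s k).1) j := by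
    apply cln_mk hl n'
    · rw [← hTT, hc0]
    · intro u hu v hv huv
      rw [← hTT, htok, Finset.mem_insert] at hu hv
      rcases hu with hu | hu
      · rcases hv with hv | hv
        · exact absurd (hu.trans hv.symm) huv
        · rw [hu]
          exact (hdw v hv).1
      · rcases hv with hv | hv
        · rw [hv]
          exact (hdw u hu).2
        · exact bic0 u (Finset.mem_insert_of_mem hu) v (Finset.mem_insert_of_mem hv) huv
    · intro u hu v hv huv
      rw [← hTT] at hu ⊢
      rw [hPj] at hv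
      exact cln_closed hl n0 m0.2.2 hu hv huv
  refine ⟨(s k).1, hwT, z, hz, hclj, ?_, Or.inl hwz.1⟩
  rw [← hs1]
  exact m1.2.1

end Pool.Agent.DBP
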